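import Pool.Agent.TH908.IS.Stm

/-!
# Project IS, piece B (helper150): the fractional moment bound in finite volume
-/

set_option autoImplicit false

open MeasureTheory Metric Set Filter Topology
open scoped ENNReal

namespace Pool.Agent.TH908.IS.B

/-- resampling of one coordinate -/
theorem resample {ι : Type} [Fintype ι] [DecidableEq ι] (μ : ι → Measure ℂ)
    [∀ i, IsProbabilityMeasure (μ i)] (y : ι) (f : (ι → ℂ) → ℝ≥0∞) (hf : Measurable f) :
    ∫⁻ v, f v ∂(Measure.pi μ) =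
      ∫⁻ v, ∫⁻ t, f (Function.update v y t) ∂(μ y) ∂(Measure.pi μ) := by
  have hg : Measurable (fun v : ι → ℂ => ∫⁻ t, f (Function.update v y t) ∂(μ y)) := by
    have := hf.lmarginal μ (s := {y})
    rwa [lmarginal_singleton] at this
  have h1 := lmarginal_erase' (μ := μ) f hf (Finset.mem_univ y)
  have h2 := lmarginal_erase' (μ := μ) (fun v : ι → ℂ => ∫⁻ t, f (Function.update v y t) ∂(μ y)) hg
    (Finset.mem_univ y)
  have h3 : (fun x : ι → ℂ => ∫⁻ t, (fun v : ι → ℂ => ∫⁻ t, f (Function.update v y t) ∂(μ y))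
      (Function.update x y t) ∂(μ y)) =
      (fun v : ι → ℂ => ∫⁻ t, f (Function.update v y t) ∂(μ y)) := by
    funext x
    simp only [Function.update_idem]
    rw [lintegral_const, measure_univ, mul_one]
  rw [h3, ← h1] at h2
  have h4 := congrFun h2 (fun _ => 0)
  rw [lmarginal_univ, lmarginal_univ] at h4
  exact h4.symm

/-- resampling of one coordinate, almost everywhere -/
theorem resample_ae {ι : Type} [Fintype ι] [DecidableEq ι] (μ : ι → Measure ℂ)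
    [∀ i, IsProbabilityMeasure (μ i)] (y : ι) (P : Set (ι → ℂ)) (hP : MeasurableSet P)
    (h : ∀ᵐ v ∂(Measure.pi μ), ∀ᵐ t ∂(μ y), Function.update v y t ∈ P) :
    ∀ᵐ v ∂(Measure.pi μ), v ∈ P := by
  have h0 : ∫⁻ v, (Pᶜ).indicator 1 v ∂(Measure.pi μ) = 0 := by
    rw [resample μ y _ (measurable_one.indicator hP.compl)]
    rw [lintegral_eq_zero_of_ae_eq_zero]
    filter_upwards [h] with v hv
    rw [Pi.zero_apply]
    apply lintegral_eq_zero_of_ae_eq_zero
    filter_upwards [hv] with t ht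
    rw [Pi.zero_apply]
    exact indicator_of_notMem (by simpa using ht) _
  rw [lintegral_indicator_one hP.compl] at h0
  exact h0

theorem meas_B {ι : Type} [Fintype ι] [DecidableEq ι] (a : ι → ι → ℂ) (z : ℂ) (s : Finset ι) :
    Continuous (fun v : ι → ℂ => B a z s v) := by
  refine continuous_matrix fun i j => ?_
  unfold IS.B
  split_ifs <;> fun_prop

theorem meas_det {ι : Type} [Fintype ι] [DecidableEq ι] (a : ι → ι → ℂ) (z : ℂ) (s : Finset ι) :
    MeasurableSet {v : ι → ℂ | IsUnit (B a z s v).det} := by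
  have h : Continuous (fun v : ι → ℂ => (B a z s v).det) := (meas_B a z s).matrix_det
  have h2 : {v : ι → ℂ | IsUnit (B a z s v).det} = (fun v : ι → ℂ => (B a z s v).det) ⁻¹' {0}ᶜ := by
    ext v
    simp [isUnit_iff_ne_zero]
  rw [h2]
  exact h.measurable (measurableSet_singleton 0).compl

theorem meas_inv {ι : Type} [Fintype ι] [DecidableEq ι] (a : ι → ι → ℂ) (z : ℂ) (s : Finset ι)
    (o y : ι) : Measurable (fun v : ι → ℂ => (B a z s v)⁻¹ o y) := by
  have h : Continuous (fun v : ι → ℂ => (B a z s v).det) := (meas_B a z s).matrix_det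
  have h1 : Continuous (fun v : ι → ℂ => (B a z s v).adjugate o y) :=
    ((meas_B a z s).matrix_adjugate).matrix_elem o y
  have h2 : (fun v : ι → ℂ => (B a z s v)⁻¹ o y) =
      fun v => ((B a z s v).det)⁻¹ * (B a z s v).adjugate o y := by
    funext v
    rw [Matrix.inv_def, Ring.inverse_eq_inv', Matrix.smul_apply, smul_eq_mul]
  rw [h2]
  exact h.measurable.inv.mul h1.measurable

/-- no atoms -/
theorem no_atom {m : Measure ℂ} {σ : ℝ} {N : ℝ≥0∞} (hσ : 0 < σ) (hN : N ≠ ⊤)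
    (h : ∀ b, ∫⁻ t, (‖t - b‖ₑ⁻¹) ^ σ ∂m ≤ N) (b : ℂ) : ∀ᵐ t ∂m, t ≠ b := by
  have hm : Measurable (fun t : ℂ => (‖t - b‖ₑ⁻¹) ^ σ) := by fun_prop
  have h1 := ae_lt_top hm (ne_top_of_le_ne_top hN (h b))
  filter_upwards [h1] with t ht
  rintro rfl
  simp [ENNReal.top_rpow_of_pos hσ] at ht

/-- almost sure invertibility -/
theorem unit_ae (hA : St_A) {ι : Type} [Fintype ι] [DecidableEq ι] (μ : ι → Measure ℂ)
    [∀ i, IsProbabilityMeasure (μ i)] (a : ι → ι → ℂ) (z : ℂ) (σ : ℝ) (N : ℝ≥0∞) (hσ : 0 < σ)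
    (hN : N ≠ ⊤) (h : ∀ i b, ∫⁻ t, (‖t - b‖ₑ⁻¹) ^ σ ∂(μ i) ≤ N) (s : Finset ι) :
    ∀ᵐ v ∂(Measure.pi μ), IsUnit (B a z s v).det := by
  induction s using Finset.induction_on with
  | empty =>
    filter_upwards with v
    have : B a z ∅ v = 1 := by
      ext i j
      simp [IS.B, Matrix.one_apply]
    rw [this, Matrix.det_one]
    exact isUnit_one
  | insert y s hy ih =>
    apply resample_ae μ y {v | IsUnit (B a z (insert y s) v).det} (meas_det a z _)
    filter_upwards [ih] with v hv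
    obtain ⟨β, hβ⟩ := hA ι a z (insert y s) y y v (Finset.mem_insert_self y s)
      (Finset.mem_insert_self y s) (by rwa [Finset.erase_insert hy])
    filter_upwards [no_atom hσ hN (h y) β] with t ht
    exact (hβ t).1 ht

/-- the recursive bounds -/
noncomputable def bb {ι : Type} [Fintype ι] [DecidableEq ι] (a : ι → ι → ℂ) (σ : ℝ) (N : ℝ≥0∞)
    (o : ι) : ℕ → ι → ℝ≥0∞
  | 0, _ => 0
  | k + 1, y => N * ((if y = o then 1 else 0) +
      ∑ i ∈ Finset.univ.erase y, bb a σ N o k i * ‖a i y‖ₑ ^ σ)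

theorem sum_bb {ι : Type} [Fintype ι] [DecidableEq ι] (a : ι → ι → ℂ) (σ : ℝ) (N κ M : ℝ≥0∞)
    (o : ι) (h : ∀ u, ∑ y ∈ Finset.univ.erase u, ‖a u y‖ₑ ^ σ ≤ κ) (hM : N * (1 + κ * M) ≤ M)
    (k : ℕ) : ∑ y, bb a σ N o k y ≤ M := by
  induction k with
  | zero => simp [bb]
  | succ k ih =>
    simp only [bb]
    rw [← Finset.mul_sum, Finset.sum_add_distrib]
    have h1 : ∑ y : ι, (if y = o then (1 : ℝ≥0∞) else 0) = 1 := by simp
    have h2 : ∑ y : ι, ∑ i ∈ Finset.univ.erase y, bb a σ N o k i * ‖a i y‖ₑ ^ σ =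
        ∑ i : ι, bb a σ N o k i * ∑ y ∈ Finset.univ.erase i, ‖a i y‖ₑ ^ σ := by
      simp only [Finset.mul_sum]
      apply Finset.sum_comm'
      intro x y
      simp [eq_comm]
    have h3 : ∑ i : ι, bb a σ N o k i * ∑ y ∈ Finset.univ.erase i, ‖a i y‖ₑ ^ σ ≤ κ * M := by
      calc ∑ i : ι, bb a σ N o k i * ∑ y ∈ Finset.univ.erase i, ‖a i y‖ₑ ^ σ
          ≤ ∑ i : ι, bb a σ N o k i * κ :=
            Finset.sum_le_sum fun i _ => mul_le_mul_right (h i) _
        _ = (∑ i : ι, bb a σ N o k i) * κ := by rw [Finset.sum_mul]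
        _ ≤ M * κ := mul_le_mul_left ih _
        _ = κ * M := mul_comm _ _
    rw [h1, h2]
    exact (mul_le_mul_right (add_le_add le_rfl h3) _).trans hM

theorem enorm_sum_rpow_le {ι : Type} [DecidableEq ι] (s : Finset ι) (f : ι → ℂ) {σ : ℝ}
    (hσ : 0 < σ) (hσ1 : σ ≤ 1) : ‖∑ i ∈ s, f i‖ₑ ^ σ ≤ ∑ i ∈ s, ‖f i‖ₑ ^ σ := by
  induction s using Finset.induction_on with
  | empty => simp [hσ]
  | insert y s hy ih =>
    rw [Finset.sum_insert hy, Finset.sum_insert hy]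
    calc ‖f y + ∑ i ∈ s, f i‖ₑ ^ σ ≤ (‖f y‖ₑ + ‖∑ i ∈ s, f i‖ₑ) ^ σ :=
          ENNReal.rpow_le_rpow (enorm_add_le _ _) hσ.le
      _ ≤ ‖f y‖ₑ ^ σ + ‖∑ i ∈ s, f i‖ₑ ^ σ := ENNReal.rpow_add_le_add_rpow _ _ hσ.le hσ1
      _ ≤ _ := add_le_add le_rfl ih

/-- the bound for one entry -/
theorem bound (hA : St_A) {ι : Type} [Fintype ι] [DecidableEq ι] (μ : ι → Measure ℂ)
    [∀ i, IsProbabilityMeasure (μ i)] (a : ι → ι → ℂ) (z : ℂ) (o : ι) (σ : ℝ) (N : ℝ≥0∞)
    (hσ : 0 < σ) (hσ1 : σ ≤ 1)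
    (hN : N ≠ ⊤) (h : ∀ i b, ∫⁻ t, (‖t - b‖ₑ⁻¹) ^ σ ∂(μ i) ≤ N) (k : ℕ) :
    ∀ (s : Finset ι), s.card ≤ k → o ∈ s → ∀ y ∈ s,
      ∫⁻ v, ‖(B a z s v)⁻¹ o y‖ₑ ^ σ ∂(Measure.pi μ) ≤ bb a σ N o k y := by
  induction k with
  | zero =>
    intro s hs ho
    rw [Nat.le_zero, Finset.card_eq_zero] at hs
    rw [hs] at ho
    exact absurd ho (Finset.notMem_empty o)
  | succ k ih =>
    intro s hs ho y hy
    have hms : ∀ (s : Finset ι) (y : ι), Measurable (fun v : ι → ℂ => ‖(B a z s v)⁻¹ o y‖ₑ ^ σ) :=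
      fun s y => ((meas_inv a z s o y).enorm).pow_const σ
    rw [resample μ y _ (hms s y)]
    -- the inner integral
    have key : ∀ᵐ v ∂(Measure.pi μ),
        ∫⁻ t, ‖(B a z s (Function.update v y t))⁻¹ o y‖ₑ ^ σ ∂(μ y) ≤
        N * ((if y = o then 1 else 0) + ∑ i ∈ (s.erase y).filter (fun _ => y ≠ o),
          ‖(B a z (s.erase y) v)⁻¹ o i‖ₑ ^ σ * ‖a i y‖ₑ ^ σ) := by
      filter_upwards [unit_ae hA μ a z σ N hσ hN h (s.erase y)] with v hv
      obtain ⟨β, hβ⟩ := hA ι a z s o y v ho hy hv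
      have e1 : ∀ t : ℂ, ‖(B a z s (Function.update v y t))⁻¹ o y‖ₑ ^ σ ≤
          ‖(if y = o then (1 : ℂ) else
            ∑ i ∈ s.erase y, (B a z (s.erase y) v)⁻¹ o i * a i y)‖ₑ ^ σ *
          (‖t - β‖ₑ⁻¹) ^ σ := by
        intro t
        rw [← ENNReal.mul_rpow_of_nonneg _ _ hσ.le]
        exact ENNReal.rpow_le_rpow (hβ t).2 hσ.le
      have hmt : Measurable (fun t : ℂ => (‖t - β‖ₑ⁻¹) ^ σ) := by fun_prop
      calc ∫⁻ t, ‖(B a z s (Function.update v y t))⁻¹ o y‖ₑ ^ σ ∂(μ y)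
          ≤ ∫⁻ t, ‖(if y = o then (1 : ℂ) else
            ∑ i ∈ s.erase y, (B a z (s.erase y) v)⁻¹ o i * a i y)‖ₑ ^ σ *
          (‖t - β‖ₑ⁻¹) ^ σ ∂(μ y) := lintegral_mono e1
        _ = ‖(if y = o then (1 : ℂ) else
            ∑ i ∈ s.erase y, (B a z (s.erase y) v)⁻¹ o i * a i y)‖ₑ ^ σ *
            ∫⁻ t, (‖t - β‖ₑ⁻¹) ^ σ ∂(μ y) := lintegral_const_mul _ hmt
        _ ≤ ‖(if y = o then (1 : ℂ) else
            ∑ i ∈ s.erase y, (B a z (s.erase y) v)⁻¹ o i * a i y)‖ₑ ^ σ * N :=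
          mul_le_mul_right (h y β) _
        _ ≤ _ := by
          rw [mul_comm]
          apply mul_le_mul_right
          by_cases hyo : y = o
          · simp [hyo]
          · rw [if_neg hyo, if_neg hyo, zero_add, Finset.filter_true_of_mem (fun _ _ => hyo)]
            refine (enorm_sum_rpow_le _ _ hσ hσ1).trans (le_of_eq ?_)
            refine Finset.sum_congr rfl fun i _ => ?_
            rw [enorm_mul, ENNReal.mul_rpow_of_nonneg _ _ hσ.le]
    refine (lintegral_mono_ae key).trans ?_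
    have hm2 : ∀ i : ι, Measurable (fun v : ι → ℂ =>
        ‖(B a z (s.erase y) v)⁻¹ o i‖ₑ ^ σ * ‖a i y‖ₑ ^ σ) := fun i =>
      (hms (s.erase y) i).mul_const _
    have hm3 : Measurable (fun v : ι → ℂ => (if y = o then (1 : ℝ≥0∞) else 0) +
        ∑ i ∈ (s.erase y).filter (fun _ => y ≠ o),
          ‖(B a z (s.erase y) v)⁻¹ o i‖ₑ ^ σ * ‖a i y‖ₑ ^ σ) :=
      measurable_const.add (Finset.measurable_fun_sum _ fun i _ => hm2 i)
    rw [lintegral_const_mul _ hm3, lintegral_add_left measurable_const, lintegral_const,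
      measure_univ, mul_one, lintegral_finsetSum _ (fun i _ => hm2 i)]
    show _ ≤ N * ((if y = o then 1 else 0) +
      ∑ i ∈ Finset.univ.erase y, bb a σ N o k i * ‖a i y‖ₑ ^ σ)
    apply mul_le_mul_right
    apply add_le_add le_rfl
    calc ∑ i ∈ (s.erase y).filter (fun _ => y ≠ o),
          ∫⁻ v, ‖(B a z (s.erase y) v)⁻¹ o i‖ₑ ^ σ * ‖a i y‖ₑ ^ σ ∂(Measure.pi μ)
        ≤ ∑ i ∈ (s.erase y).filter (fun _ => y ≠ o), bb a σ N o k i * ‖a i y‖ₑ ^ σ := by
          refine Finset.sum_le_sum fun i hi => ?_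
          rw [Finset.mem_filter] at hi
          rw [lintegral_mul_const _ (hms (s.erase y) i)]
          apply mul_le_mul_left
          exact ih (s.erase y) (by rw [Finset.card_erase_of_mem hy]; omega)
            (Finset.mem_erase.2 ⟨Ne.symm hi.2, ho⟩) i hi.1
      _ ≤ ∑ i ∈ Finset.univ.erase y, bb a σ N o k i * ‖a i y‖ₑ ^ σ := by
          apply Finset.sum_le_sum_of_subset
          intro i hi
          rw [Finset.mem_filter, Finset.mem_erase] at hi
          exact Finset.mem_erase.2 ⟨hi.1.1, Finset.mem_univ i⟩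

theorem main (hA : St_A) : St_B := by
  intro ι _ _ μ _ a z o σ N κ M hσ hσ1 hN h hκ hM
  refine ⟨unit_ae hA μ a z σ N hσ hN h Finset.univ, ?_⟩
  refine le_trans (Finset.sum_le_sum fun y _ => bound hA μ a z o σ N hσ hσ1 hN h
    (Finset.univ : Finset ι).card Finset.univ le_rfl (Finset.mem_univ o) y (Finset.mem_univ y)) ?_
  exact sum_bb a σ N κ M o hκ hM _

end Pool.Agent.TH908.IS.B
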