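import Pool.Agent.TH908.IS.Stm3
import Pool.Agent.TH908.IS.B

/-!
# Project IS, piece B3 (helper740): the moment bound with finitely many exceptional sites
-/

set_option autoImplicit false

open MeasureTheory Metric Set Filter Topology
open scoped ENNReal NNReal

namespace Pool.Agent.TH908.IS.B3

open Pool.Agent.TH908.IS.B (resample unit_ae enorm_sum_rpow_le meas_inv)

/-- removing one site -/
theorem step (hA : St_A) {ι : Type} [Fintype ι] [DecidableEq ι] (μ : ι → Measure ℂ)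
    [∀ i, IsProbabilityMeasure (μ i)] (a : ι → ι → ℂ) (z : ℂ) (o : ι) (σ : ℝ) (N : ℝ≥0∞)
    (hσ : 0 < σ) (hσ1 : σ ≤ 1)
    (hN : N ≠ ⊤) (h : ∀ i b, ∫⁻ t, (‖t - b‖ₑ⁻¹) ^ σ ∂(μ i) ≤ N)
    (s : Finset ι) (ho : o ∈ s) (y : ι) (hy : y ∈ s) :
    ∫⁻ v, ‖(B a z s v)⁻¹ o y‖ₑ ^ σ ∂(Measure.pi μ) ≤
      N * ((if y = o then 1 else 0) + ∑ i ∈ (s.erase y).filter (fun _ => y ≠ o),
        (∫⁻ v, ‖(B a z (s.erase y) v)⁻¹ o i‖ₑ ^ σ ∂(Measure.pi μ)) * ‖a i y‖ₑ ^ σ) := by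
  have hms : ∀ (s : Finset ι) (y : ι), Measurable (fun v : ι → ℂ => ‖(B a z s v)⁻¹ o y‖ₑ ^ σ) :=
    fun s y => ((meas_inv a z s o y).enorm).pow_const σ
  rw [resample μ y _ (hms s y)]
  -- the inner integral
  have key : ∀ᵐ v ∂(Measure.pi μ),
      ∫⁻ t, ‖(B a z s (Function.update v y t))⁻¹ o y‖ₑ ^ σ ∂(μ y) ≤
      N * ((if y = o then 1 else 0) + ∑ i ∈ (s.erase y).filter (fun _ => y ≠ o),
        ‖(B a z (s.erase y) v)⁻¹ o i‖ₑ ^ σ * ‖a i y‖ₑ ^ σ) := by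
    filter_upwards [unit_ae hA μ a z σ N hσ hN h (s.erase y)] with v hv
    obtain ⟨β, hβ⟩ := hA ι a z s o y v ho hy hv
    have e1 : ∀ t : ℂ, ‖(B a z s (Function.update v y t))⁻¹ o y‖ₑ ^ σ ≤
        ‖(if y = o then (1 : ℂ) else
          ∑ i ∈ s.erase y, (B a z (s.erase y) v)⁻¹ o i * a i y)‖ₑ ^ σ *
        (‖t - β‖ₑ⁻¹) ^ σ := by
      intro t
      rw [← ENNReal.mul_rpow_of_nonneg _ _ hσ.le]
      exact ENNReal.rpow_le_rpow (hβ t).2 hσ.le
    have hmt : Measurable (fun t : ℂ => (‖t - β‖ₑ⁻¹) ^ σ) := by fun_prop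
    calc ∫⁻ t, ‖(B a z s (Function.update v y t))⁻¹ o y‖ₑ ^ σ ∂(μ y)
        ≤ ∫⁻ t, ‖(if y = o then (1 : ℂ) else
          ∑ i ∈ s.erase y, (B a z (s.erase y) v)⁻¹ o i * a i y)‖ₑ ^ σ *
        (‖t - β‖ₑ⁻¹) ^ σ ∂(μ y) := lintegral_mono e1
      _ = ‖(if y = o then (1 : ℂ) else
          ∑ i ∈ s.erase y, (B a z (s.erase y) v)⁻¹ o i * a i y)‖ₑ ^ σ *
          ∫⁻ t, (‖t - β‖ₑ⁻¹) ^ σ ∂(μ y) := lintegral_const_mul _ hmt
      _ ≤ ‖(if y = o then (1 : ℂ) else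
          ∑ i ∈ s.erase y, (B a z (s.erase y) v)⁻¹ o i * a i y)‖ₑ ^ σ * N :=
        mul_le_mul_right (h y β) _
      _ ≤ _ := by
        rw [mul_comm]
        apply mul_le_mul_right
        by_cases hyo : y = o
        · simp [hyo]
        · rw [if_neg hyo, if_neg hyo, zero_add, Finset.filter_true_of_mem (fun _ _ => hyo)]
          refine (enorm_sum_rpow_le _ _ hσ hσ1).trans (le_of_eq ?_)
          refine Finset.sum_congr rfl fun i _ => ?_
          rw [enorm_mul, ENNReal.mul_rpow_of_nonneg _ _ hσ.le]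
  refine (lintegral_mono_ae key).trans ?_
  have hm2 : ∀ i : ι, Measurable (fun v : ι → ℂ =>
      ‖(B a z (s.erase y) v)⁻¹ o i‖ₑ ^ σ * ‖a i y‖ₑ ^ σ) := fun i =>
    (hms (s.erase y) i).mul_const _
  have hm3 : Measurable (fun v : ι → ℂ => (if y = o then (1 : ℝ≥0∞) else 0) +
      ∑ i ∈ (s.erase y).filter (fun _ => y ≠ o),
        ‖(B a z (s.erase y) v)⁻¹ o i‖ₑ ^ σ * ‖a i y‖ₑ ^ σ) :=
    measurable_const.add (Finset.measurable_fun_sum _ fun i _ => hm2 i)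
  rw [lintegral_const_mul _ hm3, lintegral_add_left measurable_const, lintegral_const,
    measure_univ, mul_one, lintegral_finsetSum _ (fun i _ => hm2 i)]
  apply mul_le_mul_right
  apply add_le_add le_rfl
  refine Finset.sum_le_sum fun i _ => ?_
  rw [lintegral_mul_const _ (hms (s.erase y) i)]

/-- the recursive bounds -/
noncomputable def bb {ι : Type} [Fintype ι] [DecidableEq ι] (a : ι → ι → ℂ) (σ : ℝ) (N : ℝ≥0∞)
    (o : ι) (F : Finset ι) : ℕ → ℕ → ι → ℝ≥0∞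
  | 0, _, _ => 0
  | k + 1, j, y => if y ∈ F then (if j = 0 then 0 else
      N * ((if y = o then 1 else 0) +
        ∑ i ∈ Finset.univ.erase y, bb a σ N o F k (j - 1) i * ‖a i y‖ₑ ^ σ)) else
      N * ((if y = o then 1 else 0) +
        ∑ i ∈ Finset.univ.erase y, bb a σ N o F k j i * ‖a i y‖ₑ ^ σ)

/-- the bound for one entry -/
theorem bound (hA : St_A) {ι : Type} [Fintype ι] [DecidableEq ι] (μ : ι → Measure ℂ)
    [∀ i, IsProbabilityMeasure (μ i)] (a : ι → ι → ℂ) (z : ℂ) (o : ι) (F : Finset ι) (σ : ℝ)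
    (N : ℝ≥0∞) (hσ : 0 < σ) (hσ1 : σ ≤ 1)
    (hN : N ≠ ⊤) (h : ∀ i b, ∫⁻ t, (‖t - b‖ₑ⁻¹) ^ σ ∂(μ i) ≤ N) (k : ℕ) :
    ∀ (j : ℕ) (s : Finset ι), s.card ≤ k → (s ∩ F).card ≤ j → o ∈ s → ∀ y ∈ s,
      ∫⁻ v, ‖(B a z s v)⁻¹ o y‖ₑ ^ σ ∂(Measure.pi μ) ≤ bb a σ N o F k j y := by
  induction k with
  | zero =>
    intro j s hs _ ho
    rw [Nat.le_zero, Finset.card_eq_zero] at hs
    rw [hs] at ho
    exact absurd ho (Finset.notMem_empty o)
  | succ k ih =>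
    intro j s hs hj ho y hy
    refine (step hA μ a z o σ N hσ hσ1 hN h s ho y hy).trans ?_
    have hcard : (s.erase y).card ≤ k := by
      rw [Finset.card_erase_of_mem hy]; omega
    have gen : ∀ j' : ℕ, ((s.erase y) ∩ F).card ≤ j' →
        N * ((if y = o then 1 else 0) + ∑ i ∈ (s.erase y).filter (fun _ => y ≠ o),
          (∫⁻ v, ‖(B a z (s.erase y) v)⁻¹ o i‖ₑ ^ σ ∂(Measure.pi μ)) * ‖a i y‖ₑ ^ σ) ≤
        N * ((if y = o then 1 else 0) +
          ∑ i ∈ Finset.univ.erase y, bb a σ N o F k j' i * ‖a i y‖ₑ ^ σ) := by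
      intro j' hj'
      apply mul_le_mul_right
      apply add_le_add le_rfl
      calc ∑ i ∈ (s.erase y).filter (fun _ => y ≠ o),
            (∫⁻ v, ‖(B a z (s.erase y) v)⁻¹ o i‖ₑ ^ σ ∂(Measure.pi μ)) * ‖a i y‖ₑ ^ σ
          ≤ ∑ i ∈ (s.erase y).filter (fun _ => y ≠ o),
              bb a σ N o F k j' i * ‖a i y‖ₑ ^ σ := by
            refine Finset.sum_le_sum fun i hi => ?_
            rw [Finset.mem_filter] at hi
            apply mul_le_mul_left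
            exact ih j' (s.erase y) hcard hj' (Finset.mem_erase.2 ⟨Ne.symm hi.2, ho⟩) i hi.1
        _ ≤ ∑ i ∈ Finset.univ.erase y, bb a σ N o F k j' i * ‖a i y‖ₑ ^ σ := by
            apply Finset.sum_le_sum_of_subset
            intro i hi
            rw [Finset.mem_filter, Finset.mem_erase] at hi
            exact Finset.mem_erase.2 ⟨hi.1.1, Finset.mem_univ i⟩
    rw [bb]
    by_cases hyF : y ∈ F
    · have h1 : y ∈ s ∩ F := Finset.mem_inter.2 ⟨hy, hyF⟩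
      have h2 : 0 < (s ∩ F).card := Finset.card_pos.2 ⟨y, h1⟩
      rw [if_pos hyF, if_neg (show ¬ j = 0 by omega)]
      refine gen (j - 1) ?_
      rw [Finset.erase_inter, Finset.card_erase_of_mem h1]
      omega
    · rw [if_neg hyF]
      refine gen j ?_
      refine (Finset.card_le_card ?_).trans hj
      exact Finset.inter_subset_inter_right (Finset.erase_subset y s)

theorem sum_step {ι : Type} [Fintype ι] [DecidableEq ι] (a : ι → ι → ℂ) (σ : ℝ) (N : ℝ≥0∞)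
    (o : ι) (w : ι → ℝ≥0∞) (T : Finset ι) :
    ∑ y ∈ T, N * ((if y = o then 1 else 0) +
      ∑ i ∈ Finset.univ.erase y, w i * ‖a i y‖ₑ ^ σ) ≤
      N * (1 + ∑ i, w i * ∑ y ∈ Finset.univ.erase i, ‖a i y‖ₑ ^ σ) := by
  refine (Finset.sum_le_sum_of_subset (Finset.subset_univ T)).trans ?_
  rw [← Finset.mul_sum, Finset.sum_add_distrib]
  have h1 : ∑ y : ι, (if y = o then (1 : ℝ≥0∞) else 0) = 1 := by simp
  have h2 : ∑ y : ι, ∑ i ∈ Finset.univ.erase y, w i * ‖a i y‖ₑ ^ σ =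
      ∑ i : ι, w i * ∑ y ∈ Finset.univ.erase i, ‖a i y‖ₑ ^ σ := by
    simp only [Finset.mul_sum]
    apply Finset.sum_comm'
    intro x y
    simp [eq_comm]
  rw [h1, h2]

/-- bound for the exceptional sites -/
noncomputable def al (N κ₀ κ : ℝ≥0) : ℕ → ℝ≥0
  | 0 => 0
  | j + 1 => N * (1 + κ₀ * (al N κ₀ κ j + N * (1 + κ₀ * al N κ₀ κ j) / (1 - N * κ)))

/-- bound for the other sites -/
noncomputable def de (N κ₀ κ : ℝ≥0) (j : ℕ) : ℝ≥0 :=
  N * (1 + κ₀ * al N κ₀ κ j) / (1 - N * κ)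

theorem de_eq (N κ₀ κ : ℝ≥0) (j : ℕ) (h : N * κ < 1) :
    N * (1 + κ * de N κ₀ κ j + κ₀ * al N κ₀ κ j) = de N κ₀ κ j := by
  have h0 : (0 : ℝ≥0) < 1 - N * κ := tsub_pos_of_lt h
  have h1 : de N κ₀ κ j * (1 - N * κ) = N * (1 + κ₀ * al N κ₀ κ j) := by
    unfold de
    rw [div_mul_cancel₀ _ h0.ne']
  have h2 : de N κ₀ κ j * (1 - N * κ) + de N κ₀ κ j * (N * κ) = de N κ₀ κ j := by
    rw [← mul_add, tsub_add_cancel_of_le h.le, mul_one]
  rw [h1] at h2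
  calc N * (1 + κ * de N κ₀ κ j + κ₀ * al N κ₀ κ j)
      = N * (1 + κ₀ * al N κ₀ κ j) + de N κ₀ κ j * (N * κ) := by ring
    _ = de N κ₀ κ j := h2

theorem sum_bb {ι : Type} [Fintype ι] [DecidableEq ι] (a : ι → ι → ℂ) (σ : ℝ) (N κ₀ κ : ℝ≥0)
    (o : ι) (F : Finset ι) (hNκ : N * κ < 1)
    (h0 : ∀ u, ∑ y ∈ Finset.univ.erase u, ‖a u y‖ₑ ^ σ ≤ κ₀)
    (h1 : ∀ u, u ∉ F → ∑ y ∈ Finset.univ.erase u, ‖a u y‖ₑ ^ σ ≤ κ) (k : ℕ) :
    ∀ j : ℕ, ∑ y ∈ F, bb a σ N o F k j y ≤ al N κ₀ κ j ∧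
      ∑ y ∈ Fᶜ, bb a σ N o F k j y ≤ de N κ₀ κ j := by
  induction k with
  | zero => intro j; simp [bb]
  | succ k ih =>
    have hsplit : ∀ w : ι → ℝ≥0∞, ∑ i, w i = ∑ i ∈ F, w i + ∑ i ∈ Fᶜ, w i := fun w =>
      (Finset.sum_add_sum_compl F w).symm
    intro j
    constructor
    · cases j with
      | zero =>
        refine le_of_eq_of_le (Finset.sum_eq_zero fun y hy => ?_) (by simp)
        rw [bb, if_pos hy, if_pos rfl]
      | succ j =>
        have e1 : ∑ y ∈ F, bb a σ N o F (k + 1) (j + 1) y =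
            ∑ y ∈ F, (N : ℝ≥0∞) * ((if y = o then 1 else 0) +
              ∑ i ∈ Finset.univ.erase y, bb a σ N o F k j i * ‖a i y‖ₑ ^ σ) := by
          refine Finset.sum_congr rfl fun y hy => ?_
          rw [bb, if_pos hy, if_neg (Nat.succ_ne_zero j), Nat.add_sub_cancel]
        rw [e1]
        refine (sum_step a σ N o _ F).trans ?_
        have e2 : ∑ i, bb a σ N o F k j i * ∑ y ∈ Finset.univ.erase i, ‖a i y‖ₑ ^ σ ≤
            κ₀ * (al N κ₀ κ j + de N κ₀ κ j) := by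
          calc ∑ i, bb a σ N o F k j i * ∑ y ∈ Finset.univ.erase i, ‖a i y‖ₑ ^ σ
              ≤ ∑ i, bb a σ N o F k j i * κ₀ :=
                Finset.sum_le_sum fun i _ => mul_le_mul_right (h0 i) _
            _ = κ₀ * ∑ i, bb a σ N o F k j i := by rw [← Finset.sum_mul, mul_comm]
            _ ≤ κ₀ * (al N κ₀ κ j + de N κ₀ κ j) := by
                apply mul_le_mul_right
                rw [hsplit]
                exact add_le_add (ih j).1 (ih j).2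
        refine (mul_le_mul_right (add_le_add le_rfl e2) _).trans (le_of_eq ?_)
        rw [al]
        push_cast [de]
        rfl
    · have e1 : ∑ y ∈ Fᶜ, bb a σ N o F (k + 1) j y =
          ∑ y ∈ Fᶜ, (N : ℝ≥0∞) * ((if y = o then 1 else 0) +
            ∑ i ∈ Finset.univ.erase y, bb a σ N o F k j i * ‖a i y‖ₑ ^ σ) := by
        refine Finset.sum_congr rfl fun y hy => ?_
        rw [bb, if_neg (Finset.mem_compl.1 hy)]
      rw [e1]
      refine (sum_step a σ N o _ Fᶜ).trans ?_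
      have e2 : ∑ i, bb a σ N o F k j i * ∑ y ∈ Finset.univ.erase i, ‖a i y‖ₑ ^ σ ≤
          κ * de N κ₀ κ j + κ₀ * al N κ₀ κ j := by
        rw [hsplit, add_comm]
        apply add_le_add
        · calc ∑ i ∈ Fᶜ, bb a σ N o F k j i * ∑ y ∈ Finset.univ.erase i, ‖a i y‖ₑ ^ σ
              ≤ ∑ i ∈ Fᶜ, bb a σ N o F k j i * κ :=
                Finset.sum_le_sum fun i hi => mul_le_mul_right (h1 i (Finset.mem_compl.1 hi)) _
            _ = κ * ∑ i ∈ Fᶜ, bb a σ N o F k j i := by rw [← Finset.sum_mul, mul_comm]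
            _ ≤ κ * de N κ₀ κ j := mul_le_mul_right (ih j).2 _
        · calc ∑ i ∈ F, bb a σ N o F k j i * ∑ y ∈ Finset.univ.erase i, ‖a i y‖ₑ ^ σ
              ≤ ∑ i ∈ F, bb a σ N o F k j i * κ₀ :=
                Finset.sum_le_sum fun i _ => mul_le_mul_right (h0 i) _
            _ = κ₀ * ∑ i ∈ F, bb a σ N o F k j i := by rw [← Finset.sum_mul, mul_comm]
            _ ≤ κ₀ * al N κ₀ κ j := mul_le_mul_right (ih j).1 _
      refine (mul_le_mul_right (add_le_add le_rfl e2) _).trans (le_of_eq ?_)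
      have e3 := congrArg (fun x : ℝ≥0 => (x : ℝ≥0∞)) (de_eq N κ₀ κ j hNκ)
      refine Eq.trans ?_ e3
      push_cast
      ring

theorem main (hA : Pool.Agent.TH908.IS.St_A) : Pool.Agent.TH908.IS.St_B3 := by
  intro σ N κ₀ κ c hσ hσ1 hNκ
  refine ⟨al N κ₀ κ c + de N κ₀ κ c, ?_⟩
  intro ι _ _ μ _ a z o F hF h h0 h1
  refine le_trans (Finset.sum_le_sum fun y _ => bound hA μ a z o F σ N hσ hσ1
    ENNReal.coe_ne_top h (Finset.univ : Finset ι).card c Finset.univ le_rfl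
    (by rw [Finset.univ_inter]; exact hF) (Finset.mem_univ o) y (Finset.mem_univ y)) ?_
  rw [← Finset.sum_add_sum_compl F, ENNReal.coe_add]
  have h2 := sum_bb a σ N κ₀ κ o F hNκ h0 h1 (Finset.univ : Finset ι).card c
  exact add_le_add h2.1 h2.2

end Pool.Agent.TH908.IS.B3
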