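import Pool.Agent.TH908.IS.Stm

/-!
# IS-A: dependence of the inverse on one diagonal entry
-/

set_option autoImplicit false

open scoped ENNReal

namespace Pool.Agent.TH908.IS.A

open Pool.Agent.TH908.IS

theorem mulVec_ap {ι : Type} [Fintype ι] (M : Matrix ι ι ℂ) (w : ι → ℂ) (i : ι) :
    M.mulVec w i = ∑ j, M i j * w j := rfl

theorem vecMul_ap {ι : Type} [Fintype ι] (M : Matrix ι ι ℂ) (w : ι → ℂ) (j : ι) :
    Matrix.vecMul w M j = ∑ i, w i * M i j := rfl

theorem mulVec_sg {ι : Type} [Fintype ι] [DecidableEq ι] (M : Matrix ι ι ℂ) (y i : ι) :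
    M.mulVec (Pi.single y 1) i = M i y := by
  rw [mulVec_ap, Finset.sum_eq_single y]
  · rw [Pi.single_eq_same, mul_one]
  · intro j _ hj
    rw [Pi.single_eq_of_ne hj, mul_zero]
  · intro hh
    exact absurd (Finset.mem_univ _) hh

section

variable {ι : Type} [DecidableEq ι] (a : ι → ι → ℂ) (z : ℂ) (s : Finset ι)
  (y : ι) (v : ι → ℂ)

/-- the entries off row and column `y` do not change -/
theorem B_eq (t : ℂ) {i j : ι} (hi : i ≠ y) (hj : j ≠ y) :
    B a z s (Function.update v y t) i j = B a z (s.erase y) v i j := by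
  unfold B
  have e1 : (i ∈ s.erase y ∧ j ∈ s.erase y) ↔ (i ∈ s ∧ j ∈ s) := by
    simp [Finset.mem_erase, hi, hj]
  simp only [e1, Function.update_of_ne hi]

theorem B_row {i : ι} (hi : i ∉ s) (w : ι → ℂ) (j : ι) :
    B a z s w i j = if i = j then 1 else 0 := by
  unfold B
  rw [if_neg (fun h => hi h.1)]

theorem B_col {j : ι} (hj : j ∉ s) (w : ι → ℂ) (i : ι) :
    B a z s w i j = if i = j then 1 else 0 := by
  unfold B
  rw [if_neg (fun h => hj h.2)]

variable [Fintype ι]

/-- the right hand side -/
noncomputable def cc (i : ι) : ℂ := if i ∈ s.erase y then a i y else 0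

/-- the solution -/
noncomputable def pp : ι → ℂ := ((B a z (s.erase y) v)⁻¹).mulVec (cc a s y)

variable {a z s y v}

theorem B_mul_pp (h : IsUnit (B a z (s.erase y) v).det) :
    (B a z (s.erase y) v).mulVec (pp a z s y v) = cc a s y := by
  unfold pp
  rw [Matrix.mulVec_mulVec, Matrix.mul_nonsing_inv _ h, Matrix.one_mulVec]

theorem pp_zero (h : IsUnit (B a z (s.erase y) v).det) {i : ι} (hi : i ∉ s.erase y) :
    pp a z s y v i = 0 := by
  have h1 := congrFun (B_mul_pp h) i
  have h2 : (B a z (s.erase y) v).mulVec (pp a z s y v) i = pp a z s y v i := by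
    rw [mulVec_ap, Finset.sum_eq_single i]
    · rw [B_row a z _ hi v i, if_pos rfl, one_mul]
    · intro j _ hj
      rw [B_row a z _ hi v j, if_neg (Ne.symm hj), zero_mul]
    · intro hh
      exact absurd (Finset.mem_univ _) hh
  rw [h2] at h1
  rw [h1]
  unfold cc
  rw [if_neg hi]

/-- the main identity -/
theorem key (hy : y ∈ s) (h : IsUnit (B a z (s.erase y) v).det) (t : ℂ) :
    (B a z s (Function.update v y t)).mulVec (pp a z s y v + Pi.single y 1) =
      ((z - a y y - ∑ j, a y j * pp a z s y v j) - t) • (Pi.single y 1 : ι → ℂ) := by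
  have hpy : pp a z s y v y = 0 := pp_zero h (by simp)
  funext i
  rw [Matrix.mulVec_add, Pi.add_apply, mulVec_sg, Pi.smul_apply, smul_eq_mul]
  by_cases hiy : i = y
  · subst hiy
    have h1 : (B a z s (Function.update v i t)).mulVec (pp a z s i v) i =
        - ∑ j, a i j * pp a z s i v j := by
      rw [mulVec_ap, ← Finset.sum_neg_distrib]
      apply Finset.sum_congr rfl
      intro j _
      by_cases hj : j ∈ s.erase i
      · have hj' := Finset.mem_erase.mp hj
        have h2 : B a z s (Function.update v i t) i j = - a i j := by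
          unfold B
          rw [if_pos ⟨hy, hj'.2⟩, if_neg (Ne.symm hj'.1), zero_sub]
        rw [h2]
        ring
      · rw [pp_zero h hj]
        ring
    have h2 : (B a z s (Function.update v i t)) i i = z - t - a i i := by
      unfold B
      rw [if_pos ⟨hy, hy⟩, if_pos rfl, Function.update_self]
    rw [h1, h2, Pi.single_eq_same]
    ring
  · have h1 : (B a z s (Function.update v y t)).mulVec (pp a z s y v) i = cc a s y i := by
      rw [← B_mul_pp h, mulVec_ap, mulVec_ap]
      apply Finset.sum_congr rfl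
      intro j _
      by_cases hj : j = y
      · rw [hj, hpy]
        ring
      · rw [B_eq a z s y v t hiy hj]
    have h2 : (B a z s (Function.update v y t)) i y = - cc a s y i := by
      unfold cc
      by_cases his : i ∈ s
      · unfold B
        rw [if_pos ⟨his, hy⟩, if_neg hiy, if_pos (Finset.mem_erase.mpr ⟨hiy, his⟩), zero_sub]
      · rw [B_row a z s his, if_neg hiy, if_neg (fun hh => his (Finset.mem_erase.mp hh).2), neg_zero]
    rw [h1, h2, Pi.single_eq_of_ne hiy]
    ring

theorem isUnit_det (hy : y ∈ s) (h : IsUnit (B a z (s.erase y) v).det) (t : ℂ)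
    (ht : t ≠ z - a y y - ∑ j, a y j * pp a z s y v j) :
    IsUnit (B a z s (Function.update v y t)).det := by
  rw [isUnit_iff_ne_zero]
  intro hdet
  obtain ⟨r, hr0, hr⟩ := Matrix.exists_vecMul_eq_zero_iff.mpr hdet
  have h1 : r ⬝ᵥ (B a z s (Function.update v y t)).mulVec (pp a z s y v + Pi.single y 1) = 0 := by
    rw [Matrix.dotProduct_mulVec, hr, zero_dotProduct]
  rw [key hy h t, dotProduct_smul, dotProduct_single_one, smul_eq_mul] at h1
  have hry : r y = 0 := by
    rcases mul_eq_zero.mp h1 with h2 | h2
    · exact absurd (sub_eq_zero.mp h2).symm ht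
    · exact h2
  have h3 : Matrix.vecMul r (B a z (s.erase y) v) = 0 := by
    funext j
    rw [vecMul_ap, Pi.zero_apply]
    by_cases hj : j = y
    · subst hj
      rw [Finset.sum_eq_single j]
      · rw [hry, zero_mul]
      · intro i _ hi
        rw [B_col a z _ (by simp) v i, if_neg hi, mul_zero]
      · intro hh
        exact absurd (Finset.mem_univ _) hh
    · have h4 : ∑ i, r i * B a z s (Function.update v y t) i j = 0 := congrFun hr j
      rw [← h4]
      apply Finset.sum_congr rfl
      intro i _
      by_cases hi : i = y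
      · rw [hi, hry]
        ring
      · rw [B_eq a z s y v t hi hj]
  exact hr0 (by
    have h5 : (B a z (s.erase y) v).det = 0 := Matrix.exists_vecMul_eq_zero_iff.mp ⟨r, hr0, h3⟩
    exact absurd h5 h.ne_zero)

end

theorem main : Pool.Agent.TH908.IS.St_A := by
  intro ι _ _ a z s o y v ho hy h
  refine ⟨z - a y y - ∑ j, a y j * pp a z s y v j, fun t => ⟨isUnit_det hy h t, ?_⟩⟩
  set β := z - a y y - ∑ j, a y j * pp a z s y v j with hβ
  have hpy : pp a z s y v y = 0 := pp_zero h (by simp)
  by_cases hu : IsUnit (B a z s (Function.update v y t)).det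
  · have h1 := key hy h t
    rw [← hβ] at h1
    have h2 : pp a z s y v + Pi.single y 1 =
        (β - t) • ((B a z s (Function.update v y t))⁻¹).mulVec (Pi.single y 1 : ι → ℂ) := by
      rw [← Matrix.mulVec_smul, ← h1, Matrix.mulVec_mulVec, Matrix.nonsing_inv_mul _ hu,
        Matrix.one_mulVec]
    have h3 := congrFun h2 o
    rw [Pi.smul_apply, mulVec_sg, Pi.add_apply, smul_eq_mul] at h3
    have h4 : (if y = o then (1 : ℂ) else ∑ i ∈ s.erase y, (B a z (s.erase y) v)⁻¹ o i * a i y) =
        (β - t) * (B a z s (Function.update v y t))⁻¹ o y := by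
      rw [← h3]
      by_cases hyo : y = o
      · subst hyo
        rw [if_pos rfl, hpy, Pi.single_eq_same, zero_add]
      · rw [if_neg hyo, Pi.single_eq_of_ne (Ne.symm hyo), add_zero]
        unfold pp
        rw [mulVec_ap, ← Finset.sum_subset (Finset.subset_univ (s.erase y))]
        · apply Finset.sum_congr rfl
          intro i hi
          unfold cc
          rw [if_pos hi]
        · intro i _ hi
          unfold cc
          rw [if_neg hi, mul_zero]
    have hne : t ≠ β := by
      intro hh
      rw [hh, sub_self, zero_smul] at h2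
      have h5 := congrFun h2 y
      rw [Pi.add_apply, hpy, Pi.single_eq_same, zero_add, Pi.zero_apply] at h5
      exact one_ne_zero h5
    have hne' : ‖t - β‖ₑ ≠ 0 := by
      rw [ne_eq, enorm_eq_zero]
      exact sub_ne_zero.mpr hne
    rw [h4, enorm_mul]
    have h6 : ‖β - t‖ₑ = ‖t - β‖ₑ := by
      rw [← enorm_neg, neg_sub]
    rw [h6, mul_right_comm, ENNReal.mul_inv_cancel hne' enorm_ne_top, one_mul]
  · rw [Matrix.nonsing_inv_apply_not_isUnit _ hu, Matrix.zero_apply, enorm_zero]
    exact bot_le

end Pool.Agent.TH908.IS.A
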