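import Pool.Agent.TH908.IS.Stm

/-! Vectors and functionals given by absolutely summable sequences, for a bounded biorthogonal
system. -/

set_option autoImplicit false

open MeasureTheory Metric Set Filter Topology
open scoped ENNReal

namespace Pool.Agent.TH908.IS.Bi

variable {X : Type} [NormedAddCommGroup X] [NormedSpace ℂ X] [CompleteSpace X]

/-- a total bounded biorthogonal system; the vectors and the functionals are divided by their
bound, so that `ε x (e y) = c` if `x = y` -/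
structure Sys (X : Type) [NormedAddCommGroup X] [NormedSpace ℂ X] where
  e : ℕ → X
  ε : ℕ → (X →L[ℂ] ℂ)
  c : ℂ
  hc : c ≠ 0
  bi : ∀ x y, ε x (e y) = if x = y then c else 0
  he : ∀ x, ‖e x‖ ≤ 1
  hε : ∀ x, ‖ε x‖ ≤ 1
  tot : ∀ f : X, (∀ x, ε x f = 0) → f = 0

variable (S : Sys X)

theorem summ_e {u : ℕ → ℂ} (hu : Summable fun x => ‖u x‖) : Summable fun x => u x • S.e x := by
  apply Summable.of_norm_bounded hu
  intro x
  rw [norm_smul]
  calc ‖u x‖ * ‖S.e x‖ ≤ ‖u x‖ * 1 := by gcongr; exact S.he x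
    _ = ‖u x‖ := mul_one _

theorem summ_ε {u : ℕ → ℂ} (hu : Summable fun x => ‖u x‖) : Summable fun x => u x • S.ε x := by
  apply Summable.of_norm_bounded hu
  intro x
  rw [norm_smul]
  calc ‖u x‖ * ‖S.ε x‖ ≤ ‖u x‖ * 1 := by gcongr; exact S.hε x
    _ = ‖u x‖ := mul_one _

theorem vec_apply {u : ℕ → ℂ} (hu : Summable fun x => ‖u x‖) (x : ℕ) :
    S.ε x (∑' j, u j • S.e j) = u x * S.c := by
  rw [(S.ε x).map_tsum (summ_e S hu), tsum_eq_single x]
  · rw [map_smul, S.bi]; simp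
  · intro j hj
    rw [map_smul, S.bi, if_neg hj.symm]; simp

theorem fun_apply {u : ℕ → ℂ} (hu : Summable fun x => ‖u x‖) (h : X) :
    (∑' j, u j • S.ε j) h = ∑' j, u j * S.ε j h := by
  have := (ContinuousLinearMap.apply ℂ ℂ h).map_tsum (summ_ε S hu)
  rw [ContinuousLinearMap.apply_apply] at this
  rw [this]
  rfl

/-- the vector equation -/
theorem vec_eq (T : X →L[ℂ] X) (m : ℕ → ℕ → ℂ) (hT : ∀ f x, S.ε x (T f) = ∑' y, m x y * S.ε y f)
    (z : ℂ) {u : ℕ → ℂ} (hu : Summable fun x => ‖u x‖)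
    (he : ∀ x, z * u x - ∑' j, u j * m x j = if x = 0 then 1 else 0) :
    z • (∑' j, u j • S.e j) - T (∑' j, u j • S.e j) = S.e 0 := by
  rw [← sub_eq_zero]
  apply S.tot
  intro x
  rw [map_sub, map_sub, map_smul, vec_apply S hu, hT, S.bi, smul_eq_mul]
  have h1 : ∑' y, m x y * S.ε y (∑' j, u j • S.e j) = (∑' j, u j * m x j) * S.c := by
    rw [← tsum_mul_right]
    apply tsum_congr
    intro y
    rw [vec_apply S hu]
    ring
  rw [h1]
  have h2 : (if x = 0 then S.c else 0) = (if x = 0 then (1 : ℂ) else 0) * S.c := by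
    split_ifs <;> simp
  rw [h2, ← he x]
  ring

/-- the equation for functionals -/
theorem fun_eq (T : X →L[ℂ] X) (m : ℕ → ℕ → ℂ) (hT : ∀ f x, S.ε x (T f) = ∑' y, m x y * S.ε y f)
    (C : ℝ) (hm : ∀ x, Summable fun y => ‖m x y‖) (hC : ∀ x, ∑' y, ‖m x y‖ ≤ C)
    (z : ℂ) {u : ℕ → ℂ} (hu : Summable fun x => ‖u x‖)
    (he : ∀ x, z * u x - ∑' j, u j * m j x = if x = 0 then 1 else 0) :
    z • (∑' j, u j • S.ε j) - (∑' j, u j • S.ε j).comp T = S.ε 0 := by
  ext h
  rw [ContinuousLinearMap.sub_apply, ContinuousLinearMap.smul_apply,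
    ContinuousLinearMap.comp_apply, fun_apply S hu, fun_apply S hu, smul_eq_mul]
  have hh : ∀ y, ‖S.ε y h‖ ≤ ‖h‖ := fun y => by
    calc ‖S.ε y h‖ ≤ ‖S.ε y‖ * ‖h‖ := (S.ε y).le_opNorm h
      _ ≤ 1 * ‖h‖ := by gcongr; exact S.hε y
      _ = ‖h‖ := one_mul _
  have hs : Summable (fun q : ℕ × ℕ => u q.1 * (m q.1 q.2 * S.ε q.2 h)) := by
    apply Summable.of_norm
    rw [summable_prod_of_nonneg (fun _ => norm_nonneg _)]
    have h1 : ∀ x, Summable (fun y => ‖u x * (m x y * S.ε y h)‖) := by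
      intro x
      refine Summable.of_nonneg_of_le (fun _ => norm_nonneg _) (fun y => ?_)
        ((hm x).mul_left (‖u x‖ * ‖h‖))
      rw [norm_mul, norm_mul]
      calc ‖u x‖ * (‖m x y‖ * ‖S.ε y h‖) ≤ ‖u x‖ * (‖m x y‖ * ‖h‖) := by gcongr; exact hh y
        _ = ‖u x‖ * ‖h‖ * ‖m x y‖ := by ring
    refine ⟨h1, ?_⟩
    refine Summable.of_nonneg_of_le (fun _ => tsum_nonneg (fun _ => norm_nonneg _)) (fun x => ?_)
      (hu.mul_left (‖h‖ * C))
    calc ∑' y, ‖u x * (m x y * S.ε y h)‖ ≤ ∑' y, (‖u x‖ * ‖h‖) * ‖m x y‖ := by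
          refine Summable.tsum_le_tsum (fun y => ?_) (h1 x) ((hm x).mul_left _)
          rw [norm_mul, norm_mul]
          calc ‖u x‖ * (‖m x y‖ * ‖S.ε y h‖) ≤ ‖u x‖ * (‖m x y‖ * ‖h‖) := by gcongr; exact hh y
            _ = ‖u x‖ * ‖h‖ * ‖m x y‖ := by ring
      _ = (‖u x‖ * ‖h‖) * ∑' y, ‖m x y‖ := tsum_mul_left
      _ ≤ (‖u x‖ * ‖h‖) * C := by gcongr; exact hC x
      _ = ‖h‖ * C * ‖u x‖ := by ring
  have e1 : ∑' x, u x * S.ε x (T h) = ∑' y, (∑' x, u x * m x y) * S.ε y h := by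
    calc ∑' x, u x * S.ε x (T h) = ∑' x, ∑' y, u x * (m x y * S.ε y h) := by
          apply tsum_congr
          intro x
          rw [hT, tsum_mul_left]
      _ = ∑' y, ∑' x, u x * (m x y * S.ε y h) := by
          exact (Summable.tsum_comm (f := fun x y => u x * (m x y * S.ε y h)) hs).symm
      _ = ∑' y, (∑' x, u x * m x y) * S.ε y h := by
          apply tsum_congr
          intro y
          rw [← tsum_mul_right]
          apply tsum_congr
          intro x
          ring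
  have hs2 : Summable (fun y => (∑' x, u x * m x y) * S.ε y h) := by
    have h3 := hs.prod_symm.prod
    refine h3.congr (fun y => ?_)
    rw [← tsum_mul_right]
    apply tsum_congr
    intro x
    simp only [Prod.swap_prod_mk]
    ring
  have hs3 : Summable (fun y => u y * S.ε y h) := by
    apply Summable.of_norm
    refine Summable.of_nonneg_of_le (fun _ => norm_nonneg _) (fun y => ?_) (hu.mul_left ‖h‖)
    rw [norm_mul]
    calc ‖u y‖ * ‖S.ε y h‖ ≤ ‖u y‖ * ‖h‖ := by gcongr; exact hh y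
      _ = ‖h‖ * ‖u y‖ := mul_comm _ _
  rw [e1, ← tsum_mul_left, ← (hs3.mul_left z).tsum_sub hs2, tsum_eq_single 0]
  · rw [← mul_assoc, ← sub_mul, he 0]; simp
  · intro y hy
    rw [← mul_assoc, ← sub_mul, he y, if_neg hy, zero_mul]

end Pool.Agent.TH908.IS.Bi
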