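import Pool.Agent.TH908.IS.Stm3
import Pool.Agent.TH148.IS.C

/-! Almost sure bound, with finitely many exceptional rows. -/

set_option autoImplicit false

open MeasureTheory Metric Set Filter Topology
open scoped ENNReal NNReal

namespace Pool.Agent.TH908.IS

/-- almost surely the lower limit is integrable on every disc, exceptional rows allowed -/
def St_C3 : Prop :=
  ∀ (Ω : Type) [MeasurableSpace Ω] (P : Measure Ω) [IsProbabilityMeasure P] (V : ℕ → Ω → ℂ)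
    (a : ℕ → ℕ → ℂ) (σ : ℝ) (N κ : ℝ≥0) (F : Finset ℕ), (∀ x, Measurable (V x)) →
    ProbabilityTheory.iIndepFun V P → 0 < σ → σ ≤ 1 →
    (∀ x b, ∫⁻ ω, (‖V x ω - b‖ₑ⁻¹) ^ σ ∂P ≤ N) →
    (∀ u, ∑' y, (if y = u then 0 else ‖a u y‖ₑ ^ σ) ≠ ⊤) →
    (∀ u, u ∉ F → ∑' y, (if y = u then 0 else ‖a u y‖ₑ ^ σ) ≤ κ) → N * κ < 1 →
    ∀ᵐ ω ∂P, ∀ R : ℕ,
      ∫⁻ z in ball (0 : ℂ) R,
        liminf (fun n => ∑' x, ‖rr a n z (fun x => V x ω) x‖ₑ ^ σ) atTop ≠ ⊤

namespace C3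

attribute [local irreducible] rr

open C2

theorem rowsum (a : ℕ → ℕ → ℂ) (σ : ℝ) (n : ℕ) (u : Fin (n + 1)) :
    ∑ y ∈ Finset.univ.erase u, ‖a u y‖ₑ ^ σ ≤
      ∑' y, (if y = (u : ℕ) then 0 else ‖a u y‖ₑ ^ σ) := by
  calc ∑ y ∈ Finset.univ.erase u, ‖a u y‖ₑ ^ σ
      = ∑ y ∈ Finset.univ.erase u, (if (y : ℕ) = u then 0 else ‖a u y‖ₑ ^ σ) := by
        refine Finset.sum_congr rfl fun y hy => ?_
        rw [if_neg]
        intro h
        exact (Finset.ne_of_mem_erase hy) (Fin.ext h)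
    _ ≤ ∑ y : Fin (n + 1), (if (y : ℕ) = u then 0 else ‖a u y‖ₑ ^ σ) :=
        Finset.sum_le_sum_of_subset (Finset.erase_subset _ _)
    _ = ∑ y ∈ Finset.range (n + 1), (if y = (u : ℕ) then 0 else ‖a u y‖ₑ ^ σ) := by
        rw [Finset.sum_range]
    _ ≤ _ := ENNReal.sum_le_tsum _

theorem fix3 (hM : St_M) {Ω : Type} [MeasurableSpace Ω] (P : Measure Ω)
    [IsProbabilityMeasure P] (V : ℕ → Ω → ℂ)
    (a : ℕ → ℕ → ℂ) (σ : ℝ) (M : ℝ≥0∞) (hV : ∀ x, Measurable (V x))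
    (hind : ProbabilityTheory.iIndepFun V P) (hσ : 0 < σ) (n : ℕ) (z : ℂ)
    (hB : ∑ y, ∫⁻ v, ‖(B (fun i j : Fin (n + 1) => a i j) z Finset.univ v)⁻¹ 0 y‖ₑ ^ σ
      ∂(Measure.pi (fun i : Fin (n + 1) => P.map (V i))) ≤ M) :
    ∫⁻ ω, ∑' x, ‖rr a n z (fun x => V x ω) x‖ₑ ^ σ ∂P ≤ M := by
  have h1 : ∀ ω, ∑' x, ‖rr a n z (fun x => V x ω) x‖ₑ ^ σ =
      ∑ i : Fin (n + 1), ‖rr a n z (fun x => V x ω) i‖ₑ ^ σ := fun ω => tsum_rr a n z _ hσ
  rw [lintegral_congr h1, lintegral_finsetSum]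
  swap
  · intro i _
    exact (meas_F hM V hV a σ n i).comp (measurable_const.prodMk measurable_id)
  have h3 : ∀ i : Fin (n + 1), ∫⁻ ω, ‖rr a n z (fun x => V x ω) i‖ₑ ^ σ ∂P =
      ∫⁻ v, ‖(B (fun i j : Fin (n + 1) => a i j) z Finset.univ v)⁻¹ 0 i‖ₑ ^ σ
        ∂(Measure.pi (fun i : Fin (n + 1) => P.map (V i))) := by
    intro i
    rw [← pi_law P V hV hind n,
      lintegral_map (meas_inv hM a σ n z i) (measurable_pi_lambda _ fun i => hV i)]
    refine lintegral_congr fun ω => ?_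
    rw [rr_fin]
  rw [Finset.sum_congr rfl fun i _ => h3 i]
  exact hB

theorem main (hB : St_B3) (hM : St_M) : St_C3 := by
  intro Ω _ P _ V a σ N κ F hV hind hσ hσ1 hNb hfin hrow hNκ
  obtain ⟨κ₀, hκ₀⟩ : ∃ κ₀ : ℝ≥0, ∀ u, ∑' y, (if y = u then 0 else ‖a u y‖ₑ ^ σ) ≤ (κ₀ : ℝ≥0∞) := by
    refine ⟨κ + ∑ u ∈ F, (∑' y, (if y = u then 0 else ‖a u y‖ₑ ^ σ)).toNNReal, ?_⟩
    intro u
    by_cases hu : u ∈ F
    · have h1 : (∑' y, (if y = u then 0 else ‖a u y‖ₑ ^ σ)).toNNReal ≤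
          ∑ u ∈ F, (∑' y, (if y = u then 0 else ‖a u y‖ₑ ^ σ)).toNNReal :=
        Finset.single_le_sum
          (f := fun u => (∑' y, (if y = u then 0 else ‖a u y‖ₑ ^ σ)).toNNReal)
          (fun _ _ => bot_le) hu
      rw [← ENNReal.coe_toNNReal (hfin u)]
      exact_mod_cast h1.trans (le_add_of_nonneg_left bot_le)
    · refine (hrow u hu).trans ?_
      exact_mod_cast le_add_of_nonneg_right bot_le
  obtain ⟨M, hMB⟩ := hB σ N κ₀ κ F.card hσ hσ1 hNκ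
  refine fubini P (fun n p => ∑' x, ‖rr a n p.1 (fun x => V x p.2) x‖ₑ ^ σ) ?_ M
    ENNReal.coe_ne_top ?_
  · intro n
    exact Measurable.ennreal_tsum (fun x => meas_F hM V hV a σ n x)
  · intro n z
    apply fix3 hM P V a σ M hV hind hσ n z
    have hpr : ∀ i : Fin (n + 1), IsProbabilityMeasure (P.map (V i)) := fun i =>
      Measure.isProbabilityMeasure_map (hV i).aemeasurable
    apply hMB (Fin (n + 1)) (fun i => P.map (V i)) (fun i j => a i j) z 0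
      (Finset.univ.filter (fun i : Fin (n + 1) => (i : ℕ) ∈ F))
    · have h1 : ((Finset.univ.filter (fun i : Fin (n + 1) => (i : ℕ) ∈ F)).image
          (fun i : Fin (n + 1) => (i : ℕ))) ⊆ F := by
        intro x hx
        simp only [Finset.mem_image, Finset.mem_filter, Finset.mem_univ, true_and] at hx
        obtain ⟨i, hi, rfl⟩ := hx
        exact hi
      rw [← Finset.card_image_of_injective _ (Fin.val_injective)]
      exact Finset.card_le_card h1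
    · intro i b
      rw [lintegral_map (by fun_prop) (hV i)]
      exact hNb i b
    · intro u
      exact (rowsum a σ n u).trans (hκ₀ u)
    · intro u hu
      refine (rowsum a σ n u).trans (hrow u ?_)
      intro h
      exact hu (by simp [h])

end C3

end Pool.Agent.TH908.IS
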