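import Pool.Agent.TH908.IS.Stm

/-!
# Project IS, piece D: passage to the infinite volume
-/

set_option autoImplicit false

open MeasureTheory Metric Set Filter Topology
open scoped ENNReal

namespace Pool.Agent.TH908.IS.D

open Pool.Agent.TH908.IS

/-- subadditivity of the power on finite sums -/
lemma rpow_sum {α : Type} (σ : ℝ) (h0 : 0 < σ) (h1 : σ ≤ 1) (s : Finset α) (f : α → ℝ≥0∞) :
    (∑ i ∈ s, f i) ^ σ ≤ ∑ i ∈ s, f i ^ σ := by
  classical
  induction s using Finset.induction_on with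
  | empty => simp [h0]
  | insert a s ha ih =>
    rw [Finset.sum_insert ha, Finset.sum_insert ha]
    exact (ENNReal.rpow_add_le_add_rpow _ _ h0.le h1).trans (by gcongr)

/-- bound for the sum -/
lemma tsum_le (σ : ℝ) (h0 : 0 < σ) (h1 : σ ≤ 1) (f : ℕ → ℝ≥0∞) (C : ℝ≥0∞)
    (h : ∑' x, f x ^ σ ≤ C) : ∑' x, f x ≤ C ^ σ⁻¹ := by
  rw [ENNReal.tsum_eq_iSup_sum]
  refine iSup_le fun s => ?_
  rw [ENNReal.le_rpow_inv_iff h0]
  exact (rpow_sum σ h0 h1 s f).trans ((ENNReal.sum_le_tsum s).trans h)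

/-- the tail of a pairing -/
lemma tail (u w : ℕ → ℂ) (d ε : ℝ) (K : ℕ) (hu : Summable fun x => ‖u x‖)
    (hd : ∑' x, ‖u x‖ ≤ d) (hε : 0 ≤ ε) (hw : ∀ j, K ≤ j → ‖w j‖ ≤ ε) :
    ‖∑' j, u j * w j - ∑ j ∈ Finset.range K, u j * w j‖ ≤ ε * d := by
  have h1 : Summable fun j => ‖u (j + K)‖ * ε := ((summable_nat_add_iff K).2 hu).mul_right ε
  have h2 : ∀ j, ‖u (j + K) * w (j + K)‖ ≤ ‖u (j + K)‖ * ε := fun j => by
    rw [norm_mul]
    exact mul_le_mul_of_nonneg_left (hw _ (by omega)) (norm_nonneg _)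
  have h3 : Summable fun j => u (j + K) * w (j + K) := Summable.of_norm_bounded h1 h2
  have h4 : Summable fun j => u j * w j := (summable_nat_add_iff K).1 h3
  rw [← h4.sum_add_tsum_nat_add K, add_sub_cancel_left]
  refine (tsum_of_norm_bounded h1.hasSum h2).trans ?_
  rw [tsum_mul_right, mul_comm]
  refine mul_le_mul_of_nonneg_left (le_trans ?_ hd) hε
  rw [← hu.sum_add_tsum_nat_add K]
  have : 0 ≤ ∑ i ∈ Finset.range K, ‖u i‖ := Finset.sum_nonneg fun _ _ => norm_nonneg _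
  linarith

section det

variable (m : ℕ → ℕ → ℂ) (z : ℂ) (r : ℕ → ℕ → ℂ) (D : ℝ≥0∞) (S : Set ℕ)

/-- the limit along an ultrafilter -/
lemma ultra (hD : D ≠ ⊤) (hb : ∀ n ∈ S, ∑' x, ‖r n x‖ₑ ≤ D)
    (hm : ∀ x, Tendsto (fun j => m j x) atTop (𝓝 0))
    (heq : ∀ n x : ℕ, x ≤ n →
      z * r n x - ∑ j ∈ Finset.range (n + 1), r n j * m j x = if x = 0 then 1 else 0)
    (hz : ∀ n x, n < x → r n x = 0) (U : Ultrafilter ℕ) (hU : (U : Filter ℕ) ≤ atTop ⊓ 𝓟 S) :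
    ∃ q : ℕ → ℂ, (∀ x, Tendsto (fun n => r n x) U (𝓝 (q x))) ∧ ∑' x, ‖q x‖ₑ ≤ D ∧
      ∀ x, z * q x - ∑' j, q j * m j x = if x = 0 then 1 else 0 := by
  have hUS : ∀ᶠ n in (U : Filter ℕ), n ∈ S := hU (mem_inf_of_right (mem_principal_self S))
  have hUT : ∀ N : ℕ, ∀ᶠ n in (U : Filter ℕ), N ≤ n := fun N =>
    (hU.trans inf_le_left) (eventually_ge_atTop N)
  have hsum : ∀ n ∈ S, Summable (fun x => ‖r n x‖) ∧ ∑' x, ‖r n x‖ ≤ D.toReal := by
    intro n hn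
    have h1 : ∑' x, ‖r n x‖ₑ ≠ ⊤ := ne_top_of_le_ne_top hD (hb n hn)
    have h2 := tsum_enorm_ne_top_iff_summable_norm.1 h1
    refine ⟨h2, ?_⟩
    have h3 : ∑' x, ‖r n x‖ₑ = ENNReal.ofReal (∑' x, ‖r n x‖) := by
      rw [ENNReal.ofReal_tsum_of_nonneg (fun _ => norm_nonneg _) h2]
      simp
    have h4 := hb n hn
    rw [h3] at h4
    exact (ENNReal.ofReal_le_iff_le_toReal hD).1 h4
  have hlim : ∀ x, ∃ l : ℂ, Tendsto (fun n => r n x) U (𝓝 l) := by
    intro x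
    have h1 : (U.map (fun n => r n x) : Filter ℂ) ≤ 𝓟 (closedBall (0 : ℂ) D.toReal) := by
      rw [le_principal_iff, Ultrafilter.mem_coe, Ultrafilter.mem_map]
      filter_upwards [hUS] with n hn
      rw [mem_preimage, mem_closedBall, dist_zero_right]
      exact ((hsum n hn).1.le_tsum x fun _ _ => norm_nonneg _).trans (hsum n hn).2
    obtain ⟨l, -, hl⟩ := (isCompact_closedBall (0 : ℂ) D.toReal).ultrafilter_le_nhds _ h1
    exact ⟨l, hl⟩
  choose q hq using hlim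
  have hqD : ∑' x, ‖q x‖ₑ ≤ D := by
    rw [ENNReal.tsum_eq_iSup_sum]
    refine iSup_le fun s => ?_
    have h1 : Tendsto (fun n => ∑ x ∈ s, ‖r n x‖ₑ) U (𝓝 (∑ x ∈ s, ‖q x‖ₑ)) :=
      tendsto_finsetSum _ fun x _ => (hq x).enorm
    refine le_of_tendsto h1 ?_
    filter_upwards [hUS] with n hn
    exact (ENNReal.sum_le_tsum s).trans (hb n hn)
  have hqs : Summable (fun x => ‖q x‖) :=
    tsum_enorm_ne_top_iff_summable_norm.1 (ne_top_of_le_ne_top hD hqD)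
  have hqd : ∑' x, ‖q x‖ ≤ D.toReal := by
    have h3 : ∑' x, ‖q x‖ₑ = ENNReal.ofReal (∑' x, ‖q x‖) := by
      rw [ENNReal.ofReal_tsum_of_nonneg (fun _ => norm_nonneg _) hqs]
      simp
    rw [h3] at hqD
    exact (ENNReal.ofReal_le_iff_le_toReal hD).1 hqD
  refine ⟨q, hq, hqD, fun x => ?_⟩
  set δ : ℂ := if x = 0 then 1 else 0 with hδ
  have hd0 : 0 ≤ D.toReal := ENNReal.toReal_nonneg
  have key : ∀ ε : ℝ, 0 < ε → ‖(z * q x - ∑' j, q j * m j x) - δ‖ ≤ 2 * (ε * D.toReal) := by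
    intro ε hε
    obtain ⟨K, hK⟩ : ∃ K : ℕ, ∀ j, K ≤ j → ‖m j x‖ ≤ ε := by
      have h1 := (hm x).norm
      rw [norm_zero] at h1
      have h2 := h1.eventually (ge_mem_nhds hε)
      rw [eventually_atTop] at h2
      exact h2
    have h1 : Tendsto (fun n => z * r n x - ∑ j ∈ Finset.range K, r n j * m j x - δ) U
        (𝓝 (z * q x - ∑ j ∈ Finset.range K, q j * m j x - δ)) :=
      (((hq x).const_mul z).sub (tendsto_finsetSum _ fun j _ => (hq j).mul_const _)).sub_const δ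
    have h2 : ‖z * q x - ∑ j ∈ Finset.range K, q j * m j x - δ‖ ≤ ε * D.toReal := by
      refine le_of_tendsto h1.norm ?_
      filter_upwards [hUS, hUT x] with n hn hnx
      have h3 := heq n x hnx
      have h4 : ∑' j, r n j * m j x = ∑ j ∈ Finset.range (n + 1), r n j * m j x := by
        refine tsum_eq_sum fun j hj => ?_
        rw [Finset.mem_range, not_lt] at hj
        rw [hz n j (by omega), zero_mul]
      rw [← hδ, ← h4] at h3
      have h5 := tail (r n) (fun j => m j x) D.toReal ε K (hsum n hn).1 (hsum n hn).2 hε.le hK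
      have h6 : z * r n x - ∑ j ∈ Finset.range K, r n j * m j x - δ =
          ∑' j, r n j * m j x - ∑ j ∈ Finset.range K, r n j * m j x := by
        rw [← h3]
        ring
      rw [h6]
      exact h5
    have h3 := tail q (fun j => m j x) D.toReal ε K hqs hqd hε.le hK
    have h4 : (z * q x - ∑' j, q j * m j x) - δ =
        (z * q x - ∑ j ∈ Finset.range K, q j * m j x - δ) -
          (∑' j, q j * m j x - ∑ j ∈ Finset.range K, q j * m j x) := by ring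
    rw [h4]
    refine (norm_sub_le _ _).trans ?_
    linarith
  have h0 : ‖(z * q x - ∑' j, q j * m j x) - δ‖ ≤ 0 := by
    refine le_of_forall_pos_le_add fun ε hε => ?_
    have h1 := key (ε / (2 * (D.toReal + 1))) (by positivity)
    refine h1.trans ?_
    rw [zero_add]
    have h2 : 2 * (ε / (2 * (D.toReal + 1)) * D.toReal) = ε * (D.toReal / (D.toReal + 1)) := by
      field_simp
    rw [h2]
    have h3 : D.toReal / (D.toReal + 1) ≤ 1 := by
      rw [div_le_one (by linarith)]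
      linarith
    calc ε * (D.toReal / (D.toReal + 1)) ≤ ε * 1 := mul_le_mul_of_nonneg_left h3 hε.le
      _ = ε := mul_one ε
  exact sub_eq_zero.1 (norm_le_zero_iff.1 h0)

/-- the limit along `S` -/
lemma det (hD : D ≠ ⊤) (hS : ∃ᶠ n in atTop, n ∈ S) (hb : ∀ n ∈ S, ∑' x, ‖r n x‖ₑ ≤ D)
    (hm : ∀ x, Tendsto (fun j => m j x) atTop (𝓝 0))
    (heq : ∀ n x : ℕ, x ≤ n →
      z * r n x - ∑ j ∈ Finset.range (n + 1), r n j * m j x = if x = 0 then 1 else 0)
    (hz : ∀ n x, n < x → r n x = 0)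
    (huniq : ∀ (u w : ℕ → ℂ), Summable (fun x => ‖u x‖) → Summable (fun x => ‖w x‖) →
      (∀ x, z * u x - ∑' j, u j * m j x = if x = 0 then 1 else 0) →
      (∀ x, z * w x - ∑' j, w j * m j x = if x = 0 then 1 else 0) → u = w) :
    ∃ q : ℕ → ℂ, (∀ x, Tendsto (fun n => r n x) (atTop ⊓ 𝓟 S) (𝓝 (q x))) ∧
      ∑' x, ‖q x‖ₑ ≤ D ∧
      ∀ x, z * q x - ∑' j, q j * m j x = if x = 0 then 1 else 0 := by
  haveI : NeBot (atTop ⊓ 𝓟 S : Filter ℕ) := by
    rw [← frequently_mem_iff_neBot]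
    exact hS
  obtain ⟨q, h1, h2, h3⟩ := ultra m z r D S hD hb hm heq hz (Ultrafilter.of (atTop ⊓ 𝓟 S))
    (Ultrafilter.of_le _)
  refine ⟨q, fun x => ?_, h2, h3⟩
  rw [tendsto_iff_ultrafilter]
  intro U hU
  obtain ⟨p, h4, h5, h6⟩ := ultra m z r D S hD hb hm heq hz U hU
  have h7 : q = p := huniq q p
    (tsum_enorm_ne_top_iff_summable_norm.1 (ne_top_of_le_ne_top hD h2))
    (tsum_enorm_ne_top_iff_summable_norm.1 (ne_top_of_le_ne_top hD h5)) h3 h6
  rw [h7]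
  exact h4 x

end det

open Classical in
/-- the last good row -/
noncomputable def vv (J : ℕ → ℂ → ℝ≥0∞) (J0 : ℂ → ℝ≥0∞) (r : ℕ → ℂ → ℕ → ℂ) :
    ℕ → ℂ → ℕ → ℂ
  | 0, _, _ => 0
  | n + 1, z, x => if J n z ≤ J0 z + 1 then r n z x else vv J J0 r n z x

lemma vv_meas (J : ℕ → ℂ → ℝ≥0∞) (J0 : ℂ → ℝ≥0∞) (r : ℕ → ℂ → ℕ → ℂ)
    (hJ : ∀ n, Measurable (J n)) (hJ0 : Measurable J0)
    (hr : ∀ n x, Measurable (fun z => r n z x)) (x : ℕ) :
    ∀ n, Measurable (fun z => vv J J0 r n z x)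
  | 0 => by
    simp only [vv]
    exact measurable_const
  | n + 1 => by
    simp only [vv]
    exact Measurable.ite (measurableSet_le (hJ n) (hJ0.add_const 1)) (hr n x)
      (vv_meas J J0 r hJ hJ0 hr x n)

lemma vv_tendsto (J : ℕ → ℂ → ℝ≥0∞) (J0 : ℂ → ℝ≥0∞) (r : ℕ → ℂ → ℕ → ℂ) (z : ℂ) (x : ℕ)
    (l : ℂ) (hS : ∃ᶠ n in atTop, J n z ≤ J0 z + 1)
    (h : Tendsto (fun n => r n z x) (atTop ⊓ 𝓟 {n | J n z ≤ J0 z + 1}) (𝓝 l)) :
    Tendsto (fun n => vv J J0 r n z x) atTop (𝓝 l) := by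
  intro W hW
  have h1 := h hW
  rw [mem_map, mem_inf_principal, mem_atTop_sets] at h1
  obtain ⟨N, hN⟩ := h1
  obtain ⟨n1, hn1, hn2⟩ := (hS.and_eventually (eventually_ge_atTop N)).exists
  rw [mem_map, mem_atTop_sets]
  refine ⟨n1 + 1, fun n hn => ?_⟩
  induction n, hn using Nat.le_induction with
  | base =>
    rw [mem_preimage]
    simp only [vv]
    rw [if_pos hn1]
    exact hN n1 hn2 hn1
  | succ k hk ih =>
    rw [mem_preimage] at ih ⊢
    simp only [vv]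
    split_ifs with h2
    · exact hN k (by omega) h2
    · exact ih

theorem main : St_D := by
  intro m σ R r hσ0 hσ1 hmeas hm heq hz hint huniq
  set J : ℕ → ℂ → ℝ≥0∞ := fun n z => ∑' x, ‖r n z x‖ₑ ^ σ with hJ
  set J0 : ℂ → ℝ≥0∞ := fun z => liminf (fun n => J n z) atTop with hJ0
  have hJm : ∀ n, Measurable (J n) := fun n =>
    Measurable.ennreal_tsum fun x => (hmeas n x).enorm.pow_const σ
  have hJ0m : Measurable J0 := Measurable.liminf hJm
  have hfin : ∀ᵐ z ∂(volume.restrict (ball (0 : ℂ) R)), J0 z < ⊤ := ae_lt_top hJ0m hint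
  have hdet : ∀ᵐ z ∂(volume.restrict (ball (0 : ℂ) R)),
      ∃ q : ℕ → ℂ, (∀ x, Tendsto (fun n => vv J J0 r n z x) atTop (𝓝 (q x))) ∧
        (∑' x, ‖q x‖ₑ) ^ σ ≤ J0 z + 1 ∧ Summable (fun x => ‖q x‖) ∧
        ∀ x, z * q x - ∑' j, q j * m j x = if x = 0 then 1 else 0 := by
    filter_upwards [hfin, ae_restrict_of_ae heq] with z h1 h2
    have hC : J0 z + 1 ≠ ⊤ := ENNReal.add_ne_top.2 ⟨h1.ne, ENNReal.one_ne_top⟩
    have hD : (J0 z + 1) ^ σ⁻¹ ≠ ⊤ := ENNReal.rpow_ne_top_of_nonneg (inv_nonneg.2 hσ0.le) hC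
    have hS : ∃ᶠ n in atTop, J n z ≤ J0 z + 1 := by
      have h3 : liminf (fun n => J n z) atTop < J0 z + 1 :=
        ENNReal.lt_add_right h1.ne one_ne_zero
      exact (frequently_lt_of_liminf_lt (by isBoundedDefault) h3).mono fun n hn => hn.le
    obtain ⟨q, h4, h5, h6⟩ := det m z (fun n => r n z) ((J0 z + 1) ^ σ⁻¹)
      {n | J n z ≤ J0 z + 1} hD hS (fun n hn => tsum_le σ hσ0 hσ1 _ _ hn) hm h2
      (fun n x => hz n z x) (huniq z)
    refine ⟨q, fun x => vv_tendsto J J0 r z x (q x) hS (h4 x), ?_,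
      tsum_enorm_ne_top_iff_summable_norm.1 (ne_top_of_le_ne_top hD h5), h6⟩
    rw [← ENNReal.le_rpow_inv_iff hσ0]
    exact h5
  have hex : ∀ x, ∃ f : ℂ → ℂ, Measurable f ∧ ∀ᵐ z ∂(volume.restrict (ball (0 : ℂ) R)),
      Tendsto (fun n => vv J J0 r n z x) atTop (𝓝 (f z)) := by
    intro x
    refine measurable_limit_of_tendsto_metrizable_ae
      (fun n => (vv_meas J J0 r hJm hJ0m hmeas x n).aemeasurable) ?_
    filter_upwards [hdet] with z hzz
    obtain ⟨q, h1, -⟩ := hzz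
    exact ⟨q x, h1 x⟩
  choose f hf1 hf2 using hex
  have hall : ∀ᵐ z ∂(volume.restrict (ball (0 : ℂ) R)),
      (∑' x, ‖f x z‖ₑ) ^ σ ≤ J0 z + 1 ∧ Summable (fun x => ‖f x z‖) ∧
        ∀ x, z * f x z - ∑' j, f j z * m j x = if x = 0 then 1 else 0 := by
    filter_upwards [hdet, ae_all_iff.2 hf2] with z h1 h2
    obtain ⟨q, h3, h4⟩ := h1
    have h5 : q = fun x => f x z := funext fun x => tendsto_nhds_unique (h3 x) (h2 x)
    rw [h5] at h4
    exact h4
  refine ⟨fun z x => f x z, hf1, ?_, ?_⟩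
  · filter_upwards [hall] with z h
    exact h.2
  · have h1 : ∫⁻ z in ball (0 : ℂ) R, (∑' x, ‖f x z‖ₑ) ^ σ ≤
        ∫⁻ z in ball (0 : ℂ) R, (J0 z + 1) := by
      refine lintegral_mono_ae ?_
      filter_upwards [hall] with z h
      exact h.1
    refine ne_top_of_le_ne_top ?_ h1
    rw [lintegral_add_left hJ0m]
    refine ENNReal.add_ne_top.2 ⟨hint, ?_⟩
    rw [lintegral_const, one_mul, Measure.restrict_apply_univ]
    exact measure_ball_lt_top.ne

end Pool.Agent.TH908.IS.D
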