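import Pool.Agent.TH908.IS.Stm

/-!
# Project IS, piece E: the equation for the rows, off finitely many `z`
-/

set_option autoImplicit false

open MeasureTheory Metric Set Filter Topology
open scoped ENNReal

namespace Pool.Agent.TH908.IS.E

theorem rr_fin (a : ℕ → ℕ → ℂ) (n : ℕ) (z : ℂ) (v : ℕ → ℂ) (j : Fin (n + 1)) :
    rr a n z v (j : ℕ) =
      (B (fun i j : Fin (n + 1) => a i j) z Finset.univ (fun i => v i))⁻¹ 0 j := by
  unfold rr
  rw [dif_pos j.2]

theorem row_eq (a : ℕ → ℕ → ℂ) (n : ℕ) (z : ℂ) (v : ℕ → ℂ)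
    (hdet : IsUnit (B (fun i j : Fin (n + 1) => a i j) z Finset.univ (fun i => v i)).det)
    (x : ℕ) (hx : x ≤ n) :
    z * rr a n z v x -
      ∑ j ∈ Finset.range (n + 1), rr a n z v j * (a j x + if j = x then v x else 0) =
      if x = 0 then 1 else 0 := by
  set M := B (fun i j : Fin (n + 1) => a i j) z Finset.univ (fun i => v i) with hM
  have h1 : M⁻¹ * M = 1 := Matrix.nonsing_inv_mul M hdet
  have hxn : x < n + 1 := Nat.lt_succ_of_le hx
  have h2 := congrFun (congrFun h1 0) ⟨x, hxn⟩
  rw [Matrix.mul_apply] at h2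
  have h3 : ∀ j : Fin (n + 1), M⁻¹ 0 j * M j ⟨x, hxn⟩ =
      (if (j : ℕ) = x then z * rr a n z v x else 0) -
        rr a n z v (j : ℕ) * (a (j : ℕ) x + if (j : ℕ) = x then v x else 0) := by
    intro j
    rw [rr_fin a n z v j, ← hM]
    have h4 : M j ⟨x, hxn⟩ = (if (j : ℕ) = x then z - v (j : ℕ) else 0) - a (j : ℕ) x := by
      rw [hM]
      unfold B
      simp only [Finset.mem_univ, and_self, if_true, Fin.ext_iff]
    rw [h4]
    by_cases hj : (j : ℕ) = x
    · have hj' : j = ⟨x, hxn⟩ := Fin.ext hj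
      have h5 : rr a n z v x = M⁻¹ 0 j := by
        rw [hM, ← rr_fin a n z v j, hj]
      simp only [hj, if_true]
      rw [h5]
      ring
    · simp only [hj, if_false]
      ring
  rw [Finset.sum_congr rfl (fun j _ => h3 j), Finset.sum_sub_distrib] at h2
  have h6 : ∑ j : Fin (n + 1), (if (j : ℕ) = x then z * rr a n z v x else 0) =
      z * rr a n z v x := by
    rw [Finset.sum_eq_single (⟨x, hxn⟩ : Fin (n + 1))]
    · simp
    · intro b _ hb
      rw [if_neg]
      intro h
      exact hb (Fin.ext h)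
    · intro h
      exact absurd (Finset.mem_univ _) h
  have h7 : ∑ j : Fin (n + 1),
      rr a n z v (j : ℕ) * (a (j : ℕ) x + if (j : ℕ) = x then v x else 0) =
      ∑ j ∈ Finset.range (n + 1), rr a n z v j * (a j x + if j = x then v x else 0) := by
    rw [Finset.sum_range]
  rw [h6, h7] at h2
  rw [h2, Matrix.one_apply]
  by_cases h0 : x = 0
  · subst h0
    simp
  · rw [if_neg, if_neg h0]
    intro h
    exact h0 (by simpa using (Fin.ext_iff.mp h).symm)

theorem det_ne (a : ℕ → ℕ → ℂ) (v : ℕ → ℂ) (n : ℕ) :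
    ∀ᵐ z ∂(volume : Measure ℂ),
      IsUnit (B (fun i j : Fin (n + 1) => a i j) z Finset.univ (fun i => v i)).det := by
  set C : Matrix (Fin (n + 1)) (Fin (n + 1)) ℂ :=
    fun i j => (if i = j then v i else 0) + a i j with hC
  have h1 : ∀ z : ℂ, (B (fun i j : Fin (n + 1) => a i j) z Finset.univ (fun i => v i)).det =
      C.charpoly.eval z := by
    intro z
    rw [Matrix.eval_charpoly]
    congr 1
    ext i j
    have h5 : (Matrix.scalar (Fin (n + 1)) z - C) i j =
        (if i = j then z else 0) - ((if i = j then v i else 0) + a i j) := by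
      rw [Matrix.sub_apply, Matrix.scalar_apply, Matrix.diagonal_apply]
    rw [h5]
    unfold B
    simp only [Finset.mem_univ, and_self, if_true]
    by_cases h : i = j
    · simp only [h, if_true]
      ring
    · simp only [h, if_false]
      ring
  have h2 : {z : ℂ | ¬ IsUnit
      (B (fun i j : Fin (n + 1) => a i j) z Finset.univ (fun i => v i)).det} ⊆
      {z : ℂ | C.charpoly.IsRoot z} := by
    intro z hz
    simp only [Set.mem_ofPred_eq, isUnit_iff_ne_zero, ne_eq, not_not] at hz
    rw [h1 z] at hz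
    exact hz
  have h3 : {z : ℂ | C.charpoly.IsRoot z}.Finite :=
    Polynomial.finite_setOfPred_isRoot (Matrix.charpoly_monic C).ne_zero
  rw [ae_iff]
  exact measure_mono_null h2 (h3.measure_zero _)

theorem main : Pool.Agent.TH908.IS.St_E := by
  intro a v
  have h := ae_all_iff.mpr (fun n => det_ne a v n)
  filter_upwards [h] with z hz n x hx
  exact row_eq a n z v (hz n) x hx

end Pool.Agent.TH908.IS.E
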