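import Pool.Agent.TH908.IS.Stm
import Pool.Agent.W610.HY.Fin
import Pool.Agent.W22.HY.NZ2

/-! IS-F: the theorem for measurable local resolvents. -/

set_option autoImplicit false

open MeasureTheory Metric Set Filter Topology
open scoped ENNReal

namespace Pool.Agent.TH908.IS.F

open Pool.Agent.W610.HY

theorem mloc : MLOC :=
  Pool.Agent.W610.HY.Two.area Pool.Agent.W15.HY.CIRC.main
    (Pool.Agent.W610.HY.Two.main Pool.Agent.W610.HY.Fin.hGOOD2 Pool.Agent.W22.HY.NZ2.main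
      Pool.Agent.W389.HY.ABM.main)

theorem loc_of_lt (X : Type) [NormedAddCommGroup X] [NormedSpace ℂ X] [CompleteSpace X]
    (T : X →L[ℂ] X) (x : X) (z : ℂ) (h : ‖T‖ < ‖z‖) : Loc T x z := by
  have h1 : ∀ w : ℂ, ‖T‖ < ‖w‖ → w ∈ resolventSet ℂ T := by
    intro w hw
    apply spectrum.mem_resolventSet_of_norm_lt_mul
    refine lt_of_le_of_lt ?_ hw
    have : ‖(1 : X →L[ℂ] X)‖ ≤ 1 := ContinuousLinearMap.norm_id_le
    calc ‖T‖ * ‖(1 : X →L[ℂ] X)‖ ≤ ‖T‖ * 1 := by gcongr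
      _ = ‖T‖ := mul_one _
  have h2 : IsOpen {w : ℂ | ‖T‖ < ‖w‖} := isOpen_lt continuous_const continuous_norm
  obtain ⟨δ, hδ, hb⟩ := Metric.isOpen_iff.mp h2 z h
  refine ⟨δ, fun w => resolvent T w x, hδ, ?_, ?_⟩
  · intro w hw
    have h3 := spectrum.hasDerivAt_resolvent (h1 w (hb hw))
    exact ((ContinuousLinearMap.apply ℂ X x).differentiableAt.comp w
      h3.differentiableAt).differentiableWithinAt
  · intro w hw
    have h3 : IsUnit (algebraMap ℂ (X →L[ℂ] X) w - T) := h1 w (hb hw)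
    have h4 : (algebraMap ℂ (X →L[ℂ] X) w - T) * resolvent T w = 1 := by
      unfold resolvent
      exact Ring.mul_inverse_cancel _ h3
    have h5 := congrArg (fun S : X →L[ℂ] X => S x) h4
    simpa [Algebra.algebraMap_eq_smul_one] using h5

theorem main (h1 : St_F1) (h3 : St_F3) : St_F := by
  intro X _ _ _ T x y σ R f g hσ hσ1 hTR hx hy hinj hinj' hfm hgm hfe hge hfi hgi hfs
  by_contra hno
  obtain ⟨l, hl, hlx⟩ := h1 X T x ‖T‖ hx (fun u => T.le_opNorm u) hinj
  obtain ⟨k, hk, hky⟩ := h1 (X →L[ℂ] ℂ) (Masm.adj T) y ‖T‖ hy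
    (fun u => by
      rw [Masm.adj_apply, mul_comm]
      exact ContinuousLinearMap.opNorm_comp_le u T)
    (fun z u hu => hinj' z u (by rw [Masm.adj_apply] at hu; exact hu))
  have hball : ∀ z : ℂ, ‖z‖ ≤ ‖T‖ → z ∈ ball (0 : ℂ) R := by
    intro z hz
    rw [mem_ball_zero_iff]
    exact lt_of_le_of_lt hz hTR
  have key : ∀ c : ℂ, c ∈ ball (0 : ℂ) R → c ≠ k → Loc T x c := by
    intro c hc hck
    by_contra hcx
    exact hno (mloc X T x y c k (ball 0 R) (ball 0 R) f g hck isOpen_ball isOpen_ball hc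
      (hball k hk) hfm hgm hfe hge hfi hgi hcx hky)
  have hlk : l = k := by
    by_contra hne
    exact hlx (key l (hball l hl) hne)
  have hR0 : 0 < R := lt_of_le_of_lt (norm_nonneg T) hTR
  have hall : ∀ z : ℂ, z ≠ l → Loc T x z := by
    intro z hz
    by_cases hzb : z ∈ ball (0 : ℂ) R
    · exact key z hzb (hlk ▸ hz)
    · apply loc_of_lt
      rw [mem_ball_zero_iff, not_lt] at hzb
      exact lt_of_lt_of_le hTR hzb
  exact hlx (h3 X T x l σ R f hσ hσ1 (lt_of_le_of_lt hl hTR) hinj hall hfe hfs)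

end Pool.Agent.TH908.IS.F
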