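import Pool.Agent.TH908.IS.Stm

/-!
# IS-F1: the local spectrum is not empty
-/

set_option autoImplicit false

open Metric Set

namespace Pool.Agent.TH908.IS.F1

theorem main : Pool.Agent.TH908.IS.St_F1 := by
  intro E _ _ _ T x K hx hK hinj
  by_contra hcon
  push Not at hcon
  have hK0 : 0 ≤ K := by
    by_contra hneg
    have h1 := hK x
    have h2 : 0 < ‖x‖ := norm_pos_iff.2 hx
    have h3 : K * ‖x‖ < 0 := mul_neg_of_neg_of_pos (not_le.1 hneg) h2
    have h4 := norm_nonneg (T x)
    linarith
  have hnt : Nontrivial E := ⟨⟨x, 0, hx⟩⟩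
  have hT : ‖T‖ ≤ K := T.opNorm_le_bound hK0 hK
  -- every point is in the local resolvent set
  have hloc : ∀ l : ℂ, Pool.Agent.TH908.IS.Loc T x l := by
    intro l
    by_cases hl : ‖l‖ ≤ K
    · exact hcon l hl
    · have hl' := not_le.1 hl
      refine ⟨‖l‖ - K, fun z => (resolvent T z) x, by linarith, ?_, ?_⟩
      · intro z hz
        have h1 : K < ‖z‖ := by
          have h2 := mem_ball.1 hz
          rw [dist_eq_norm] at h2
          have h3 := norm_sub_norm_le l z
          rw [norm_sub_rev] at h3
          linarith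
        have h2 : z ∈ resolventSet ℂ T := spectrum.mem_resolventSet_of_norm_lt (by linarith)
        have h3 := spectrum.hasDerivAt_resolvent_const_left h2
        exact (h3.differentiableAt.clm_apply (differentiableAt_const x)).differentiableWithinAt
      · intro z hz
        have h1 : K < ‖z‖ := by
          have h2 := mem_ball.1 hz
          rw [dist_eq_norm] at h2
          have h3 := norm_sub_norm_le l z
          rw [norm_sub_rev] at h3
          linarith
        have h2 : z ∈ resolventSet ℂ T := spectrum.mem_resolventSet_of_norm_lt (by linarith)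
        have h3 : (algebraMap ℂ (E →L[ℂ] E) z - T) * resolvent T z = 1 :=
          Ring.mul_inverse_cancel _ h2
        have h4 := congrArg (fun A : E →L[ℂ] E => A x) h3
        have h5 : z • (resolvent T z) x - T ((resolvent T z) x) = x := by
          rw [Algebra.algebraMap_eq_smul_one] at h4
          exact h4
        exact h5
  have hex : ∀ z : ℂ, ∃ u : E, z • u - T u = x := by
    intro z
    obtain ⟨δ, F, hδ, _, hF⟩ := hloc z
    exact ⟨F z, hF z (mem_ball_self hδ)⟩
  choose F hF using hex
  have huniq : ∀ (z : ℂ) (u : E), z • u - T u = x → u = F z := by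
    intro z u hu
    have h1 : z • (u - F z) - T (u - F z) = 0 := by
      rw [smul_sub, map_sub, sub_sub_sub_comm, hu, hF z, sub_self]
    exact sub_eq_zero.1 (hinj z _ h1)
  have hdiff : Differentiable ℂ F := by
    intro z
    obtain ⟨δ, G, hδ, hG, hG2⟩ := hloc z
    have h1 : DifferentiableAt ℂ G z :=
      (hG z (mem_ball_self hδ)).differentiableAt (isOpen_ball.mem_nhds (mem_ball_self hδ))
    apply h1.congr_of_eventuallyEq
    filter_upwards [isOpen_ball.mem_nhds (mem_ball_self hδ)] with w hw
    exact (huniq w (G w) (hG2 w hw)).symm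
  have hbd : Bornology.IsBounded (range F) := by
    have hc : IsCompact (F '' (closedBall (0 : ℂ) (K + 1))) :=
      (isCompact_closedBall (0 : ℂ) (K + 1)).image hdiff.continuous
    obtain ⟨C, hC⟩ := hc.isBounded.exists_norm_le
    apply isBounded_iff_forall_norm_le.2
    refine ⟨max C ‖x‖, ?_⟩
    rintro _ ⟨z, rfl⟩
    by_cases hz : ‖z‖ ≤ K + 1
    · exact (hC _ ⟨z, by simpa using hz, rfl⟩).trans (le_max_left _ _)
    · have h1 : ‖z‖ * ‖F z‖ - K * ‖F z‖ ≤ ‖x‖ := by
        have h2 := norm_sub_norm_le (z • F z) (T (F z))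
        rw [hF z, norm_smul] at h2
        have h3 := hK (F z)
        linarith
      have h2 : K + 1 < ‖z‖ := not_le.1 hz
      have h3 : ‖F z‖ ≤ ‖x‖ := by nlinarith [norm_nonneg (F z)]
      exact h3.trans (le_max_right _ _)
  have h01 : F 0 = F 1 := hdiff.apply_eq_apply_of_bounded hbd 0 1
  have h0 := hF 0
  have h1 := hF 1
  rw [← h01, one_smul] at h1
  rw [zero_smul] at h0
  have h2 : F 0 = 0 := by
    have h3 : F 0 - T (F 0) = 0 - T (F 0) := by rw [h1, h0]
    exact sub_left_inj.1 h3
  rw [h2, map_zero, sub_zero] at h0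
  exact hx h0.symm

end Pool.Agent.TH908.IS.F1
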