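import Pool.Agent.TH908.IS.Stm

/-!
IS-F2: mean value inequality for `‖F‖ ^ σ`, `F` analytic.
-/

set_option autoImplicit false

open MeasureTheory Metric Set Filter Topology

namespace Pool.Agent.TH908.IS.F2

/-- Jensen's inequality for `log ‖h‖` -/
theorem log_le {h : ℂ → ℂ} {w : ℂ} {r : ℝ} (hr : 0 < r)
    (hh : AnalyticOnNhd ℂ h (closedBall w |r|)) (hw : h w ≠ 0) :
    Real.log ‖h w‖ ≤ Real.circleAverage (fun z => Real.log ‖h z‖) w r := by
  have h1 := hh.circleAverage_log_norm hr.ne' hw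
  have h2 : 0 ≤ ∑ᶠ u, (MeromorphicOn.divisor h (closedBall w |r|) u : ℝ) *
      Real.log (r * ‖w - u‖⁻¹) := by
    apply finsum_nonneg
    intro u
    by_cases hu : u ∈ closedBall w |r|
    · apply mul_nonneg
      · exact_mod_cast MeromorphicOn.AnalyticOnNhd.divisor_nonneg hh u
      · rcases eq_or_ne (w - u) 0 with h0 | h0
        · rw [h0]
          simp
        · apply Real.log_nonneg
          rw [← div_eq_mul_inv, le_div_iff₀ (norm_pos_iff.2 h0), one_mul]
          rw [mem_closedBall, dist_comm, dist_eq_norm, abs_of_pos hr] at hu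
          exact hu
    · rw [Function.locallyFinsuppWithin.apply_eq_zero_of_notMem _ hu]
      simp
  rw [h1]
  linarith

theorem pt {y σ : ℝ} (hy : 0 ≤ y) (hσ : 0 < σ) :
    Real.exp 1 * σ * Real.log y ≤ y ^ σ := by
  rcases hy.eq_or_lt with h | h
  · rw [← h, Real.zero_rpow hσ.ne', Real.log_zero, mul_zero]
  · rw [Real.rpow_def_of_pos h σ]
    have h1 := Real.add_one_le_exp (Real.log y * σ - 1)
    rw [sub_add_cancel] at h1
    have h2 : Real.exp (Real.log y * σ) = Real.exp 1 * Real.exp (Real.log y * σ - 1) := by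
      rw [← Real.exp_add]
      ring_nf
    rw [h2]
    have h3 := mul_le_mul_of_nonneg_left h1 (Real.exp_pos 1).le
    linarith

theorem mean_le {h : ℂ → ℂ} {w : ℂ} {r σ : ℝ} (hr : 0 < r) (hσ : 0 < σ)
    (hh : AnalyticOnNhd ℂ h (closedBall w |r|)) (hw : h w ≠ 0) :
    ‖h w‖ ^ σ ≤ Real.circleAverage (fun z => ‖h z‖ ^ σ) w r := by
  have hw0 : 0 < ‖h w‖ := norm_pos_iff.2 hw
  set c : ℝ := Real.exp (1 / σ) / ‖h w‖ with hc
  have hc0 : 0 < c := by positivity
  have hcc : (c : ℂ) ≠ 0 := by exact_mod_cast hc0.ne'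
  set g : ℂ → ℂ := fun z => (c : ℂ) * h z with hg
  have hgn : ∀ z, ‖g z‖ = c * ‖h z‖ := fun z => by
    rw [hg]
    simp only [norm_mul, Complex.norm_real, Real.norm_eq_abs, abs_of_pos hc0]
  have hga : AnalyticOnNhd ℂ g (closedBall w |r|) := fun z hz => analyticAt_const.mul (hh z hz)
  have hgw : g w ≠ 0 := mul_ne_zero hcc hw
  have h1 := log_le hr hga hgw
  have h2 : Real.log ‖g w‖ = 1 / σ := by
    rw [hgn, hc, div_mul_cancel₀ _ hw0.ne', Real.log_exp]
  rw [h2] at h1
  have hgs : AnalyticOnNhd ℂ g (sphere w |r|) := hga.mono sphere_subset_closedBall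
  have i1 : CircleIntegrable (fun z => Real.log ‖g z‖) w r :=
    hgs.meromorphicOn.circleIntegrable_log_norm
  have i2 : CircleIntegrable (fun z => ‖g z‖ ^ σ) w r := by
    apply ContinuousOn.circleIntegrable'
    intro z hz
    exact ((hgs z hz).continuousAt.norm.rpow_const (Or.inr hσ.le)).continuousWithinAt
  have i3 : CircleIntegrable (fun z => (Real.exp 1 * σ) • Real.log ‖g z‖) w r :=
    i1.const_fun_smul
  have h3 := Real.circleAverage_mono i3 i2 (fun z _ => by
    rw [smul_eq_mul]
    exact pt (norm_nonneg _) hσ)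
  rw [Real.circleAverage_fun_smul, smul_eq_mul] at h3
  have h4 : (fun z => ‖g z‖ ^ σ) = fun z => (c ^ σ) • ‖h z‖ ^ σ := by
    funext z
    rw [hgn, Real.mul_rpow hc0.le (norm_nonneg _), smul_eq_mul]
  rw [h4, Real.circleAverage_fun_smul, smul_eq_mul] at h3
  have h5 : c ^ σ = Real.exp 1 / ‖h w‖ ^ σ := by
    rw [hc, Real.div_rpow (Real.exp_pos _).le (norm_nonneg _), ← Real.exp_mul,
      one_div_mul_cancel hσ.ne']
  have h6 : Real.exp 1 ≤ Real.exp 1 * σ * Real.circleAverage (fun z => Real.log ‖g z‖) w r := by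
    have e1 := mul_le_mul_of_nonneg_left h1 (by positivity : 0 ≤ Real.exp 1 * σ)
    have e2 : Real.exp 1 * σ * (1 / σ) = Real.exp 1 := by field_simp
    linarith
  rw [h5] at h3
  have hp : 0 < ‖h w‖ ^ σ := Real.rpow_pos_of_pos hw0 _
  have h7 := h6.trans h3
  have h8 := mul_le_mul_of_nonneg_left h7 hp.le
  have h9 : ‖h w‖ ^ σ * (Real.exp 1 / ‖h w‖ ^ σ * Real.circleAverage (fun z => ‖h z‖ ^ σ) w r) =
      Real.exp 1 * Real.circleAverage (fun z => ‖h z‖ ^ σ) w r := by
    field_simp
  rw [h9] at h8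
  have he := Real.exp_pos 1
  nlinarith

/-- the mean over the circle, as a lower integral -/
theorem circ_le {h : ℂ → ℂ} {w : ℂ} {ρ σ r : ℝ} (hσ : 0 < σ)
    (hh : DifferentiableOn ℂ h (ball w ρ)) (hw : h w ≠ 0) (hr : 0 < r) (hrρ : r < ρ) :
    ENNReal.ofReal (2 * Real.pi) * ‖h w‖ₑ ^ σ ≤
      ∫⁻ y in Ioo (-Real.pi) Real.pi, ‖h (circleMap w r y)‖ₑ ^ σ := by
  have hsub : closedBall w |r| ⊆ ball w ρ := by
    rw [abs_of_pos hr]
    exact closedBall_subset_ball hrρ
  have han : AnalyticOnNhd ℂ h (closedBall w |r|) :=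
    (hh.analyticOnNhd isOpen_ball).mono hsub
  have h1 := mean_le hr hσ han hw
  have hcont : Continuous fun y => ‖h (circleMap w r y)‖ ^ σ := by
    rw [continuous_iff_continuousAt]
    intro y
    have h2 : circleMap w r y ∈ closedBall w |r| := by
      rw [mem_closedBall, dist_eq_norm, circleMap_sub_center, norm_circleMap_zero]
    have h3 : ContinuousAt h (circleMap w r y) := (han _ h2).continuousAt
    have h4 : ContinuousAt (fun y => h (circleMap w r y)) y :=
      ContinuousAt.comp h3 (continuous_circleMap w r).continuousAt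
    exact h4.norm.rpow_const (Or.inr hσ.le)
  have h5 : ∀ y, ‖h (circleMap w r y)‖ₑ ^ σ = ENNReal.ofReal (‖h (circleMap w r y)‖ ^ σ) := by
    intro y
    rw [← ofReal_norm, ENNReal.ofReal_rpow_of_nonneg (norm_nonneg _) hσ.le]
  simp only [h5]
  have hpi := Real.pi_pos
  have hint : IntegrableOn (fun y => ‖h (circleMap w r y)‖ ^ σ) (Ioo (-Real.pi) Real.pi) := by
    have := (hcont.intervalIntegrable (μ := volume) (-Real.pi) Real.pi).1
    exact this.mono_set Ioo_subset_Ioc_self
  rw [← ofReal_integral_eq_lintegral_ofReal hint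
    (Eventually.of_forall fun y => Real.rpow_nonneg (norm_nonneg _) _)]
  rw [← ofReal_norm, ENNReal.ofReal_rpow_of_nonneg (norm_nonneg _) hσ.le,
    ← ENNReal.ofReal_mul (by positivity)]
  apply ENNReal.ofReal_le_ofReal
  rw [Real.circleAverage_eq_integral_add (-Real.pi), smul_eq_mul] at h1
  have h6 : ∫ θ in (0 : ℝ)..2 * Real.pi, ‖h (circleMap w r (θ + -Real.pi))‖ ^ σ =
      ∫ y in Ioo (-Real.pi) Real.pi, ‖h (circleMap w r y)‖ ^ σ := by
    rw [intervalIntegral.integral_comp_add_right (fun y => ‖h (circleMap w r y)‖ ^ σ)]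
    have e1 : 0 + -Real.pi = -Real.pi := by ring
    have e2 : 2 * Real.pi + -Real.pi = Real.pi := by ring
    rw [e1, e2, intervalIntegral.integral_of_le (by linarith), integral_Ioc_eq_integral_Ioo]
  rw [h6] at h1
  have h7 := mul_le_mul_of_nonneg_left h1 (by positivity : 0 ≤ 2 * Real.pi)
  rw [← mul_assoc, mul_inv_cancel₀ (by positivity), one_mul] at h7
  exact h7

theorem scalar {h : ℂ → ℂ} {w : ℂ} {ρ σ : ℝ} (hρ : 0 < ρ) (hσ : 0 < σ)
    (hh : DifferentiableOn ℂ h (ball w ρ)) :
    ENNReal.ofReal (Real.pi * ρ ^ 2) * ‖h w‖ₑ ^ σ ≤ ∫⁻ z in ball w ρ, ‖h z‖ₑ ^ σ := by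
  by_cases hw : h w = 0
  · rw [hw, enorm_zero, ENNReal.zero_rpow_of_pos hσ, mul_zero]
    exact zero_le
  set u : ℂ → ENNReal := (ball w ρ).indicator (fun z => ‖h z‖ₑ ^ σ) with hu
  have hum : Measurable u := by
    classical
    rw [hu, ← Set.piecewise_eq_indicator]
    apply ContinuousOn.measurable_piecewise _ _ measurableSet_ball
    · intro z hz
      have h1 : ContinuousWithinAt h (ball w ρ) z := (hh z hz).continuousWithinAt
      exact (ENNReal.continuous_rpow_const (y := σ)).continuousAt.comp_continuousWithinAt h1.enorm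
    · exact continuousOn_const
  rw [← lintegral_indicator measurableSet_ball, ← hu, ← lintegral_add_right_eq_self u w,
    ← Complex.lintegral_comp_polarCoord_symm (fun z => u (z + w)), polarCoord_target]
  have hprod : (volume : Measure (ℝ × ℝ)).restrict (Ioi (0 : ℝ) ×ˢ Ioo (-Real.pi) Real.pi) =
      ((volume : Measure ℝ).restrict (Ioi 0)).prod
        ((volume : Measure ℝ).restrict (Ioo (-Real.pi) Real.pi)) := by
    rw [Measure.prod_restrict]
    rfl
  rw [hprod, lintegral_prod]
  swap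
  · apply Measurable.aemeasurable
    have hcs : Continuous fun p : ℝ × ℝ => Complex.polarCoord.symm p := by
      simp only [Complex.polarCoord_symm_apply]
      fun_prop
    exact (ENNReal.measurable_ofReal.comp measurable_fst).smul
      (hum.comp (hcs.measurable.add_const w))
  calc ENNReal.ofReal (Real.pi * ρ ^ 2) * ‖h w‖ₑ ^ σ
      = ∫⁻ r in Ioo 0 ρ, ENNReal.ofReal r * (ENNReal.ofReal (2 * Real.pi) * ‖h w‖ₑ ^ σ) := by
        rw [lintegral_mul_const _ ENNReal.measurable_ofReal]
        have e1 : ∫⁻ r in Ioo 0 ρ, ENNReal.ofReal r = ENNReal.ofReal (ρ ^ 2 / 2) := by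
          have i1 : IntegrableOn (fun r : ℝ => r) (Ioo 0 ρ) := by
            have := (continuous_id.intervalIntegrable 0 ρ (μ := volume)).1
            exact this.mono_set Ioo_subset_Ioc_self
          rw [← ofReal_integral_eq_lintegral_ofReal i1
            ((ae_restrict_iff' measurableSet_Ioo).2 (Eventually.of_forall fun r hr => hr.1.le)),
            ← integral_Ioc_eq_integral_Ioo, ← intervalIntegral.integral_of_le hρ.le, integral_id]
          congr 1
          ring
        rw [e1, ← mul_assoc, ← ENNReal.ofReal_mul (by positivity)]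
        congr 2
        ring
    _ ≤ ∫⁻ r in Ioo 0 ρ, ∫⁻ y in Ioo (-Real.pi) Real.pi,
          ENNReal.ofReal (r, y).1 • u (Complex.polarCoord.symm (r, y) + w) := by
        refine setLIntegral_mono' measurableSet_Ioo fun r hr => ?_
        have h2 := circ_le hσ hh hw hr.1 hr.2
        have h3 := mul_le_mul_right h2 (ENNReal.ofReal r)
        refine h3.trans ?_
        rw [← lintegral_const_mul']
        swap
        · exact ENNReal.ofReal_ne_top
        refine lintegral_mono fun y => ?_
        have e3 : Complex.polarCoord.symm (r, y) + w = circleMap w r y := by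
          rw [Complex.polarCoord_symm_apply, circleMap, Complex.exp_mul_I, add_comm]
          push_cast
          rfl
        have e4 : circleMap w r y ∈ ball w ρ := by
          rw [mem_ball, dist_eq_norm, circleMap_sub_center, norm_circleMap_zero, abs_of_pos hr.1]
          exact hr.2
        rw [e3, hu, indicator_of_mem e4, smul_eq_mul]
    _ ≤ _ := lintegral_mono_set Ioo_subset_Ioi_self

theorem main : Pool.Agent.TH908.IS.St_F2 := by
  intro E _ _ _ F w ρ σ hρ hσ hσ1 hF
  rcases eq_or_ne (F w) 0 with h0 | h0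
  · rw [h0, enorm_zero, ENNReal.zero_rpow_of_pos hσ, mul_zero]
    exact zero_le
  obtain ⟨φ, hφ, hφw⟩ := exists_dual_vector ℂ (F w) (norm_ne_zero_iff.2 h0)
  have h1 : DifferentiableOn ℂ (fun z => φ (F z)) (ball w ρ) :=
    φ.differentiable.comp_differentiableOn hF
  have h2 := scalar hρ hσ h1
  have h3 : ‖φ (F w)‖ₑ = ‖F w‖ₑ := by
    rw [hφw, ← ofReal_norm, ← ofReal_norm]
    simp
  rw [h3] at h2
  refine h2.trans (lintegral_mono fun z => ?_)
  apply ENNReal.rpow_le_rpow _ hσ.le
  rw [← ofReal_norm, ← ofReal_norm]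
  apply ENNReal.ofReal_le_ofReal
  have := φ.le_opNorm (F z)
  rwa [hφ, one_mul] at this

end Pool.Agent.TH908.IS.F2
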