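import Pool.Agent.TH908.IS.Stm

set_option autoImplicit false

open MeasureTheory Metric Set Filter Topology
open scoped ENNReal Real

namespace Pool.Agent.TH908.IS.F3

variable {E : Type} [NormedAddCommGroup E] [NormedSpace ℂ E] [CompleteSpace E]

/-- a continuous linear map commutes with circle integrals -/
theorem clm_circle (L : E →L[ℂ] E) {g : ℂ → E} {c : ℂ} {r : ℝ} (hg : CircleIntegrable g c r) :
    L (∮ z in C(c, r), g z) = ∮ z in C(c, r), L (g z) := by
  simp only [circleIntegral]
  rw [← ContinuousLinearMap.intervalIntegral_comp_comm]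
  · simp only [map_smul]
  · exact hg.out

theorem ci_smul (a : ℂ) {g : ℂ → E} {c : ℂ} {r : ℝ} (hg : CircleIntegrable g c r) :
    CircleIntegrable (fun z => a • g z) c r := by
  unfold CircleIntegrable at *
  exact hg.smul a

/-- the analytic local resolvent off `l` -/
theorem exists_F (T : E →L[ℂ] E) (x : E) (l : ℂ)
    (h1 : ∀ (z : ℂ) (u : E), z • u - T u = 0 → u = 0) (hL : ∀ z, z ≠ l → Loc T x z) :
    ∃ F : ℂ → E, (∀ z, z ≠ l → z • F z - T (F z) = x) ∧ ∀ z, z ≠ l → DifferentiableAt ℂ F z := by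
  have h : ∀ z, ∃ u : E, z ≠ l → z • u - T u = x := by
    intro z
    by_cases hz : z = l
    · exact ⟨0, fun h => absurd hz h⟩
    · obtain ⟨δ, G, hδ, _, hG⟩ := hL z hz
      exact ⟨G z, fun _ => hG z (mem_ball_self hδ)⟩
  choose F hF using h
  refine ⟨F, hF, ?_⟩
  intro z hz
  obtain ⟨δ, G, hδ, hd, hG⟩ := hL z hz
  have hev : F =ᶠ[𝓝 z] G := by
    have h2 : ∀ᶠ w in 𝓝 z, w ≠ l := isOpen_ne.mem_nhds hz
    have h3 : ∀ᶠ w in 𝓝 z, w ∈ ball z δ := ball_mem_nhds z hδ
    filter_upwards [h2, h3] with w hw hw'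
    have e1 := hF w hw
    have e2 := hG w hw'
    have : w • (F w - G w) - T (F w - G w) = 0 := by
      rw [smul_sub, map_sub]
      have : w • F w - w • G w - (T (F w) - T (G w)) = (w • F w - T (F w)) - (w • G w - T (G w)) := by
        abel
      rw [this, e1, e2, sub_self]
    exact sub_eq_zero.1 (h1 w _ this)
  exact ((hd.differentiableAt (ball_mem_nhds z hδ))).congr_of_eventuallyEq hev

/-- the growth bound near `l` -/
theorem growth (h2 : St_F2) (F : ℂ → E) (l : ℂ) (σ R : ℝ) (hσ : 0 < σ) (hσ1 : σ ≤ 1)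
    (hlR : ‖l‖ < R) (hFd : ∀ z, z ≠ l → DifferentiableAt ℂ F z)
    (hint : ∫⁻ z in ball (0 : ℂ) R, ‖F z‖ₑ ^ σ ≠ ⊤) :
    ∃ (m : ℕ) (K : ℝ), 0 ≤ K ∧ ∀ w : ℂ, w ≠ l → ‖w - l‖ < (R - ‖l‖) / 2 → ‖w - l‖ ≤ 1 →
      ‖(w - l) ^ m • F w‖ ≤ K := by
  set Ct := ∫⁻ z in ball (0 : ℂ) R, ‖F z‖ₑ ^ σ with hCt
  set C := Ct.toReal with hC
  obtain ⟨m, hm⟩ := exists_nat_ge (2 / σ)
  refine ⟨m, (C / π) ^ (1 / σ), by positivity, ?_⟩
  intro w hw hwd hw1
  set ρ := ‖w - l‖ with hρ
  have hρ0 : 0 < ρ := norm_pos_iff.2 (sub_ne_zero.2 hw)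
  have hsub : ball w ρ ⊆ ball (0 : ℂ) R := by
    intro z hz
    rw [mem_ball, dist_eq_norm] at hz
    rw [mem_ball_zero_iff]
    calc ‖z‖ = ‖(z - w) + (w - l) + l‖ := by ring_nf
      _ ≤ ‖z - w‖ + ‖w - l‖ + ‖l‖ := norm_add₃_le
      _ < ρ + ρ + ‖l‖ := by linarith
      _ ≤ R := by linarith
  have hnl : ∀ z ∈ ball w ρ, z ≠ l := by
    intro z hz h
    rw [h, mem_ball, dist_comm, dist_eq_norm] at hz
    exact lt_irrefl _ hz
  have hd : DifferentiableOn ℂ F (ball w ρ) := fun z hz =>
    (hFd z (hnl z hz)).differentiableWithinAt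
  have hmain := h2 E F w ρ σ hρ0 hσ hσ1 hd
  have hle : ∫⁻ z in ball w ρ, ‖F z‖ₑ ^ σ ≤ Ct := lintegral_mono_set hsub
  have hmain2 : ENNReal.ofReal (π * ρ ^ 2) * ‖F w‖ₑ ^ σ ≤ Ct := hmain.trans hle
  -- convert to reals
  have hreal : π * ρ ^ 2 * ‖F w‖ ^ σ ≤ C := by
    have h3 : (ENNReal.ofReal (π * ρ ^ 2) * ‖F w‖ₑ ^ σ).toReal ≤ C :=
      ENNReal.toReal_mono hint hmain2
    rw [ENNReal.toReal_mul, ENNReal.toReal_ofReal (by positivity), ← ENNReal.toReal_rpow,
      toReal_enorm] at h3
    exact h3
  have hC0 : 0 ≤ C := ENNReal.toReal_nonneg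
  -- (ρ^m ‖F w‖)^σ ≤ C / π
  have hpow : (ρ ^ m * ‖F w‖) ^ σ ≤ C / π := by
    rw [Real.mul_rpow (by positivity) (norm_nonneg _)]
    have h4 : (ρ ^ m) ^ σ ≤ ρ ^ 2 := by
      rw [← Real.rpow_natCast ρ m, ← Real.rpow_mul hρ0.le, ← Real.rpow_natCast ρ 2]
      apply Real.rpow_le_rpow_of_exponent_ge hρ0 hw1
      have : 2 / σ * σ ≤ m * σ := mul_le_mul_of_nonneg_right hm hσ.le
      rw [div_mul_cancel₀ _ hσ.ne'] at this
      push_cast
      exact this
    have h5 : (ρ ^ m) ^ σ * ‖F w‖ ^ σ ≤ ρ ^ 2 * ‖F w‖ ^ σ :=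
      mul_le_mul_of_nonneg_right h4 (by positivity)
    refine h5.trans ?_
    rw [le_div_iff₀ Real.pi_pos]
    linarith
  have h6 : ρ ^ m * ‖F w‖ ≤ (C / π) ^ (1 / σ) := by
    have h7 := Real.rpow_le_rpow (by positivity) hpow (by positivity : (0 : ℝ) ≤ 1 / σ)
    rw [← Real.rpow_mul (by positivity), mul_one_div_cancel hσ.ne', Real.rpow_one] at h7
    exact h7
  rw [norm_smul, norm_pow]
  exact h6

theorem main (h2 : St_F2) : St_F3 := by
  intro E _ _ _ T x l σ R f hσ hσ1 hlR h1 hL hf hint
  obtain ⟨F, hF, hFd⟩ := exists_F T x l h1 hL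
  -- f = F almost everywhere
  have hfF : ∀ᵐ z ∂(volume.restrict (ball (0 : ℂ) R)), ‖F z‖ₑ ^ σ = ‖f z‖ₑ ^ σ := by
    have hne : ∀ᵐ z ∂(volume.restrict (ball (0 : ℂ) R)), z ≠ l :=
      ae_restrict_of_ae (Measure.ae_ne volume l)
    filter_upwards [hf, hne] with z hz hzl
    have e1 := hF z hzl
    have : z • (F z - f z) - T (F z - f z) = 0 := by
      rw [smul_sub, map_sub]
      have : z • F z - z • f z - (T (F z) - T (f z)) = (z • F z - T (F z)) - (z • f z - T (f z)) := by
        abel
      rw [this, e1, hz, sub_self]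
    rw [sub_eq_zero.1 (h1 z _ this)]
  have hintF : ∫⁻ z in ball (0 : ℂ) R, ‖F z‖ₑ ^ σ ≠ ⊤ := by
    rw [lintegral_congr_ae hfF]; exact hint
  obtain ⟨m, K, hK, hgr⟩ := growth h2 F l σ R hσ hσ1 hlR hFd hintF
  set r0 := min ((R - ‖l‖) / 4) 1 with hr0
  have hr0p : 0 < r0 := lt_min (by linarith) one_pos
  have hr0d : r0 < (R - ‖l‖) / 2 := lt_of_le_of_lt (min_le_left _ _) (by linarith)
  have hr01 : r0 ≤ 1 := min_le_right _ _
  -- continuity off l
  have hcont : ∀ j : ℕ, ∀ z, z ≠ l → DifferentiableAt ℂ (fun z => (z - l) ^ j • F z) z := by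
    intro j z hz
    exact ((differentiableAt_id.sub_const l).pow j).smul (hFd z hz)
  have hcs : ∀ (j : ℕ) (r : ℝ), 0 < r → CircleIntegrable (fun z => (z - l) ^ j • F z) l r := by
    intro j r hr
    refine ContinuousOn.circleIntegrable hr.le fun z hz => ?_
    refine (hcont j z ?_).continuousAt.continuousWithinAt
    intro h
    rw [h, mem_sphere, dist_self] at hz
    exact hr.ne hz
  -- independence of the radius
  have hind : ∀ (j : ℕ) (r : ℝ), 0 < r → r ≤ r0 →
      (∮ z in C(l, r0), (z - l) ^ j • F z) = ∮ z in C(l, r), (z - l) ^ j • F z := by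
    intro j r hr hrr
    refine Complex.circleIntegral_eq_of_differentiable_on_annulus_off_countable hr hrr
      (s := ∅) countable_empty ?_ ?_
    · intro z hz
      refine (hcont j z ?_).continuousAt.continuousWithinAt
      intro h
      rw [h] at hz
      exact hz.2 (mem_ball_self hr)
    · intro z hz
      refine hcont j z ?_
      intro h
      rw [h] at hz
      exact hz.1.2 (mem_closedBall_self hr.le)
  -- the top integral vanishes
  have htop : (∮ z in C(l, r0), (z - l) ^ m • F z) = 0 := by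
    rw [← norm_le_zero_iff]
    refine le_of_forall_pos_le_add fun ε hε => ?_
    rw [zero_add]
    set r := min r0 (ε / (2 * π * (K + 1))) with hr
    have hKp : 0 < 2 * π * (K + 1) := by positivity
    have hrp : 0 < r := lt_min hr0p (by positivity)
    rw [hind m r hrp (min_le_left _ _)]
    have hb : ∀ z ∈ sphere l r, ‖(z - l) ^ m • F z‖ ≤ K := by
      intro z hz
      rw [mem_sphere, dist_eq_norm] at hz
      have hzl : z ≠ l := by
        intro h
        rw [h, sub_self, norm_zero] at hz
        exact hrp.ne hz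
      have hrr0 : r ≤ r0 := min_le_left _ _
      exact hgr z hzl (by rw [hz]; linarith) (by rw [hz]; linarith)
    have h3 := circleIntegral.norm_integral_le_of_norm_le_const hrp.le hb
    refine h3.trans ?_
    have h4 : r ≤ ε / (2 * π * (K + 1)) := min_le_right _ _
    rw [le_div_iff₀ hKp] at h4
    nlinarith [Real.pi_pos, mul_nonneg hrp.le Real.pi_pos.le]
  -- descent
  have hstep : ∀ j : ℕ, (∮ z in C(l, r0), (z - l) ^ (j + 1) • F z) = 0 →
      (∮ z in C(l, r0), (z - l) ^ j • F z) = 0 := by
    intro j hj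
    refine h1 l _ ?_
    rw [clm_circle T (hcs j r0 hr0p), ← circleIntegral.integral_smul,
      ← circleIntegral.integral_sub]
    · have e : (∮ z in C(l, r0), (l • (z - l) ^ j • F z - T ((z - l) ^ j • F z)))
          = ∮ z in C(l, r0), ((z - l) ^ j • x - (z - l) ^ (j + 1) • F z) := by
        refine circleIntegral.integral_congr hr0p.le fun z hz => ?_
        have hzl : z ≠ l := by
          intro h
          rw [h, mem_sphere, dist_self] at hz
          exact hr0p.ne hz
        have e1 := hF z hzl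
        have e2 : T (F z) = z • F z - x := by rw [← e1]; abel
        simp only [map_smul]
        rw [e2, pow_succ]
        module
      rw [e, circleIntegral.integral_sub, hj, sub_zero, circleIntegral.integral_smul_const]
      · have h5 : (∮ z in C(l, r0), (z - l) ^ j) = 0 := by
          have := circleIntegral.integral_sub_zpow_of_ne (n := (j : ℤ)) (by omega) l l r0
          simpa using this
        rw [h5, zero_smul]
      · refine ContinuousOn.circleIntegrable hr0p.le ?_
        fun_prop
      · exact hcs (j + 1) r0 hr0p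
    · exact ci_smul l (hcs j r0 hr0p)
    · refine ContinuousOn.circleIntegrable hr0p.le ?_
      refine T.continuous.comp_continuousOn fun z hz => ?_
      refine (hcont j z ?_).continuousAt.continuousWithinAt
      intro h
      rw [h, mem_sphere, dist_self] at hz
      exact hr0p.ne hz
  have hall : ∀ j : ℕ, j ≤ m → (∮ z in C(l, r0), (z - l) ^ (m - j) • F z) = 0 := by
    intro j
    induction j with
    | zero => intro _; simpa using htop
    | succ j ih =>
      intro hj
      apply hstep
      have : m - (j + 1) + 1 = m - j := by omega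
      rw [this]
      exact ih (by omega)
  have hzero : (∮ z in C(l, r0), F z) = 0 := by
    have := hall m le_rfl
    simpa using this
  -- the Cauchy integral
  have hcF : CircleIntegrable F l r0 := by
    have := hcs 0 r0 hr0p
    simpa using this
  let rr : NNReal := ⟨r0, hr0p.le⟩
  have hps := hasFPowerSeriesOn_cauchy_integral (f := F) (c := l) (R := rr) hcF hr0p
  refine ⟨r0, fun w => (2 * π * Complex.I : ℂ)⁻¹ • ∮ z in C(l, r0), (z - w)⁻¹ • F z, hr0p, ?_, ?_⟩
  · have := hps.differentiableOn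
    have hb : Metric.eball l (rr : ℝ≥0∞) = ball l r0 := Metric.eball_coe
    rw [hb] at this
    exact this
  · intro w hw
    have hne : ∀ z ∈ sphere l r0, z - w ≠ 0 := by
      intro z hz h
      rw [sub_eq_zero] at h
      rw [h] at hz
      rw [mem_sphere] at hz
      rw [mem_ball, hz] at hw
      exact lt_irrefl _ hw
    have hci : CircleIntegrable (fun z => (z - w)⁻¹ • F z) l r0 := by
      refine ContinuousOn.circleIntegrable hr0p.le fun z hz => ?_
      have hzl : z ≠ l := by
        intro h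
        rw [h, mem_sphere, dist_self] at hz
        exact hr0p.ne hz
      have h7 : ContinuousAt (fun z => (z - w)⁻¹) z :=
        (continuousAt_id.sub continuousAt_const).inv₀ (hne z hz)
      exact (h7.smul (hFd z hzl).continuousAt).continuousWithinAt
    have hcx : CircleIntegrable (fun z => (z - w)⁻¹ • x) l r0 := by
      refine ContinuousOn.circleIntegrable hr0p.le fun z hz => ?_
      have h7 : ContinuousAt (fun z => (z - w)⁻¹) z :=
        (continuousAt_id.sub continuousAt_const).inv₀ (hne z hz)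
      exact (h7.smul continuousAt_const).continuousWithinAt
    rw [map_smul, smul_comm w, ← smul_sub, clm_circle T hci, ← circleIntegral.integral_smul,
      ← circleIntegral.integral_sub]
    · have e : (∮ z in C(l, r0), (w • (z - w)⁻¹ • F z - T ((z - w)⁻¹ • F z)))
          = ∮ z in C(l, r0), ((z - w)⁻¹ • x - F z) := by
        refine circleIntegral.integral_congr hr0p.le fun z hz => ?_
        have hzl : z ≠ l := by
          intro h
          rw [h, mem_sphere, dist_self] at hz
          exact hr0p.ne hz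
        have e1 := hF z hzl
        have e2 : T (F z) = z • F z - x := by rw [← e1]; abel
        have hzw := hne z hz
        simp only [map_smul]
        rw [e2]
        have e3 : F z = (z - w)⁻¹ • (z - w) • F z := by
          rw [smul_smul, inv_mul_cancel₀ hzw, one_smul]
        have e4 : w • (z - w)⁻¹ • F z - (z - w)⁻¹ • (z • F z - x)
            = (z - w)⁻¹ • x - (z - w)⁻¹ • (z - w) • F z := by
          module
        rw [e4, ← e3]
      rw [e, circleIntegral.integral_sub hcx hcF, hzero, sub_zero,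
        circleIntegral.integral_smul_const, circleIntegral.integral_sub_inv_of_mem_ball hw,
        smul_smul, inv_mul_cancel₀ (by simp [Real.pi_ne_zero]), one_smul]
    · exact ci_smul w hci
    · refine ContinuousOn.circleIntegrable hr0p.le ?_
      refine T.continuous.comp_continuousOn fun z hz => ?_
      have hzl : z ≠ l := by
        intro h
        rw [h, mem_sphere, dist_self] at hz
        exact hr0p.ne hz
      have h7 : ContinuousAt (fun z => (z - w)⁻¹) z :=
        (continuousAt_id.sub continuousAt_const).inv₀ (hne z hz)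
      exact (h7.smul (hFd z hzl).continuousAt).continuousWithinAt

end Pool.Agent.TH908.IS.F3
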