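import Pool.Agent.TH908.IS.Stm

/-!
# IS-F4: eigenvectors give hyperinvariant subspaces
-/

set_option autoImplicit false

namespace Pool.Agent.TH908.IS.F4

theorem main : Pool.Agent.TH908.IS.St_F4 := by
  intro X _ _ T hT h
  rcases h with ⟨z, u, hu, hz⟩ | ⟨z, φ, hφ, hz⟩
  · refine ⟨LinearMap.ker ((z • ContinuousLinearMap.id ℂ X - T : X →L[ℂ] X) : X →ₗ[ℂ] X),
      ContinuousLinearMap.isClosed_ker (z • ContinuousLinearMap.id ℂ X - T), ?_, ?_, ?_⟩
    · intro hb
      apply hu
      have h1 : u ∈ LinearMap.ker ((z • ContinuousLinearMap.id ℂ X - T : X →L[ℂ] X) : X →ₗ[ℂ] X) := by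
        rw [LinearMap.mem_ker]
        exact hz
      rw [hb] at h1
      exact (Submodule.mem_bot ℂ).1 h1
    · intro ht
      apply hT z
      ext v
      have h1 : v ∈ LinearMap.ker ((z • ContinuousLinearMap.id ℂ X - T : X →L[ℂ] X) : X →ₗ[ℂ] X) := by
        rw [ht]
        exact Submodule.mem_top
      rw [LinearMap.mem_ker] at h1
      have h2 : z • v - T v = 0 := h1
      show T v = z • v
      exact (sub_eq_zero.1 h2).symm
    · intro Q hQ v hv
      rw [LinearMap.mem_ker] at hv ⊢
      have h2 : z • v - T v = 0 := hv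
      show z • (Q v) - T (Q v) = 0
      have h3 : Q (T v) = T (Q v) := by
        have := congrArg (fun A : X →L[ℂ] X => A v) hQ
        exact this
      rw [← h3, ← map_smul, ← map_sub, h2, map_zero]
  · obtain ⟨V, hV⟩ : ∃ V : Submodule ℂ X, V = ⨅ (ψ : X →L[ℂ] ℂ) (_ : z • ψ = ψ.comp T),
        LinearMap.ker (ψ : X →ₗ[ℂ] ℂ) := ⟨_, rfl⟩
    have hmem : ∀ v, v ∈ V ↔ ∀ ψ : X →L[ℂ] ℂ, z • ψ = ψ.comp T → ψ v = 0 := by
      intro v
      rw [hV, Submodule.mem_iInf]
      constructor
      · intro h ψ hψ
        have h1 := h ψ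
        rw [Submodule.mem_iInf] at h1
        exact h1 hψ
      · intro h ψ
        rw [Submodule.mem_iInf]
        intro hψ
        exact h ψ hψ
    refine ⟨V, ?_, ?_, ?_, ?_⟩
    · have h1 : (V : Set X) = ⋂ (ψ : X →L[ℂ] ℂ) (_ : z • ψ = ψ.comp T), {v | ψ v = 0} := by
        ext v
        rw [Set.mem_iInter]
        show v ∈ V ↔ _
        rw [hmem]
        constructor
        · intro h ψ
          rw [Set.mem_iInter]
          exact fun hψ => h ψ hψ
        · intro h ψ hψ
          have h2 := h ψ
          rw [Set.mem_iInter] at h2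
          exact h2 hψ
      rw [h1]
      apply isClosed_iInter
      intro ψ
      apply isClosed_iInter
      intro _
      exact isClosed_eq ψ.continuous continuous_const
    · intro hb
      apply hT z
      ext v
      have h1 : z • v - T v ∈ V := by
        rw [hmem]
        intro ψ hψ
        have h2 : z * ψ v = ψ (T v) := by
          have := congrArg (fun A : X →L[ℂ] ℂ => A v) hψ
          exact this
        rw [map_sub, map_smul, smul_eq_mul, h2, sub_self]
      rw [hb] at h1
      show T v = z • v
      exact (sub_eq_zero.1 ((Submodule.mem_bot ℂ).1 h1)).symm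
    · intro ht
      apply hφ
      ext v
      have h1 : v ∈ V := by
        rw [ht]
        exact Submodule.mem_top
      exact (hmem v).1 h1 φ (sub_eq_zero.1 hz)
    · intro Q hQ v hv
      rw [hmem] at hv ⊢
      intro ψ hψ
      have h1 : z • (ψ.comp Q) = (ψ.comp Q).comp T := by
        ext w
        show z * ψ (Q w) = ψ (Q (T w))
        have h2 : z * ψ (Q w) = ψ (T (Q w)) := by
          have := congrArg (fun A : X →L[ℂ] ℂ => A (Q w)) hψ
          exact this
        have h3 : Q (T w) = T (Q w) := by
          have := congrArg (fun A : X →L[ℂ] X => A w) hQ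
          exact this
        rw [h2, h3]
      exact hv _ h1

end Pool.Agent.TH908.IS.F4
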