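import Pool.Agent.TH908.IS.Stm

/-! IS-G: the difference of two potentials has no atoms (written by helper113). -/

set_option autoImplicit false

open MeasureTheory Metric Set Filter Topology
open scoped ENNReal

namespace Pool.Agent.TH908.IS.G

/-- no atoms -/
theorem no_atom {Ω : Type} [MeasurableSpace Ω] (P : Measure Ω) (V : Ω → ℂ)
    (σ : ℝ) (N : ℝ≥0∞) (hV : Measurable V) (hσ : 0 < σ) (hN : N ≠ ⊤)
    (h : ∀ b, ∫⁻ ω, (‖V ω - b‖ₑ⁻¹) ^ σ ∂P ≤ N) (b : ℂ) : ∀ᵐ ω ∂P, V ω ≠ b := by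
  have h1 : ∫⁻ ω, (‖V ω - b‖ₑ⁻¹) ^ σ ∂P ≠ ⊤ := ne_top_of_le_ne_top hN (h b)
  have hm : Measurable fun ω => (‖V ω - b‖ₑ⁻¹) ^ σ := by fun_prop
  filter_upwards [ae_lt_top hm h1] with ω hω h2
  rw [h2, sub_self, enorm_zero, ENNReal.inv_zero, ENNReal.top_rpow_of_pos hσ] at hω
  exact lt_irrefl _ hω

theorem main : Pool.Agent.TH908.IS.St_G := by
  intro Ω _ P _ V σ N hV hind hσ hN h c
  have hi : ProbabilityTheory.IndepFun (V 0) (V 1) P := hind.indepFun (by norm_num)
  have hmap := (ProbabilityTheory.indepFun_iff_map_prod_eq_prod_map_map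
    (hV 0).aemeasurable (hV 1).aemeasurable).1 hi
  have hs : MeasurableSet {p : ℂ × ℂ | p.1 - p.2 = c} :=
    measurableSet_eq_fun (measurable_fst.sub measurable_snd) measurable_const
  have h0 : (P.map (fun ω => (V 0 ω, V 1 ω))) {p : ℂ × ℂ | p.1 - p.2 = c} = 0 := by
    rw [hmap, Measure.prod_apply hs]
    have h2 : ∀ x : ℂ, (P.map (V 1)) (Prod.mk x ⁻¹' {p : ℂ × ℂ | p.1 - p.2 = c}) = 0 := by
      intro x
      have h3 : Prod.mk x ⁻¹' {p : ℂ × ℂ | p.1 - p.2 = c} = {x - c} := by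
        ext y
        show x - y = c ↔ y = x - c
        constructor
        · intro h; rw [← h]; ring
        · intro h; rw [h]; ring
      rw [h3, Measure.map_apply (hV 1) (measurableSet_singleton _)]
      have h4 := no_atom P (V 1) σ N (hV 1) hσ hN (h 1) (x - c)
      rw [ae_iff] at h4
      convert h4 using 2
      ext ω
      simp
    rw [lintegral_congr h2, lintegral_zero]
  rw [Measure.map_apply ((hV 0).prodMk (hV 1)) hs] at h0
  rw [ae_iff]
  convert h0 using 2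
  ext ω
  simp

end Pool.Agent.TH908.IS.G
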