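import Pool.Agent.TH908.IS.Stm

/-!
# IS-L: functions with values in a Banach space
-/

set_option autoImplicit false

open MeasureTheory Metric Set Filter Topology
open scoped ENNReal

namespace Pool.Agent.TH908.IS.L

theorem main : Pool.Agent.TH908.IS.St_L := by
  intro E _ _ _ e σ R q hσ hσ1 he hq hsum hfin
  have hmeas : AEStronglyMeasurable (fun z => ∑' x, q z x • e x)
      (volume.restrict (ball (0 : ℂ) R)) := by
    refine aestronglyMeasurable_of_tendsto_ae atTop
      (f := fun n z => ∑ x ∈ Finset.range n, q z x • e x) (fun n => ?_) ?_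
    · refine Finset.aestronglyMeasurable_fun_sum _ fun x _ => ?_
      exact ((hq x).aestronglyMeasurable).smul_const (e x)
    · filter_upwards [hsum] with z hz
      have h1 : Summable (fun x => q z x • e x) := by
        refine Summable.of_norm_bounded hz fun x => ?_
        rw [norm_smul]
        exact mul_le_of_le_one_right (norm_nonneg _) (he x)
      exact h1.hasSum.tendsto_sum_nat
  have hle : ∀ z, ‖∑' x, q z x • e x‖ₑ ≤ ∑' x, ‖q z x‖ₑ := by
    intro z
    refine enorm_tsum_le_tsum_enorm.trans (ENNReal.tsum_le_tsum fun x => ?_)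
    rw [enorm_smul]
    have h1 : ‖e x‖ₑ ≤ 1 := by
      rw [← ofReal_norm]
      exact ENNReal.ofReal_le_one.2 (he x)
    exact mul_le_of_le_one_right' h1
  have hfin' : ∫⁻ z in ball (0 : ℂ) R, ‖∑' x, q z x • e x‖ₑ ^ σ ≠ ⊤ := by
    refine ne_top_of_le_ne_top hfin (lintegral_mono fun z => ?_)
    exact ENNReal.rpow_le_rpow (hle z) hσ.le
  refine ⟨hmeas, ⟨?_, ?_⟩, hfin'⟩
  · exact Real.continuous_posLog.comp_aestronglyMeasurable hmeas.norm
  · have hb : ∀ z, ‖Real.posLog ‖∑' x, q z x • e x‖‖ₑ ≤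
        ENNReal.ofReal (1 / σ) * ‖∑' x, q z x • e x‖ₑ ^ σ := by
      intro z
      set t : ℝ := ‖∑' x, q z x • e x‖ with ht
      have ht0 : 0 ≤ t := norm_nonneg _
      have h1 : Real.posLog t ≤ t ^ σ / σ := by
        rw [Real.posLog]
        refine max_le (by positivity) (Real.log_le_rpow_div ht0 hσ)
      have h2 : ‖Real.posLog t‖ₑ = ENNReal.ofReal (Real.posLog t) :=
        Real.enorm_of_nonneg Real.posLog_nonneg
      rw [h2, ← ofReal_norm, ← ht, ENNReal.ofReal_rpow_of_nonneg ht0 hσ.le,
        ← ENNReal.ofReal_mul (by positivity)]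
      refine ENNReal.ofReal_le_ofReal (h1.trans (le_of_eq ?_))
      ring
    refine lt_of_le_of_lt (lintegral_mono hb) ?_
    rw [lintegral_const_mul' _ _ ENNReal.ofReal_ne_top]
    exact ENNReal.mul_lt_top ENNReal.ofReal_lt_top (lt_top_iff_ne_top.2 hfin')

end Pool.Agent.TH908.IS.L
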