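import Pool.Agent.TH908.IS.Stm

/-!
# Measurability of the rows of the resolvent
-/

set_option autoImplicit false

namespace Pool.Agent.TH908.IS.M

open Pool.Agent.TH908.IS Matrix

/-- the matrix `z - V - a` depends continuously on `z` and `V` -/
theorem cont (a : ℕ → ℕ → ℂ) (n : ℕ) :
    Continuous (fun p : ℂ × (ℕ → ℂ) =>
      B (fun i j : Fin (n + 1) => a i j) p.1 Finset.univ (fun i : Fin (n + 1) => p.2 i)) := by
  refine continuous_matrix fun i j => ?_
  unfold B
  simp only [Finset.mem_univ, and_self, if_true]
  by_cases h : i = j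
  · subst h
    simp only [if_true]
    fun_prop
  · simp only [h, if_false]
    fun_prop

theorem main : Pool.Agent.TH908.IS.St_M := by
  intro a n x
  unfold rr
  by_cases h : x < n + 1
  · simp only [h, dif_pos]
    have hc := cont a n
    have h1 : (fun p : ℂ × (ℕ → ℂ) =>
        (B (fun i j : Fin (n + 1) => a i j) p.1 Finset.univ
          (fun i : Fin (n + 1) => p.2 i))⁻¹ 0 ⟨x, h⟩) =
        fun p : ℂ × (ℕ → ℂ) =>
          ((B (fun i j : Fin (n + 1) => a i j) p.1 Finset.univ
            (fun i : Fin (n + 1) => p.2 i)).det)⁻¹ *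
          (B (fun i j : Fin (n + 1) => a i j) p.1 Finset.univ
            (fun i : Fin (n + 1) => p.2 i)).adjugate 0 ⟨x, h⟩ := by
      funext p
      rw [Matrix.inv_def, Matrix.smul_apply, smul_eq_mul, Ring.inverse_eq_inv']
    rw [h1]
    refine Measurable.mul ?_ ?_
    · exact (hc.matrix_det).measurable.inv
    · exact ((continuous_apply_apply (0 : Fin (n + 1)) ⟨x, h⟩).comp hc.matrix_adjugate).measurable
  · simp only [h, dif_neg, not_false_eq_true]
    exact measurable_const

end Pool.Agent.TH908.IS.M
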