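import Pool.Agent.TH908.IS.Main3
import Pool.Agent.TH908.IS.F
import Pool.Agent.TH908.IS.A
import Pool.Agent.TH908.IS.M
import Pool.Agent.TH908.IS.D
import Pool.Agent.TH908.IS.E
import Pool.Agent.TH908.IS.F1
import Pool.Agent.TH908.IS.F2
import Pool.Agent.TH908.IS.F3
import Pool.Agent.TH908.IS.F4
import Pool.Agent.TH908.IS.G
import Pool.Agent.TH908.IS.L

/-! Final form of project IS, with the moment bound as a hypothesis. -/

set_option autoImplicit false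

open MeasureTheory
open scoped ENNReal NNReal

namespace Pool.Agent.TH908.IS.Fin3

theorem main (hB : St_B3) (X : Type) [NormedAddCommGroup X] [NormedSpace ℂ X] [CompleteSpace X]
    (e : ℕ → X) (ε : ℕ → (X →L[ℂ] ℂ)) (hbi : ∀ x y, ε x (e y) = if x = y then 1 else 0) (C : ℝ)
    (hC : ∀ x, ‖e x‖ ≤ C ∧ ‖ε x‖ ≤ C) (htot : ∀ f : X, (∀ x, ε x f = 0) → f = 0)
    (Ω : Type) [MeasurableSpace Ω] (P : Measure Ω) [IsProbabilityMeasure P]
    (V : ℕ → Ω → ℂ) (hV : ∀ x, Measurable (V x)) (hind : ProbabilityTheory.iIndepFun V P)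
    (σ : ℝ) (hσ : 0 < σ) (hσ1 : σ ≤ 1) (N κ : ℝ≥0)
    (hN : ∀ (x : ℕ) (b : ℂ), ∫⁻ ω, (‖V x ω - b‖ₑ⁻¹) ^ σ ∂P ≤ N)
    (a : ℕ → ℕ → ℂ) (hr : ∀ x, ∑' y, ‖a x y‖ₑ ^ σ ≠ ⊤) (hc : ∀ y, ∑' x, ‖a x y‖ₑ ^ σ ≠ ⊤)
    (F : Finset ℕ) (hF : ∀ x, x ∉ F → ∑' y, (if y = x then 0 else ‖a x y‖ₑ ^ σ) ≤ κ ∧
      ∑' y, (if y = x then 0 else ‖a y x‖ₑ ^ σ) ≤ κ) (hNκ : N * κ < 1)
    (T : Ω → (X →L[ℂ] X))
    (hT : ∀ᵐ ω ∂P, ∀ (f : X) (x : ℕ), ε x (T ω f) = ∑' y, a x y * ε y f + V x ω * ε x f) :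
    ∀ᵐ ω ∂P, Hyp (T ω) := by
  have hC1 : ∀ x, ‖e x‖ ≤ max C 1 := fun x => (hC x).1.trans (le_max_left _ _)
  have hC2 : ∀ x, ‖ε x‖ ≤ max C 1 := fun x => (hC x).2.trans (le_max_left _ _)
  have hpos : 0 < max C 1 := lt_of_lt_of_le one_pos (le_max_right _ _)
  obtain ⟨D, hD⟩ : ∃ D : ℂ, D = ((max C 1 : ℝ) : ℂ) := ⟨_, rfl⟩
  have hD0 : D ≠ 0 := by
    rw [hD]
    exact_mod_cast hpos.ne'
  have hDn : ‖D⁻¹‖ = (max C 1)⁻¹ := by
    rw [norm_inv, hD, Complex.norm_real, Real.norm_of_nonneg hpos.le]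
  have hsys : ∃ S : Pool.Agent.TH908.IS.Bi.Sys X, S.ε = fun x => D⁻¹ • ε x := by
    refine ⟨{ e := fun x => D⁻¹ • e x
              ε := fun x => D⁻¹ • ε x
              c := D⁻¹ * D⁻¹
              hc := mul_ne_zero (inv_ne_zero hD0) (inv_ne_zero hD0)
              bi := ?_
              he := ?_
              hε := ?_
              tot := ?_ }, rfl⟩
    · intro x y
      rw [ContinuousLinearMap.smul_apply, map_smul, hbi]
      split_ifs <;> simp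
    · intro x
      rw [norm_smul, hDn]
      calc (max C 1)⁻¹ * ‖e x‖ ≤ (max C 1)⁻¹ * max C 1 := by gcongr; exact hC1 x
        _ = 1 := inv_mul_cancel₀ hpos.ne'
    · intro x
      rw [norm_smul, hDn]
      calc (max C 1)⁻¹ * ‖ε x‖ ≤ (max C 1)⁻¹ * max C 1 := by gcongr; exact hC2 x
        _ = 1 := inv_mul_cancel₀ hpos.ne'
    · intro f hf
      apply htot f
      intro x
      have h1 := hf x
      rw [ContinuousLinearMap.smul_apply, smul_eq_mul] at h1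
      exact (mul_eq_zero.mp h1).resolve_left (inv_ne_zero hD0)
  obtain ⟨S, hS⟩ := hsys
  have hSx : ∀ x f, S.ε x f = D⁻¹ * ε x f := by
    intro x f
    rw [hS]
    rfl
  have hle : ∀ (b : ℕ → ℂ) (x : ℕ), ∑' y, ‖b y‖ₑ ^ σ ≠ ⊤ →
      ∑' y, (if y = x then 0 else ‖b y‖ₑ ^ σ) ≠ ⊤ := by
    intro b x hb
    refine ne_top_of_le_ne_top hb (ENNReal.tsum_le_tsum fun y => ?_)
    split_ifs
    · exact bot_le
    · exact le_rfl
  refine Main3.main (C3.main hB M.main) E.main M.main Pool.Agent.TH908.IS.D.main L.main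
    (Pool.Agent.TH908.IS.F.main F1.main (F3.main F2.main)) F4.main G.main Ω P V hV hind σ hσ hσ1 N κ hN a F
    (fun x => hle (a x) x (hr x)) (fun x hx => (hF x hx).1)
    (fun y => hle (fun x => a x y) y (hc y)) (fun y hy => (hF y hy).2) hNκ X S T ?_
  filter_upwards [hT] with ω h f x
  rw [hSx, hSx, h f x, mul_add, ← tsum_mul_left]
  congr 1
  · apply tsum_congr
    intro y
    rw [hSx]
    ring
  · ring

end Pool.Agent.TH908.IS.Fin3
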