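import Pool.Agent.TH908.IS.Stm

/-! Vectors and functionals on `ℓ^p` given by absolutely summable sequences. -/

set_option autoImplicit false

open MeasureTheory Metric Set Filter Topology
open scoped ENNReal

namespace Pool.Agent.TH908.IS.Lp

variable {p : ℝ≥0∞} [hp : Fact (1 ≤ p)]

/-- `ℓ^p` -/
abbrev X (p : ℝ≥0∞) : Type := lp (fun _ : ℕ => ℂ) p

/-- coordinate functional -/
noncomputable def ev (p : ℝ≥0∞) [Fact (1 ≤ p)] (x : ℕ) : X p →L[ℂ] ℂ :=
  lp.evalCLM ℂ (fun _ : ℕ => ℂ) p x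

/-- basis vector -/
noncomputable def sg (p : ℝ≥0∞) (x : ℕ) : X p := lp.single p x (1 : ℂ)

theorem ev_apply (x : ℕ) (f : X p) : ev p x f = f x := rfl

theorem sg_apply (x y : ℕ) : sg p x y = if y = x then 1 else 0 := by
  unfold sg
  rw [lp.single_apply]
  by_cases h : y = x
  · subst h; simp
  · simp [h]

theorem hp0 : 0 < p := lt_of_lt_of_le one_pos hp.out

theorem norm_sg (x : ℕ) : ‖sg p x‖ ≤ 1 := by
  unfold sg
  rw [lp.norm_single hp0]
  simp

theorem norm_ev (x : ℕ) : ‖ev p x‖ ≤ 1 := by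
  apply ContinuousLinearMap.opNorm_le_bound _ zero_le_one
  intro f
  rw [one_mul]
  exact lp.norm_apply_le_norm hp0.ne' f x

theorem summ_sg {u : ℕ → ℂ} (hu : Summable fun x => ‖u x‖) : Summable fun x => u x • sg p x := by
  apply Summable.of_norm_bounded hu
  intro x
  rw [norm_smul]
  calc ‖u x‖ * ‖sg p x‖ ≤ ‖u x‖ * 1 := by gcongr; exact norm_sg x
    _ = ‖u x‖ := mul_one _

theorem summ_ev {u : ℕ → ℂ} (hu : Summable fun x => ‖u x‖) : Summable fun x => u x • ev p x := by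
  apply Summable.of_norm_bounded hu
  intro x
  rw [norm_smul]
  calc ‖u x‖ * ‖ev p x‖ ≤ ‖u x‖ * 1 := by gcongr; exact norm_ev x
    _ = ‖u x‖ := mul_one _

theorem vec_apply {u : ℕ → ℂ} (hu : Summable fun x => ‖u x‖) (x : ℕ) :
    (∑' j, u j • sg p j : X p) x = u x := by
  rw [← ev_apply, (ev p x).map_tsum (summ_sg hu), tsum_eq_single x]
  · rw [map_smul, ev_apply, sg_apply]; simp
  · intro j hj
    rw [map_smul, ev_apply, sg_apply, if_neg hj.symm]; simp

theorem fun_apply {u : ℕ → ℂ} (hu : Summable fun x => ‖u x‖) (h : X p) :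
    (∑' j, u j • ev p j : X p →L[ℂ] ℂ) h = ∑' j, u j * h j := by
  have := (ContinuousLinearMap.apply ℂ ℂ h).map_tsum (summ_ev (p := p) hu)
  rw [ContinuousLinearMap.apply_apply] at this
  rw [this]
  rfl

/-- the vector equation -/
theorem vec_eq (T : X p →L[ℂ] X p) (m : ℕ → ℕ → ℂ) (hT : ∀ f x, T f x = ∑' y, m x y * f y)
    (z : ℂ) {u : ℕ → ℂ} (hu : Summable fun x => ‖u x‖)
    (he : ∀ x, z * u x - ∑' j, u j * m x j = if x = 0 then 1 else 0) :
    z • (∑' j, u j • sg p j : X p) - T (∑' j, u j • sg p j) = sg p 0 := by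
  ext x
  rw [lp.coeFn_sub, Pi.sub_apply, lp.coeFn_smul, Pi.smul_apply, vec_apply hu, hT, sg_apply,
    smul_eq_mul, ← he x]
  congr 1
  apply tsum_congr
  intro j
  rw [vec_apply hu, mul_comm]

/-- the equation for functionals -/
theorem fun_eq (T : X p →L[ℂ] X p) (m : ℕ → ℕ → ℂ) (hT : ∀ f x, T f x = ∑' y, m x y * f y)
    (C : ℝ) (hm : ∀ x, Summable fun y => ‖m x y‖) (hC : ∀ x, ∑' y, ‖m x y‖ ≤ C)
    (z : ℂ) {u : ℕ → ℂ} (hu : Summable fun x => ‖u x‖)
    (he : ∀ x, z * u x - ∑' j, u j * m j x = if x = 0 then 1 else 0) :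
    z • (∑' j, u j • ev p j : X p →L[ℂ] ℂ) - (∑' j, u j • ev p j : X p →L[ℂ] ℂ).comp T =
      ev p 0 := by
  ext h
  rw [ContinuousLinearMap.sub_apply, ContinuousLinearMap.smul_apply,
    ContinuousLinearMap.comp_apply, fun_apply hu, fun_apply hu, ev_apply, smul_eq_mul]
  have hh : ∀ y, ‖h y‖ ≤ ‖h‖ := fun y => lp.norm_apply_le_norm hp0.ne' h y
  have hs : Summable (fun q : ℕ × ℕ => u q.1 * (m q.1 q.2 * h q.2)) := by
    apply Summable.of_norm
    rw [summable_prod_of_nonneg (fun _ => norm_nonneg _)]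
    have h1 : ∀ x, Summable (fun y => ‖u x * (m x y * h y)‖) := by
      intro x
      refine Summable.of_nonneg_of_le (fun _ => norm_nonneg _) (fun y => ?_)
        ((hm x).mul_left (‖u x‖ * ‖h‖))
      rw [norm_mul, norm_mul]
      calc ‖u x‖ * (‖m x y‖ * ‖h y‖) ≤ ‖u x‖ * (‖m x y‖ * ‖h‖) := by gcongr; exact hh y
        _ = ‖u x‖ * ‖h‖ * ‖m x y‖ := by ring
    refine ⟨h1, ?_⟩
    refine Summable.of_nonneg_of_le (fun _ => tsum_nonneg (fun _ => norm_nonneg _)) (fun x => ?_)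
      (hu.mul_left (‖h‖ * C))
    calc ∑' y, ‖u x * (m x y * h y)‖ ≤ ∑' y, (‖u x‖ * ‖h‖) * ‖m x y‖ := by
          refine Summable.tsum_le_tsum (fun y => ?_) (h1 x) ((hm x).mul_left _)
          rw [norm_mul, norm_mul]
          calc ‖u x‖ * (‖m x y‖ * ‖h y‖) ≤ ‖u x‖ * (‖m x y‖ * ‖h‖) := by gcongr; exact hh y
            _ = ‖u x‖ * ‖h‖ * ‖m x y‖ := by ring
      _ = (‖u x‖ * ‖h‖) * ∑' y, ‖m x y‖ := tsum_mul_left
      _ ≤ (‖u x‖ * ‖h‖) * C := by gcongr; exact hC x
      _ = ‖h‖ * C * ‖u x‖ := by ring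
  have e1 : ∑' x, u x * T h x = ∑' y, (∑' x, u x * m x y) * h y := by
    calc ∑' x, u x * T h x = ∑' x, ∑' y, u x * (m x y * h y) := by
          apply tsum_congr
          intro x
          rw [hT, tsum_mul_left]
      _ = ∑' y, ∑' x, u x * (m x y * h y) := by
          exact (Summable.tsum_comm (f := fun x y => u x * (m x y * h y)) hs).symm
      _ = ∑' y, (∑' x, u x * m x y) * h y := by
          apply tsum_congr
          intro y
          rw [← tsum_mul_right]
          apply tsum_congr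
          intro x
          ring
  have hs2 : Summable (fun y => (∑' x, u x * m x y) * h y) := by
    have h3 := hs.prod_symm.prod
    refine h3.congr (fun y => ?_)
    rw [← tsum_mul_right]
    apply tsum_congr
    intro x
    simp only [Prod.swap_prod_mk]
    ring
  have hs3 : Summable (fun y => u y * h y) := by
    apply Summable.of_norm
    refine Summable.of_nonneg_of_le (fun _ => norm_nonneg _) (fun y => ?_) (hu.mul_left ‖h‖)
    rw [norm_mul]
    calc ‖u y‖ * ‖h y‖ ≤ ‖u y‖ * ‖h‖ := by gcongr; exact hh y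
      _ = ‖h‖ * ‖u y‖ := mul_comm _ _
  rw [e1, ← tsum_mul_left, ← (hs3.mul_left z).tsum_sub hs2, tsum_eq_single 0]
  · rw [← mul_assoc, ← sub_mul, he 0]; simp
  · intro y hy
    rw [← mul_assoc, ← sub_mul, he y, if_neg hy, zero_mul]

end Pool.Agent.TH908.IS.Lp
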