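import Pool.Agent.TH908.IS.Lp

/-! Assembly of project IS. -/

set_option autoImplicit false

open MeasureTheory Metric Set Filter Topology
open scoped ENNReal NNReal

namespace Pool.Agent.TH908.IS.Main

open Pool.Agent.TH908.IS.Lp

theorem tsum_le_rpow (f : ℕ → ℝ≥0∞) {σ : ℝ} (hσ : 0 < σ) (hσ1 : σ ≤ 1) :
    ∑' y, f y ≤ (∑' y, f y ^ σ) ^ (1 / σ) := by
  rw [ENNReal.tsum_eq_iSup_sum]
  apply iSup_le
  intro s
  have h1 : (∑ y ∈ s, f y) ^ σ ≤ ∑ y ∈ s, f y ^ σ := by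
    induction s using Finset.induction_on with
    | empty => simp [hσ]
    | insert a s ha ih =>
      rw [Finset.sum_insert ha, Finset.sum_insert ha]
      exact (ENNReal.rpow_add_le_add_rpow _ _ hσ.le hσ1).trans (by gcongr)
  calc ∑ y ∈ s, f y = ((∑ y ∈ s, f y) ^ σ) ^ (1 / σ) := by
        rw [← ENNReal.rpow_mul, mul_one_div_cancel hσ.ne', ENNReal.rpow_one]
    _ ≤ (∑' y, f y ^ σ) ^ (1 / σ) := by
        apply ENNReal.rpow_le_rpow _ (by positivity)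
        exact h1.trans (ENNReal.sum_le_tsum s)

theorem row (b : ℕ → ℂ) (x : ℕ) {σ : ℝ} (hσ : 0 < σ) (hσ1 : σ ≤ 1) {κ : ℝ≥0∞}
    (h : ∑' y, (if y = x then 0 else ‖b y‖ₑ ^ σ) ≤ κ) :
    ∑' y, ‖b y‖ₑ ≤ ‖b x‖ₑ + κ ^ (1 / σ) := by
  have e1 : ∀ y, ‖b y‖ₑ = (if y = x then ‖b x‖ₑ else 0) + (if y = x then 0 else ‖b y‖ₑ) := by
    intro y
    by_cases hy : y = x
    · subst hy; simp
    · simp [hy]
  rw [tsum_congr e1, ENNReal.tsum_add, tsum_ite_eq]
  gcongr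
  refine (tsum_le_rpow _ hσ hσ1).trans ?_
  apply ENNReal.rpow_le_rpow _ (by positivity)
  refine le_trans (le_of_eq ?_) h
  apply tsum_congr
  intro y
  by_cases hy : y = x
  · simp [hy, hσ]
  · simp [hy]

theorem row_ne_top (b : ℕ → ℂ) (x : ℕ) {σ : ℝ} (hσ : 0 < σ) (hσ1 : σ ≤ 1) {κ : ℝ≥0∞}
    (hκ : κ ≠ ⊤) (h : ∑' y, (if y = x then 0 else ‖b y‖ₑ ^ σ) ≤ κ) : ∑' y, ‖b y‖ₑ ≠ ⊤ := by
  refine ne_top_of_le_ne_top ?_ (row b x hσ hσ1 h)
  exact ENNReal.add_ne_top.mpr ⟨enorm_ne_top, ENNReal.rpow_ne_top_of_nonneg (by positivity) hκ⟩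

theorem summ (b : ℕ → ℂ) (h : ∑' y, ‖b y‖ₑ ≠ ⊤) : Summable fun y => ‖b y‖ := by
  have := ENNReal.summable_toReal h
  simpa using this

theorem tend (b : ℕ → ℂ) (h : ∑' y, ‖b y‖ₑ ≠ ⊤) : Tendsto b atTop (𝓝 0) := by
  rw [tendsto_zero_iff_norm_tendsto_zero]
  exact (summ b h).tendsto_atTop_zero

theorem rr_zero (v : ℕ → ℂ) (a' : ℕ → ℕ → ℂ) (n : ℕ) (z : ℂ) (x : ℕ) (hx : n < x) :
    rr a' n z v x = 0 := by
  unfold rr
  rw [dif_neg (by omega)]

attribute [local irreducible] Pool.Agent.TH908.IS.rr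

theorem rr_meas (hM : St_M) (v : ℕ → ℂ) (a' : ℕ → ℕ → ℂ) (n x : ℕ) :
    Measurable (fun z => rr a' n z v x) := by
  have h1 : Measurable (fun z : ℂ => ((z, v) : ℂ × (ℕ → ℂ))) :=
    measurable_id.prodMk measurable_const
  have h2 := Measurable.comp (g := fun p : ℂ × (ℕ → ℂ) => rr a' n p.1 p.2 x) (hM a' n x) h1
  exact h2

set_option maxHeartbeats 1000000 in
theorem main (hC : St_C) (hE : St_E) (hM : St_M) (hD : St_D) (hL : St_L) (hF : St_F)
    (hF4 : St_F4) (hG : St_G)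
    (Ω : Type) [MeasurableSpace Ω] (P : Measure Ω) [IsProbabilityMeasure P]
    (V : ℕ → Ω → ℂ) (hV : ∀ x, Measurable (V x)) (hind : ProbabilityTheory.iIndepFun V P)
    (σ : ℝ) (hσ : 0 < σ) (hσ1 : σ ≤ 1) (N κ : ℝ≥0)
    (hN : ∀ x b, ∫⁻ ω, (‖V x ω - b‖ₑ⁻¹) ^ σ ∂P ≤ N)
    (a : ℕ → ℕ → ℂ) (hrow : ∀ x, ∑' y, (if y = x then 0 else ‖a x y‖ₑ ^ σ) ≤ κ)
    (hcol : ∀ y, ∑' x, (if x = y then 0 else ‖a x y‖ₑ ^ σ) ≤ κ) (hNκ : N * κ < 1)
    (p : ℝ≥0∞) [Fact (1 ≤ p)]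
    (T : Ω → (lp (fun _ : ℕ => ℂ) p →L[ℂ] lp (fun _ : ℕ => ℂ) p))
    (hT : ∀ᵐ ω ∂P, ∀ (f : lp (fun _ : ℕ => ℂ) p) (x : ℕ),
      T ω f x = ∑' y, a x y * f y + V x ω * f x) :
    ∀ᵐ ω ∂P, Hyp (T ω) := by
  -- the constant
  obtain ⟨M, hMM⟩ : ∃ M : ℝ≥0, (N : ℝ≥0∞) * (1 + κ * M) ≤ M := by
    refine ⟨N / (1 - N * κ), ?_⟩
    have h1 : N * (1 + κ * (N / (1 - N * κ))) = N / (1 - N * κ) := by
      have h2 : (1 - N * κ : ℝ≥0) ≠ 0 := by
        have := tsub_pos_of_lt hNκ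
        exact this.ne'
      rw [eq_div_iff h2, mul_assoc, add_mul, one_mul, mul_assoc, div_mul_cancel₀ _ h2]
      rw [mul_comm κ N, tsub_add_cancel_of_le hNκ.le, mul_one]
    exact_mod_cast h1.le
  have hNt : (N : ℝ≥0∞) ≠ ⊤ := ENNReal.coe_ne_top
  have hκt : (κ : ℝ≥0∞) ≠ ⊤ := ENNReal.coe_ne_top
  have c1 := hC Ω P V a σ N κ M hV hind hσ hσ1 hNt ENNReal.coe_ne_top hN hrow hMM
  have c2 := hC Ω P V (fun i j => a j i) σ N κ M hV hind hσ hσ1 hNt ENNReal.coe_ne_top hN hcol hMM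
  have c3 := hG Ω P V σ N hV hind hσ hNt hN (a 1 1 - a 0 0)
  filter_upwards [c1, c2, c3, hT] with ω h1 h2 h3 h4
  by_contra hno
  set v : ℕ → ℂ := fun x => V x ω with hv
  obtain ⟨m, hm⟩ : ∃ m : ℕ → ℕ → ℂ, ∀ x y, m x y = a x y + (if x = y then v x else 0) :=
    ⟨_, fun _ _ => rfl⟩
  have mrow : ∀ x, ∑' y, (if y = x then 0 else ‖m x y‖ₑ ^ σ) ≤ (κ : ℝ≥0∞) := by
    intro x
    refine le_trans (le_of_eq ?_) (hrow x)
    apply tsum_congr
    intro y
    by_cases hy : y = x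
    · simp [hy]
    · rw [if_neg hy, if_neg hy, hm, if_neg (fun h => hy h.symm), add_zero]
  have mcol : ∀ y, ∑' x, (if x = y then 0 else ‖m x y‖ₑ ^ σ) ≤ (κ : ℝ≥0∞) := by
    intro y
    refine le_trans (le_of_eq ?_) (hcol y)
    apply tsum_congr
    intro x
    by_cases hy : x = y
    · simp [hy]
    · rw [if_neg hy, if_neg hy, hm, if_neg hy, add_zero]
  have srow : ∀ x, ∑' y, ‖m x y‖ₑ ≠ ⊤ := fun x => row_ne_top _ x hσ hσ1 hκt (mrow x)
  have scol : ∀ y, ∑' x, ‖m x y‖ₑ ≠ ⊤ := fun y => row_ne_top (fun x => m x y) y hσ hσ1 hκt (mcol y)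
  have arow : ∀ x, ∑' y, ‖a x y‖ₑ ≠ ⊤ := fun x => row_ne_top _ x hσ hσ1 hκt (hrow x)
  -- the operator in terms of `m`
  have hTm : ∀ (f : X p) (x : ℕ), T ω f x = ∑' y, m x y * f y := by
    intro f x
    rw [h4 f x]
    have s1 : Summable fun y => a x y * f y := by
      apply Summable.of_norm
      refine Summable.of_nonneg_of_le (fun _ => norm_nonneg _) (fun y => ?_)
        ((summ _ (arow x)).mul_right ‖f‖)
      rw [norm_mul]
      gcongr
      exact lp.norm_apply_le_norm hp0.ne' f y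
    have s2 : HasSum (fun y => (if x = y then v x else 0) * f y) (v x * f x) := by
      have := hasSum_single (f := fun y => (if x = y then v x else 0) * f y) x (by
        intro y hy
        simp [Ne.symm hy])
      simpa using this
    have s3 := s1.hasSum.add s2
    rw [← s3.tsum_eq]
    apply tsum_congr
    intro y
    rw [hm, add_mul]
  -- the operator is not scalar
  have hdiag : ∀ x, T ω (sg p x) x = m x x := by
    intro x
    rw [hTm, tsum_eq_single x]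
    · rw [sg_apply]; simp
    · intro y hy
      rw [sg_apply]; simp [hy]
  have hns : ∀ c : ℂ, T ω ≠ c • ContinuousLinearMap.id ℂ (X p) := by
    intro c hc
    have e : ∀ x, m x x = c := by
      intro x
      rw [← hdiag x, hc, ContinuousLinearMap.smul_apply, ContinuousLinearMap.id_apply,
        lp.coeFn_smul, Pi.smul_apply, sg_apply]
      simp
    have e0 := e 0
    have e1 := e 1
    rw [hm] at e0 e1
    simp only [if_true, hv] at e0 e1
    apply h3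
    linear_combination e0 - e1
  have hinj : ∀ (z : ℂ) (u : X p), z • u - T ω u = 0 → u = 0 := by
    intro z u hu
    by_contra hne
    exact hno (hF4 (X p) (T ω) hns (Or.inl ⟨z, u, hne, hu⟩))
  have hinj' : ∀ (z : ℂ) (φ : X p →L[ℂ] ℂ), z • φ - φ.comp (T ω) = 0 → φ = 0 := by
    intro z u hu
    by_contra hne
    exact hno (hF4 (X p) (T ω) hns (Or.inr ⟨z, u, hne, hu⟩))
  obtain ⟨R, hR⟩ := exists_nat_gt ‖T ω‖
  -- bounds for the rows
  have hCb : ∀ x, ∑' y, ‖m x y‖ ≤ ‖T ω‖ + ((κ : ℝ≥0∞) ^ (1 / σ)).toReal := by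
    intro x
    have b1 : ‖m x x‖ ≤ ‖T ω‖ := by
      rw [← hdiag x]
      calc ‖T ω (sg p x) x‖ ≤ ‖T ω (sg p x)‖ := lp.norm_apply_le_norm hp0.ne' _ x
        _ ≤ ‖T ω‖ * ‖sg p x‖ := (T ω).le_opNorm _
        _ ≤ ‖T ω‖ * 1 := by gcongr; exact norm_sg x
        _ = ‖T ω‖ := mul_one _
    have b2 := row (m x) x hσ hσ1 (mrow x)
    have b3 : (κ : ℝ≥0∞) ^ (1 / σ) ≠ ⊤ := ENNReal.rpow_ne_top_of_nonneg (by positivity) hκt
    have b4 : ∑' y, ‖m x y‖ = (∑' y, ‖m x y‖ₑ).toReal := by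
      rw [ENNReal.tsum_toReal_eq (fun _ => enorm_ne_top)]
      simp
    rw [b4]
    calc (∑' y, ‖m x y‖ₑ).toReal ≤ (‖m x x‖ₑ + (κ : ℝ≥0∞) ^ (1 / σ)).toReal :=
          ENNReal.toReal_mono (ENNReal.add_ne_top.mpr ⟨enorm_ne_top, b3⟩) b2
      _ = ‖m x x‖ + ((κ : ℝ≥0∞) ^ (1 / σ)).toReal := by
          rw [ENNReal.toReal_add enorm_ne_top b3, toReal_enorm]
      _ ≤ _ := by gcongr
  -- vectors
  obtain ⟨q, hq1, hq2, hq3⟩ := hD (fun j x => m x j) σ R (fun n z x => rr (fun i j => a j i) n z v x)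
    hσ hσ1 (rr_meas hM v _) (fun x => tend _ (srow x)) (by
      filter_upwards [hE (fun i j => a j i) v] with z hz n x hx
      rw [← hz n x hx]
      congr 1
      apply Finset.sum_congr rfl
      intro j _
      rw [hm]
      by_cases hj : j = x
      · subst hj; simp
      · simp [hj, Ne.symm hj]) (rr_zero v _) (h2 R) (by
      intro z u w hu hw eu ew
      have f1 := vec_eq (T ω) m hTm z hu eu
      have f2 := vec_eq (T ω) m hTm z hw ew
      have f3 : (∑' j, u j • sg p j : X p) - ∑' j, w j • sg p j = 0 := by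
        apply hinj z
        rw [map_sub, smul_sub, ← sub_eq_zero.mpr (f1.trans f2.symm)]
        abel
      funext x
      rw [← vec_apply (p := p) hu x, ← vec_apply (p := p) hw x, sub_eq_zero.mp f3])
  obtain ⟨q', hq1', hq2', hq3'⟩ := hD m σ R (fun n z x => rr a n z v x)
    hσ hσ1 (rr_meas hM v _) (fun x => tend _ (scol x)) (by
      filter_upwards [hE a v] with z hz n x hx
      rw [← hz n x hx]
      congr 1
      apply Finset.sum_congr rfl
      intro j _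
      rw [hm]
      by_cases hj : j = x
      · subst hj; simp
      · simp [hj]) (rr_zero v _) (h1 R) (by
      intro z u w hu hw eu ew
      have f1 := fun_eq (T ω) m hTm _ (fun x => summ _ (srow x)) hCb z hu eu
      have f2 := fun_eq (T ω) m hTm _ (fun x => summ _ (srow x)) hCb z hw ew
      have f3 : (∑' j, u j • ev p j : X p →L[ℂ] ℂ) - ∑' j, w j • ev p j = 0 := by
        apply hinj' z
        rw [ContinuousLinearMap.sub_comp, smul_sub, ← sub_eq_zero.mpr (f1.trans f2.symm)]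
        abel
      have f4 := sub_eq_zero.mp f3
      funext x
      have f5 := congrArg (fun φ : X p →L[ℂ] ℂ => φ (sg p x)) f4
      simp only [fun_apply hu, fun_apply hw] at f5
      rw [tsum_eq_single x, tsum_eq_single x] at f5
      · simpa [sg_apply] using f5
      · intro j hj; simp [sg_apply, hj]
      · intro j hj; simp [sg_apply, hj])
  obtain ⟨l1, l2, l3⟩ := hL (X p) (sg p) σ R q hσ hσ1 norm_sg hq1 (hq2.mono fun z hz => hz.1) hq3
  obtain ⟨l1', l2', l3'⟩ := hL (X p →L[ℂ] ℂ) (ev p) σ R q' hσ hσ1 norm_ev hq1'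
    (hq2'.mono fun z hz => hz.1) hq3'
  have hx0 : sg p 0 ≠ 0 := by
    intro h
    have := congrArg (fun f : X p => f 0) h
    simp [sg_apply] at this
  have hy0 : ev p 0 ≠ 0 := by
    intro h
    have := congrArg (fun f : X p →L[ℂ] ℂ => f (sg p 0)) h
    simp [ev_apply, sg_apply] at this
  refine hno (hF (X p) (T ω) (sg p 0) (ev p 0) σ R (fun z => ∑' x, q z x • sg p x)
    (fun z => ∑' x, q' z x • ev p x) hσ hσ1 hR hx0 hy0 hinj hinj' l1 l1' ?_ ?_ l2 l2' l3)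
  · filter_upwards [hq2] with z hz
    exact vec_eq (T ω) m hTm z hz.1 hz.2
  · filter_upwards [hq2'] with z hz
    exact fun_eq (T ω) m hTm _ (fun x => summ _ (srow x)) hCb z hz.1 hz.2

end Pool.Agent.TH908.IS.Main
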