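import Pool.Agent.TH908.IS.Main
import Pool.Agent.TH908.IS.Bi
import Pool.Agent.TH908.IS.C3

/-! Assembly of project IS, second round: Banach spaces with a bounded total biorthogonal system,
finitely many exceptional rows and columns. -/

set_option autoImplicit false

open MeasureTheory Metric Set Filter Topology
open scoped ENNReal NNReal

namespace Pool.Agent.TH908.IS.Main3

open Pool.Agent.TH908.IS.Bi

theorem exists_bound (f : ℕ → ℝ≥0∞) (κ : ℝ≥0) (F : Finset ℕ) (h1 : ∀ u, f u ≠ ⊤)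
    (h2 : ∀ u, u ∉ F → f u ≤ κ) : ∃ κ₀ : ℝ≥0, ∀ u, f u ≤ (κ₀ : ℝ≥0∞) := by
  refine ⟨κ + ∑ u ∈ F, (f u).toNNReal, ?_⟩
  intro u
  by_cases hu : u ∈ F
  · have h3 : (f u).toNNReal ≤ ∑ u ∈ F, (f u).toNNReal :=
      Finset.single_le_sum (f := fun u => (f u).toNNReal) (fun _ _ => bot_le) hu
    rw [← ENNReal.coe_toNNReal (h1 u)]
    exact_mod_cast h3.trans (le_add_of_nonneg_left bot_le)
  · refine (h2 u hu).trans ?_
    exact_mod_cast le_add_of_nonneg_right bot_le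

attribute [local irreducible] Pool.Agent.TH908.IS.rr

set_option maxHeartbeats 1000000 in
theorem main (hC : St_C3) (hE : St_E) (hM : St_M) (hD : St_D) (hL : St_L) (hF : St_F)
    (hF4 : St_F4) (hG : St_G)
    (Ω : Type) [MeasurableSpace Ω] (P : Measure Ω) [IsProbabilityMeasure P]
    (V : ℕ → Ω → ℂ) (hV : ∀ x, Measurable (V x)) (hind : ProbabilityTheory.iIndepFun V P)
    (σ : ℝ) (hσ : 0 < σ) (hσ1 : σ ≤ 1) (N κ : ℝ≥0)
    (hN : ∀ x b, ∫⁻ ω, (‖V x ω - b‖ₑ⁻¹) ^ σ ∂P ≤ N)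
    (a : ℕ → ℕ → ℂ) (F : Finset ℕ)
    (hrow0 : ∀ x, ∑' y, (if y = x then 0 else ‖a x y‖ₑ ^ σ) ≠ ⊤)
    (hrow : ∀ x, x ∉ F → ∑' y, (if y = x then 0 else ‖a x y‖ₑ ^ σ) ≤ κ)
    (hcol0 : ∀ y, ∑' x, (if x = y then 0 else ‖a x y‖ₑ ^ σ) ≠ ⊤)
    (hcol : ∀ y, y ∉ F → ∑' x, (if x = y then 0 else ‖a x y‖ₑ ^ σ) ≤ κ) (hNκ : N * κ < 1)
    (X : Type) [NormedAddCommGroup X] [NormedSpace ℂ X] [CompleteSpace X] (S : Sys X)
    (T : Ω → (X →L[ℂ] X))
    (hT : ∀ᵐ ω ∂P, ∀ (f : X) (x : ℕ),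
      S.ε x (T ω f) = ∑' y, a x y * S.ε y f + V x ω * S.ε x f) :
    ∀ᵐ ω ∂P, Hyp (T ω) := by
  obtain ⟨κr, hκr⟩ := exists_bound _ κ F hrow0 hrow
  obtain ⟨κc, hκc⟩ := exists_bound _ κ F hcol0 hcol
  have hNt : (N : ℝ≥0∞) ≠ ⊤ := ENNReal.coe_ne_top
  have hκt : (κr : ℝ≥0∞) ≠ ⊤ := ENNReal.coe_ne_top
  have hκt' : (κc : ℝ≥0∞) ≠ ⊤ := ENNReal.coe_ne_top
  have c1 := hC Ω P V a σ N κ F hV hind hσ hσ1 hN hrow0 hrow hNκ
  have c2 := hC Ω P V (fun i j => a j i) σ N κ F hV hind hσ hσ1 hN hcol0 hcol hNκ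
  have c3 := hG Ω P V σ N hV hind hσ hNt hN (a 1 1 - a 0 0)
  filter_upwards [c1, c2, c3, hT] with ω h1 h2 h3 h4
  by_contra hno
  set v : ℕ → ℂ := fun x => V x ω with hv
  obtain ⟨m, hm⟩ : ∃ m : ℕ → ℕ → ℂ, ∀ x y, m x y = a x y + (if x = y then v x else 0) :=
    ⟨_, fun _ _ => rfl⟩
  have mrow : ∀ x, ∑' y, (if y = x then 0 else ‖m x y‖ₑ ^ σ) ≤ (κr : ℝ≥0∞) := by
    intro x
    refine le_trans (le_of_eq ?_) (hκr x)
    apply tsum_congr
    intro y
    by_cases hy : y = x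
    · simp [hy]
    · rw [if_neg hy, if_neg hy, hm, if_neg (fun h => hy h.symm), add_zero]
  have mcol : ∀ y, ∑' x, (if x = y then 0 else ‖m x y‖ₑ ^ σ) ≤ (κc : ℝ≥0∞) := by
    intro y
    refine le_trans (le_of_eq ?_) (hκc y)
    apply tsum_congr
    intro x
    by_cases hy : x = y
    · simp [hy]
    · rw [if_neg hy, if_neg hy, hm, if_neg hy, add_zero]
  have srow : ∀ x, ∑' y, ‖m x y‖ₑ ≠ ⊤ := fun x => Main.row_ne_top _ x hσ hσ1 hκt (mrow x)
  have scol : ∀ y, ∑' x, ‖m x y‖ₑ ≠ ⊤ :=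
    fun y => Main.row_ne_top (fun x => m x y) y hσ hσ1 hκt' (mcol y)
  have arow : ∀ x, ∑' y, ‖a x y‖ₑ ≠ ⊤ := fun x => Main.row_ne_top _ x hσ hσ1 hκt (hκr x)
  have hh : ∀ y f, ‖S.ε y f‖ ≤ ‖f‖ := fun y f => by
    calc ‖S.ε y f‖ ≤ ‖S.ε y‖ * ‖f‖ := (S.ε y).le_opNorm f
      _ ≤ 1 * ‖f‖ := by gcongr; exact S.hε y
      _ = ‖f‖ := one_mul _
  -- the operator in terms of `m`
  have hTm : ∀ (f : X) (x : ℕ), S.ε x (T ω f) = ∑' y, m x y * S.ε y f := by
    intro f x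
    rw [h4 f x]
    have s1 : Summable fun y => a x y * S.ε y f := by
      apply Summable.of_norm
      refine Summable.of_nonneg_of_le (fun _ => norm_nonneg _) (fun y => ?_)
        ((Main.summ _ (arow x)).mul_right ‖f‖)
      rw [norm_mul]
      gcongr
      exact hh y f
    have s2 : HasSum (fun y => (if x = y then v x else 0) * S.ε y f) (v x * S.ε x f) := by
      have := hasSum_single (f := fun y => (if x = y then v x else 0) * S.ε y f) x (by
        intro y hy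
        simp [Ne.symm hy])
      simpa using this
    have s3 := s1.hasSum.add s2
    rw [← s3.tsum_eq]
    apply tsum_congr
    intro y
    rw [hm, add_mul]
  -- the operator is not scalar
  have hdiag : ∀ x, S.ε x (T ω (S.e x)) = m x x * S.c := by
    intro x
    rw [hTm, tsum_eq_single x]
    · rw [S.bi, if_pos rfl]
    · intro y hy
      rw [S.bi, if_neg hy, mul_zero]
  have hns : ∀ c : ℂ, T ω ≠ c • ContinuousLinearMap.id ℂ X := by
    intro c hc
    have e : ∀ x, m x x = c := by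
      intro x
      have h5 := hdiag x
      rw [hc, ContinuousLinearMap.smul_apply, ContinuousLinearMap.id_apply, map_smul, S.bi,
        if_pos rfl, smul_eq_mul] at h5
      exact (mul_right_cancel₀ S.hc h5).symm
    have e0 := e 0
    have e1 := e 1
    rw [hm] at e0 e1
    simp only [if_true, hv] at e0 e1
    apply h3
    linear_combination e0 - e1
  have hinj : ∀ (z : ℂ) (u : X), z • u - T ω u = 0 → u = 0 := by
    intro z u hu
    by_contra hne
    exact hno (hF4 X (T ω) hns (Or.inl ⟨z, u, hne, hu⟩))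
  have hinj' : ∀ (z : ℂ) (φ : X →L[ℂ] ℂ), z • φ - φ.comp (T ω) = 0 → φ = 0 := by
    intro z u hu
    by_contra hne
    exact hno (hF4 X (T ω) hns (Or.inr ⟨z, u, hne, hu⟩))
  obtain ⟨R, hR⟩ := exists_nat_gt ‖T ω‖
  have hcpos : 0 < ‖S.c‖ := norm_pos_iff.mpr S.hc
  -- bounds for the rows
  have hCb : ∀ x, ∑' y, ‖m x y‖ ≤ ‖T ω‖ / ‖S.c‖ + ((κr : ℝ≥0∞) ^ (1 / σ)).toReal := by
    intro x
    have b1 : ‖m x x‖ ≤ ‖T ω‖ / ‖S.c‖ := by
      rw [le_div_iff₀ hcpos, ← norm_mul, ← hdiag x]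
      calc ‖S.ε x (T ω (S.e x))‖ ≤ ‖T ω (S.e x)‖ := hh x _
        _ ≤ ‖T ω‖ * ‖S.e x‖ := (T ω).le_opNorm _
        _ ≤ ‖T ω‖ * 1 := by gcongr; exact S.he x
        _ = ‖T ω‖ := mul_one _
    have b2 := Main.row (m x) x hσ hσ1 (mrow x)
    have b3 : (κr : ℝ≥0∞) ^ (1 / σ) ≠ ⊤ := ENNReal.rpow_ne_top_of_nonneg (by positivity) hκt
    have b4 : ∑' y, ‖m x y‖ = (∑' y, ‖m x y‖ₑ).toReal := by
      rw [ENNReal.tsum_toReal_eq (fun _ => enorm_ne_top)]
      simp
    rw [b4]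
    calc (∑' y, ‖m x y‖ₑ).toReal ≤ (‖m x x‖ₑ + (κr : ℝ≥0∞) ^ (1 / σ)).toReal :=
          ENNReal.toReal_mono (ENNReal.add_ne_top.mpr ⟨enorm_ne_top, b3⟩) b2
      _ = ‖m x x‖ + ((κr : ℝ≥0∞) ^ (1 / σ)).toReal := by
          rw [ENNReal.toReal_add enorm_ne_top b3, toReal_enorm]
      _ ≤ _ := by gcongr
  -- vectors
  obtain ⟨q, hq1, hq2, hq3⟩ := hD (fun j x => m x j) σ R (fun n z x => rr (fun i j => a j i) n z v x)
    hσ hσ1 (Main.rr_meas hM v _) (fun x => Main.tend _ (srow x)) (by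
      filter_upwards [hE (fun i j => a j i) v] with z hz n x hx
      rw [← hz n x hx]
      congr 1
      apply Finset.sum_congr rfl
      intro j _
      rw [hm]
      by_cases hj : j = x
      · subst hj; simp
      · simp [hj, Ne.symm hj]) (Main.rr_zero v _) (h2 R) (by
      intro z u w hu hw eu ew
      have f1 := vec_eq S (T ω) m hTm z hu eu
      have f2 := vec_eq S (T ω) m hTm z hw ew
      have f3 : (∑' j, u j • S.e j) - ∑' j, w j • S.e j = 0 := by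
        apply hinj z
        rw [map_sub, smul_sub, ← sub_eq_zero.mpr (f1.trans f2.symm)]
        abel
      funext x
      have f4 : u x * S.c = w x * S.c := by
        rw [← vec_apply S hu x, ← vec_apply S hw x, sub_eq_zero.mp f3]
      exact mul_right_cancel₀ S.hc f4)
  obtain ⟨q', hq1', hq2', hq3'⟩ := hD m σ R (fun n z x => rr a n z v x)
    hσ hσ1 (Main.rr_meas hM v _) (fun x => Main.tend _ (scol x)) (by
      filter_upwards [hE a v] with z hz n x hx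
      rw [← hz n x hx]
      congr 1
      apply Finset.sum_congr rfl
      intro j _
      rw [hm]
      by_cases hj : j = x
      · subst hj; simp
      · simp [hj]) (Main.rr_zero v _) (h1 R) (by
      intro z u w hu hw eu ew
      have f1 := fun_eq S (T ω) m hTm _ (fun x => Main.summ _ (srow x)) hCb z hu eu
      have f2 := fun_eq S (T ω) m hTm _ (fun x => Main.summ _ (srow x)) hCb z hw ew
      have f3 : (∑' j, u j • S.ε j) - ∑' j, w j • S.ε j = 0 := by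
        apply hinj' z
        rw [ContinuousLinearMap.sub_comp, smul_sub, ← sub_eq_zero.mpr (f1.trans f2.symm)]
        abel
      have f4 := sub_eq_zero.mp f3
      funext x
      have f5 := congrArg (fun φ : X →L[ℂ] ℂ => φ (S.e x)) f4
      simp only [fun_apply S hu, fun_apply S hw] at f5
      rw [tsum_eq_single x, tsum_eq_single x] at f5
      · rw [S.bi, if_pos rfl] at f5
        exact mul_right_cancel₀ S.hc f5
      · intro j hj; rw [S.bi, if_neg hj, mul_zero]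
      · intro j hj; rw [S.bi, if_neg hj, mul_zero])
  obtain ⟨l1, l2, l3⟩ := hL X S.e σ R q hσ hσ1 S.he hq1 (hq2.mono fun z hz => hz.1) hq3
  obtain ⟨l1', l2', l3'⟩ := hL (X →L[ℂ] ℂ) S.ε σ R q' hσ hσ1 S.hε hq1'
    (hq2'.mono fun z hz => hz.1) hq3'
  have hx0 : S.e 0 ≠ 0 := by
    intro h
    have := S.bi 0 0
    rw [h, map_zero, if_pos rfl] at this
    exact S.hc this.symm
  have hy0 : S.ε 0 ≠ 0 := by
    intro h
    have := S.bi 0 0
    rw [h, if_pos rfl] at this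
    exact S.hc this.symm
  refine hno (hF X (T ω) (S.e 0) (S.ε 0) σ R (fun z => ∑' x, q z x • S.e x)
    (fun z => ∑' x, q' z x • S.ε x) hσ hσ1 hR hx0 hy0 hinj hinj' l1 l1' ?_ ?_ l2 l2' l3)
  · filter_upwards [hq2] with z hz
    exact vec_eq S (T ω) m hTm z hz.1 hz.2
  · filter_upwards [hq2'] with z hz
    exact fun_eq S (T ω) m hTm _ (fun x => Main.summ _ (srow x)) hCb z hz.1 hz.2

end Pool.Agent.TH908.IS.Main3
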