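import Mathlib

/-!
# Project IS: random diagonal perturbations and hyperinvariant subspaces: statements

`V x` independent with `E |V x - b|^(-σ) ≤ N`, `a` a matrix with `σ`-summable off-diagonal rows and
columns (sums at most `κ`, `N κ < 1`): almost surely `a + V` has a nontrivial hyperinvariant subspace on
`ℓ^p`.
-/

set_option autoImplicit false

open MeasureTheory Metric Set Filter Topology
open scoped ENNReal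

namespace Pool.Agent.TH908.IS

/-- `z - V - a` on the sites of `s`, the identity elsewhere -/
noncomputable def B {ι : Type} [DecidableEq ι] (a : ι → ι → ℂ) (z : ℂ) (s : Finset ι)
    (v : ι → ℂ) : Matrix ι ι ℂ :=
  fun i j => if i ∈ s ∧ j ∈ s then (if i = j then z - v i else 0) - a i j
    else (if i = j then 1 else 0)

/-- row `0` of the inverse of `z - V - a` on `{0, …, n}`, extended by zero -/
noncomputable def rr (a : ℕ → ℕ → ℂ) (n : ℕ) (z : ℂ) (v : ℕ → ℂ) (x : ℕ) : ℂ :=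
  if h : x < n + 1 then
    (B (fun i j : Fin (n + 1) => a i j) z Finset.univ (fun i => v i))⁻¹ 0 ⟨x, h⟩
  else 0

/-- IS-A: dependence of the resolvent on one site (linear algebra) -/
def St_A : Prop :=
  ∀ (ι : Type) [Fintype ι] [DecidableEq ι] (a : ι → ι → ℂ) (z : ℂ) (s : Finset ι)
    (o y : ι) (v : ι → ℂ), o ∈ s → y ∈ s → IsUnit (B a z (s.erase y) v).det →
    ∃ β : ℂ, ∀ t : ℂ, (t ≠ β → IsUnit (B a z s (Function.update v y t)).det) ∧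
      ‖(B a z s (Function.update v y t))⁻¹ o y‖ₑ ≤
        ‖(if y = o then (1 : ℂ) else ∑ i ∈ s.erase y, (B a z (s.erase y) v)⁻¹ o i * a i y)‖ₑ *
          ‖t - β‖ₑ⁻¹

/-- IS-B: the fractional moment bound in finite volume -/
def St_B : Prop :=
  ∀ (ι : Type) [Fintype ι] [DecidableEq ι] (μ : ι → Measure ℂ) [∀ i, IsProbabilityMeasure (μ i)]
    (a : ι → ι → ℂ) (z : ℂ) (o : ι) (σ : ℝ) (N κ M : ℝ≥0∞), 0 < σ → σ ≤ 1 → N ≠ ⊤ →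
    (∀ i b, ∫⁻ t, (‖t - b‖ₑ⁻¹) ^ σ ∂(μ i) ≤ N) →
    (∀ u, ∑ y ∈ Finset.univ.erase u, ‖a u y‖ₑ ^ σ ≤ κ) → N * (1 + κ * M) ≤ M →
    (∀ᵐ v ∂(Measure.pi μ), IsUnit (B a z Finset.univ v).det) ∧
      ∑ y, ∫⁻ v, ‖(B a z Finset.univ v)⁻¹ o y‖ₑ ^ σ ∂(Measure.pi μ) ≤ M

/-- IS-M: measurability -/
def St_M : Prop :=
  ∀ (a : ℕ → ℕ → ℂ) (n x : ℕ), Measurable (fun p : ℂ × (ℕ → ℂ) => rr a n p.1 p.2 x)

/-- IS-C: almost surely the lower limit is integrable on every disc -/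
def St_C : Prop :=
  ∀ (Ω : Type) [MeasurableSpace Ω] (P : Measure Ω) [IsProbabilityMeasure P] (V : ℕ → Ω → ℂ)
    (a : ℕ → ℕ → ℂ) (σ : ℝ) (N κ M : ℝ≥0∞), (∀ x, Measurable (V x)) →
    ProbabilityTheory.iIndepFun V P → 0 < σ → σ ≤ 1 → N ≠ ⊤ → M ≠ ⊤ →
    (∀ x b, ∫⁻ ω, (‖V x ω - b‖ₑ⁻¹) ^ σ ∂P ≤ N) →
    (∀ u, ∑' y, (if y = u then 0 else ‖a u y‖ₑ ^ σ) ≤ κ) → N * (1 + κ * M) ≤ M →
    ∀ᵐ ω ∂P, ∀ R : ℕ,
      ∫⁻ z in ball (0 : ℂ) R,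
        liminf (fun n => ∑' x, ‖rr a n z (fun x => V x ω) x‖ₑ ^ σ) atTop ≠ ⊤

/-- IS-E: the equation for the rows -/
def St_E : Prop :=
  ∀ (a : ℕ → ℕ → ℂ) (v : ℕ → ℂ), ∀ᵐ z ∂(volume : Measure ℂ), ∀ n x : ℕ, x ≤ n →
    z * rr a n z v x -
      ∑ j ∈ Finset.range (n + 1), rr a n z v j * (a j x + if j = x then v x else 0) =
      if x = 0 then 1 else 0

/-- IS-D: passage to the infinite volume -/
def St_D : Prop :=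
  ∀ (m : ℕ → ℕ → ℂ) (σ R : ℝ) (r : ℕ → ℂ → ℕ → ℂ), 0 < σ → σ ≤ 1 →
    (∀ n x, Measurable (fun z => r n z x)) →
    (∀ x, Tendsto (fun j => m j x) atTop (𝓝 0)) →
    (∀ᵐ z ∂(volume : Measure ℂ), ∀ n x : ℕ, x ≤ n →
      z * r n z x - ∑ j ∈ Finset.range (n + 1), r n z j * m j x = if x = 0 then 1 else 0) →
    (∀ n z x, n < x → r n z x = 0) →
    ∫⁻ z in ball (0 : ℂ) R, liminf (fun n => ∑' x, ‖r n z x‖ₑ ^ σ) atTop ≠ ⊤ →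
    (∀ (z : ℂ) (u w : ℕ → ℂ), Summable (fun x => ‖u x‖) → Summable (fun x => ‖w x‖) →
      (∀ x, z * u x - ∑' j, u j * m j x = if x = 0 then 1 else 0) →
      (∀ x, z * w x - ∑' j, w j * m j x = if x = 0 then 1 else 0) → u = w) →
    ∃ q : ℂ → ℕ → ℂ, (∀ x, Measurable (fun z => q z x)) ∧
      (∀ᵐ z ∂(volume.restrict (ball (0 : ℂ) R)), Summable (fun x => ‖q z x‖) ∧
        ∀ x, z * q z x - ∑' j, q z j * m j x = if x = 0 then 1 else 0) ∧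
      ∫⁻ z in ball (0 : ℂ) R, (∑' x, ‖q z x‖ₑ) ^ σ ≠ ⊤

/-- IS-L: functions with values in a Banach space -/
def St_L : Prop :=
  ∀ (E : Type) [NormedAddCommGroup E] [NormedSpace ℂ E] [CompleteSpace E] (e : ℕ → E) (σ R : ℝ)
    (q : ℂ → ℕ → ℂ), 0 < σ → σ ≤ 1 → (∀ x, ‖e x‖ ≤ 1) → (∀ x, Measurable (fun z => q z x)) →
    (∀ᵐ z ∂(volume.restrict (ball (0 : ℂ) R)), Summable (fun x => ‖q z x‖)) →
    ∫⁻ z in ball (0 : ℂ) R, (∑' x, ‖q z x‖ₑ) ^ σ ≠ ⊤ →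
    AEStronglyMeasurable (fun z => ∑' x, q z x • e x) (volume.restrict (ball (0 : ℂ) R)) ∧
      IntegrableOn (fun z => Real.posLog ‖∑' x, q z x • e x‖) (ball (0 : ℂ) R) ∧
      ∫⁻ z in ball (0 : ℂ) R, ‖∑' x, q z x • e x‖ₑ ^ σ ≠ ⊤

/-- `l` is in the local resolvent set of `x` -/
def Loc {E : Type} [NormedAddCommGroup E] [NormedSpace ℂ E] (T : E →L[ℂ] E) (x : E) (l : ℂ) : Prop :=
  ∃ (δ : ℝ) (F : ℂ → E), 0 < δ ∧ DifferentiableOn ℂ F (ball l δ) ∧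
    ∀ z ∈ ball l δ, z • F z - T (F z) = x

/-- IS-F1: the local spectrum is not empty -/
def St_F1 : Prop :=
  ∀ (E : Type) [NormedAddCommGroup E] [NormedSpace ℂ E] [CompleteSpace E] (T : E →L[ℂ] E) (x : E)
    (K : ℝ), x ≠ 0 → (∀ u, ‖T u‖ ≤ K * ‖u‖) → (∀ (z : ℂ) (u : E), z • u - T u = 0 → u = 0) →
    ∃ l : ℂ, ‖l‖ ≤ K ∧ ¬ Loc T x l

/-- IS-F2: subharmonicity of `‖F‖ ^ σ` -/
def St_F2 : Prop :=
  ∀ (E : Type) [NormedAddCommGroup E] [NormedSpace ℂ E] [CompleteSpace E] (F : ℂ → E) (w : ℂ)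
    (ρ σ : ℝ), 0 < ρ → 0 < σ → σ ≤ 1 → DifferentiableOn ℂ F (ball w ρ) →
    ENNReal.ofReal (Real.pi * ρ ^ 2) * ‖F w‖ₑ ^ σ ≤ ∫⁻ z in ball w ρ, ‖F z‖ₑ ^ σ

/-- IS-F3: a one-point local spectrum is impossible -/
def St_F3 : Prop :=
  ∀ (E : Type) [NormedAddCommGroup E] [NormedSpace ℂ E] [CompleteSpace E] (T : E →L[ℂ] E) (x : E)
    (l : ℂ) (σ R : ℝ) (f : ℂ → E), 0 < σ → σ ≤ 1 → ‖l‖ < R →
    (∀ (z : ℂ) (u : E), z • u - T u = 0 → u = 0) → (∀ z, z ≠ l → Loc T x z) →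
    (∀ᵐ z ∂(volume.restrict (ball (0 : ℂ) R)), z • f z - T (f z) = x) →
    ∫⁻ z in ball (0 : ℂ) R, ‖f z‖ₑ ^ σ ≠ ⊤ → Loc T x l

/-- nontrivial closed hyperinvariant subspace -/
def Hyp {X : Type} [NormedAddCommGroup X] [NormedSpace ℂ X] (T : X →L[ℂ] X) : Prop :=
  ∃ V : Submodule ℂ X, IsClosed (V : Set X) ∧ V ≠ ⊥ ∧ V ≠ ⊤ ∧
    ∀ Q : X →L[ℂ] X, Q * T = T * Q → ∀ v ∈ V, Q v ∈ V

/-- IS-F4: eigenvectors of the operator or of the adjoint -/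
def St_F4 : Prop :=
  ∀ (X : Type) [NormedAddCommGroup X] [NormedSpace ℂ X] (T : X →L[ℂ] X),
    (∀ c : ℂ, T ≠ c • ContinuousLinearMap.id ℂ X) →
    ((∃ (z : ℂ) (u : X), u ≠ 0 ∧ z • u - T u = 0) ∨
      (∃ (z : ℂ) (φ : X →L[ℂ] ℂ), φ ≠ 0 ∧ z • φ - φ.comp T = 0)) → Hyp T

/-- IS-F: the theorem for measurable local resolvents in a disc of radius `> ‖T‖` -/
def St_F : Prop :=
  ∀ (X : Type) [NormedAddCommGroup X] [NormedSpace ℂ X] [CompleteSpace X] (T : X →L[ℂ] X)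
    (x : X) (y : X →L[ℂ] ℂ) (σ R : ℝ) (f : ℂ → X) (g : ℂ → (X →L[ℂ] ℂ)), 0 < σ → σ ≤ 1 →
    ‖T‖ < R → x ≠ 0 → y ≠ 0 →
    (∀ (z : ℂ) (u : X), z • u - T u = 0 → u = 0) →
    (∀ (z : ℂ) (φ : X →L[ℂ] ℂ), z • φ - φ.comp T = 0 → φ = 0) →
    AEStronglyMeasurable f (volume.restrict (ball (0 : ℂ) R)) →
    AEStronglyMeasurable g (volume.restrict (ball (0 : ℂ) R)) →
    (∀ᵐ z ∂(volume.restrict (ball (0 : ℂ) R)), z • f z - T (f z) = x) →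
    (∀ᵐ z ∂(volume.restrict (ball (0 : ℂ) R)), z • g z - (g z).comp T = y) →
    IntegrableOn (fun z => Real.posLog ‖f z‖) (ball (0 : ℂ) R) →
    IntegrableOn (fun z => Real.posLog ‖g z‖) (ball (0 : ℂ) R) →
    ∫⁻ z in ball (0 : ℂ) R, ‖f z‖ₑ ^ σ ≠ ⊤ → Hyp T

/-- IS-G: the difference of two potentials has no atoms -/
def St_G : Prop :=
  ∀ (Ω : Type) [MeasurableSpace Ω] (P : Measure Ω) [IsProbabilityMeasure P] (V : ℕ → Ω → ℂ)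
    (σ : ℝ) (N : ℝ≥0∞), (∀ x, Measurable (V x)) → ProbabilityTheory.iIndepFun V P → 0 < σ →
    N ≠ ⊤ → (∀ x b, ∫⁻ ω, (‖V x ω - b‖ₑ⁻¹) ^ σ ∂P ≤ N) →
    ∀ c : ℂ, ∀ᵐ ω ∂P, V 0 ω - V 1 ω ≠ c

end Pool.Agent.TH908.IS
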