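import Pool.Agent.TH908.IS.Stm

/-! # Project IS, second round: finitely many exceptional sites -/

set_option autoImplicit false

open MeasureTheory Metric Set Filter Topology
open scoped ENNReal NNReal

namespace Pool.Agent.TH908.IS

/-- IS-B3: the fractional moment bound in finite volume with at most `c` exceptional sites -/
def St_B3 : Prop :=
  ∀ (σ : ℝ) (N κ₀ κ : ℝ≥0) (c : ℕ), 0 < σ → σ ≤ 1 → N * κ < 1 → ∃ M : ℝ≥0,
    ∀ (ι : Type) [Fintype ι] [DecidableEq ι] (μ : ι → Measure ℂ) [∀ i, IsProbabilityMeasure (μ i)]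
      (a : ι → ι → ℂ) (z : ℂ) (o : ι) (F : Finset ι), F.card ≤ c →
      (∀ i b, ∫⁻ t, (‖t - b‖ₑ⁻¹) ^ σ ∂(μ i) ≤ N) →
      (∀ u, ∑ y ∈ Finset.univ.erase u, ‖a u y‖ₑ ^ σ ≤ κ₀) →
      (∀ u, u ∉ F → ∑ y ∈ Finset.univ.erase u, ‖a u y‖ₑ ^ σ ≤ κ) →
      ∑ y, ∫⁻ v, ‖(B a z Finset.univ v)⁻¹ o y‖ₑ ^ σ ∂(Measure.pi μ) ≤ M

end Pool.Agent.TH908.IS
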